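import Pool.Agent.MP_a5588a_al.Full.H5Braid

/-! Quadratic elements when no subgroup of order nine consists of quadratic elements. -/

namespace Pool.Agent.MP_a5588a_al.Full

variable {L E : Type*} [Group L] [Ring E]

/-- `d` acts quadratically. -/
def Qd (ρ : L →* E) (d : L) : Prop := (ρ d - 1) * (ρ d - 1) = 0

/-- A faithful representation in characteristic three and a normal set `D` of quadratic elements,
no two of which generate a quadratic subgroup of order nine. -/
structure Star (ρ : L →* E) (D : Set L) : Prop where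
  three : (3 : E) = 0
  inj : Function.Injective ρ
  quad : ∀ {d}, d ∈ D → Qd ρ d
  conj : ∀ {d}, d ∈ D → ∀ g, g * d * g⁻¹ ∈ D
  inv : ∀ {d}, d ∈ D → d⁻¹ ∈ D
  star : ∀ d ∈ D, ∀ e ∈ D, Commute d e → (ρ d - 1) * (ρ e - 1) = 0 →
    d = 1 ∨ e = 1 ∨ e = d ∨ e = d⁻¹

variable {ρ : L →* E} {D : Set L}

theorem ap_inv (ρ : L →* E) (g : L) : ρ g * ρ g⁻¹ = 1 := by rw [← map_mul, mul_inv_cancel, map_one]

theorem inv_ap (ρ : L →* E) (g : L) : ρ g⁻¹ * ρ g = 1 := by rw [← map_mul, inv_mul_cancel, map_one]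

theorem conj_sub_H5 (ρ : L →* E) (g d : L) : ρ (g * d * g⁻¹) - 1 = ρ g * (ρ d - 1) * ρ g⁻¹ := by
  rw [map_mul, map_mul, mul_sub, sub_mul, mul_one, ap_inv]

theorem Qd.conj {d : L} (h : Qd ρ d) (g : L) : Qd ρ (g * d * g⁻¹) := by
  unfold Qd at *
  rw [conj_sub_H5]
  calc _ = ρ g * (ρ d - 1) * (ρ g⁻¹ * ρ g) * (ρ d - 1) * ρ g⁻¹ := by noncomm_ring
    _ = ρ g * ((ρ d - 1) * (ρ d - 1)) * ρ g⁻¹ := by rw [inv_ap]; noncomm_ring
    _ = 0 := by rw [h]; noncomm_ring

theorem Qd.inv_sub {d : L} (h : Qd ρ d) : ρ d⁻¹ - 1 = -(ρ d - 1) := by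
  have := inv_ap ρ d
  unfold Qd at h
  linear_combination (norm := noncomm_ring) ρ d⁻¹ * h - this * (ρ d - 1) + this

theorem Qd.inv {d : L} (h : Qd ρ d) : Qd ρ d⁻¹ := by
  unfold Qd
  rw [h.inv_sub, neg_mul_neg]
  exact h

theorem eq_of_sq_cube {G : Type*} [Group G] {s : G} (h2 : s * s = 1) (h3 : s ^ 3 = 1) : s = 1 := by
  rwa [pow_three, h2, mul_one] at h3

theorem ring_ab {y u v : E} (hy : (y - 1) * (y - 1) = 0) (q1 : (u - 1) * (u - 1) = 0)
    (q2 : (v - 1) * (v - 1) = 0) (c : u * v = v * u) (p : u * v = y * y) :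
    (u - 1) * (v - 1) + (u - 1) * (v - 1) = 0 := by
  obtain ⟨a, rfl⟩ : ∃ a, y = 1 + a := ⟨y - 1, by abel⟩
  obtain ⟨u, rfl⟩ : ∃ a, u = 1 + a := ⟨u - 1, by abel⟩
  obtain ⟨v, rfl⟩ : ∃ a, v = 1 + a := ⟨v - 1, by abel⟩
  simp only [add_sub_cancel_left] at *
  have c2 : v * u = u * v := by linear_combination (norm := noncomm_ring) -c
  have e : u + v + u * v = a + a := by linear_combination (norm := noncomm_ring) p + hy
  have e' : (u + v + u * v) * (u + v + u * v) = 0 := by
    rw [e]; linear_combination (norm := noncomm_ring) 4 * hy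
  have t1 : u * v * u = 0 := by rw [mul_assoc, c2, ← mul_assoc, q1, zero_mul]
  have t2 : v * u * v = 0 := by rw [c2, mul_assoc, q2, mul_zero]
  linear_combination (norm := noncomm_ring) e' - c2 - q1 - q2 - q1 * v - u * q2 - t1 - t2 - t1 * v

namespace Star

variable (S : Star ρ D)
include S

theorem cube {d : L} (hd : d ∈ D) : d ^ 3 = 1 := S.inj (by
  have h3 := S.three
  have h := S.quad hd
  unfold Qd at h
  rw [map_pow, map_one]
  linear_combination (norm := noncomm_ring) (ρ d - 1) * h + 3 * h + h3 * (ρ d - 1))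

theorem of_two {x : E} (h : x + x = 0) : x = 0 := by
  have h3 := S.three
  linear_combination (norm := noncomm_ring) h3 * x - h

/-- A commutator with a quadratic element that commutes with both entries is trivial. -/
theorem ab {y x : L} (hy : y ∈ D) (h1 : Commute (x * y * x⁻¹ * y⁻¹) x)
    (h2 : Commute (x * y * x⁻¹ * y⁻¹) y) : Commute x y := by
  obtain ⟨s, hs⟩ : ∃ s, s = x * y * x⁻¹ * y⁻¹ := ⟨_, rfl⟩
  rw [← hs] at h1 h2
  have e1 : x * y * x⁻¹ = s * y := by rw [hs]; group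
  have e2 : x⁻¹ * y * x⁻¹⁻¹ = s⁻¹ * y := by
    calc x⁻¹ * y * x⁻¹⁻¹ = x⁻¹ * s⁻¹ * (s * y) * x := by group
      _ = (x⁻¹ * s⁻¹ * x) * y := by rw [← e1]; group
      _ = _ := by rw [mul_assoc x⁻¹, h1.inv_left.eq]; group
  have y3 := S.cube hy
  have q1 : s * y ∈ D := e1 ▸ S.conj hy x
  have q2 : s⁻¹ * y ∈ D := e2 ▸ S.conj hy x⁻¹
  have s3 : s ^ 3 = 1 := by
    have := S.cube q1
    rwa [h2.mul_pow, y3, mul_one] at this
  have c : Commute (s * y) (s⁻¹ * y) :=
    (((Commute.refl s).inv_right).mul_right h2).mul_left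
      (h2.symm.inv_right.mul_right (Commute.refl y))
  have p : s * y * (s⁻¹ * y) = y * y := by rw [h2.eq]; group
  have fin : s = 1 → Commute x y := fun h => by
    rw [h, one_mul, mul_inv_eq_iff_eq_mul] at e1
    exact e1
  have y1 : y = 1 → Commute x y := fun h => h ▸ Commute.one_right x
  have z : (ρ (s * y) - 1) * (ρ (s⁻¹ * y) - 1) = 0 := by
    have c' := congrArg ρ c.eq
    have p' := congrArg ρ p
    rw [map_mul ρ (s * y), map_mul ρ (s⁻¹ * y)] at c'
    rw [map_mul ρ (s * y), map_mul ρ y] at p'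
    exact S.of_two (ring_ab (S.quad hy) (S.quad q1) (S.quad q2) c' p')
  rcases S.star _ q1 _ q2 c z with h | h | h | h
  · refine y1 ?_
    rw [← e1] at h
    calc y = x⁻¹ * (x * y * x⁻¹) * x := by group
      _ = 1 := by rw [h]; group
  · refine y1 ?_
    rw [← e2] at h
    calc y = x * (x⁻¹ * y * x⁻¹⁻¹) * x⁻¹ := by group
      _ = 1 := by rw [h]; group
  · refine fin (eq_of_sq_cube ?_ s3)
    rw [mul_left_inj] at h
    nth_rewrite 1 [← h]
    exact inv_mul_cancel s
  · refine y1 (eq_of_sq_cube ?_ y3)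
    rw [← p, h, mul_inv_cancel]

variable [Finite L]

/-- A quadratic element `y` of a three-group `P` centralises each abelian set `A ⊆ P` that is
closed under commutators with `y`. -/
theorem qn {y : L} (hy : y ∈ D) {P : Subgroup L} (hP : IsPGroup 3 P) (yP : y ∈ P) {A : Set L}
    (hA : ∀ x ∈ A, x ∈ P) (hc : ∀ x ∈ A, x * y * x⁻¹ * y⁻¹ ∈ A)
    (ha : ∀ x ∈ A, ∀ x' ∈ A, Commute x x') {x : L} (hx : x ∈ A) : Commute x y := by
  have : Fact (Nat.Prime 3) := ⟨Nat.prime_three⟩
  obtain ⟨n, hn⟩ := hP.isNilpotent.nilpotent'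
  have : ∀ n, ∀ x : P, x ∈ Subgroup.upperCentralSeries P n → x.1 ∈ A → Commute x.1 y := by
    intro n
    induction n with
    | zero => intro x h _; rw [show x = 1 by simpa using h]; exact Commute.one_left y
    | succ n ih =>
      intro x h xA
      exact S.ab hy (ha _ (hc _ xA) _ xA) (ih _ (h ⟨y, yP⟩) (hc _ xA))
  exact this n ⟨x, hA x hx⟩ (hn ▸ trivial) hx

/-- A three-group generated by quadratic elements is abelian. -/
theorem abel {F : Set L} (hD : ∀ d ∈ F, d ∈ D) (hP : IsPGroup 3 (Subgroup.closure F)) {x y : L}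
    (hx : x ∈ Subgroup.closure F) (hy : y ∈ Subgroup.closure F) : Commute x y := by
  have : Fact (Nat.Prime 3) := ⟨Nat.prime_three⟩
  obtain ⟨n, hn⟩ := hP.isNilpotent.nilpotent'
  have : ∀ n, ∀ x : Subgroup.closure F, x ∈ Subgroup.upperCentralSeries _ n →
      ∀ y ∈ Subgroup.closure F, Commute x.1 y := by
    intro n
    induction n with
    | zero => intro x h y _; rw [show x = 1 by simpa using h]; exact Commute.one_left y
    | succ n ih =>
      intro x h y hy
      refine (Subgroup.closure_le (Subgroup.centralizer {x.1})).2 (fun d hd => ?_) hy x.1 rfl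
      have dP := Subgroup.subset_closure hd
      rintro _ rfl
      exact S.ab (hD d hd) (ih _ (h ⟨d, dP⟩) _ x.2) (ih _ (h ⟨d, dP⟩) _ dP)
  exact this n ⟨x, hx⟩ (hn ▸ trivial) y hy

/-- Two quadratic elements of a three-group commute. -/
theorem comm {P : Subgroup L} (hP : IsPGroup 3 P) {x y : L} (hx : x ∈ D) (hy : y ∈ D)
    (xP : x ∈ P) (yP : y ∈ P) : Commute x y :=
  S.abel (F := {x, y}) (by rintro _ (rfl | rfl) <;> assumption)
    (hP.to_le (by rw [Subgroup.closure_le]; rintro _ (rfl | rfl) <;> assumption))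
    (Subgroup.subset_closure (by simp)) (Subgroup.subset_closure (by simp))

end Star

end Pool.Agent.MP_a5588a_al.Full
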