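import Pool.Agent.MP_a5588a_al.Full.H5A

/-! The clean setting: centralisers, braid relations and the block lemma. -/

namespace Pool.Agent.MP_a5588a_al.Full

variable {L E : Type*} [Group L] [Ring E]

/-- Every quadratic element lies in one conjugate of `M` only, the quadratic elements of the Sylow
subgroup `T ≤ M` lie in no proper subgroup outside `M`, and the centre has no three-element. -/
structure Clean (ρ : L →* E) (D : Set L) (M : Subgroup L) (T : Sylow 3 L) : Prop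
    extends Star ρ D where
  le : (T : Subgroup L) ≤ M
  ti : ∀ d ∈ M, d ∈ D → d ≠ 1 → ∀ g, g * d * g⁻¹ ∈ M → g ∈ M
  um : ∀ K : Subgroup L, (∀ d ∈ (T : Subgroup L), d ∈ D → d ∈ K) → K = ⊤ ∨ K ≤ M
  cen : ∀ (f : L) (n : ℕ), f ^ 3 ^ n = 1 → (∀ g, Commute f g) → f = 1

/-- The braid relation. -/
def Br (d w : L) : Prop := d * w * d = w * d * w

/-- The relation of a pair that generates the special linear group over five elements. -/
def T5 (ρ : L →* E) (d w : L) : Prop :=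
  (ρ d - 1) * (ρ w - 1) * (ρ d - 1) * (ρ w - 1) * (ρ d - 1) = -(ρ d - 1)

variable {ρ : L →* E} {D : Set L} {M : Subgroup L} {T : Sylow 3 L}

theorem Br.inv {d w : L} (h : Br d w⁻¹) : Br d⁻¹ w := by
  have := congrArg (·⁻¹) h
  simpa [Br, mul_assoc] using this

theorem pg_of_comm {D : Set L} (h3 : ∀ d ∈ D, d ^ 3 = 1) (hc : ∀ d ∈ D, ∀ e ∈ D, Commute d e) :
    IsPGroup 3 (Subgroup.closure D) := by
  have c1 : ∀ x ∈ Subgroup.closure D, ∀ e ∈ D, Commute x e := fun x hx e he =>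
    ((Subgroup.closure_le (Subgroup.centralizer {e})).2
      (fun d hd => by rintro _ rfl; exact hc _ he d hd) hx e rfl).symm
  have c2 : ∀ x ∈ Subgroup.closure D, ∀ y ∈ Subgroup.closure D, Commute x y := fun x hx y hy =>
    (Subgroup.closure_le (Subgroup.centralizer {x})).2
      (fun d hd => by rintro _ rfl; exact c1 _ hx d hd) hy x rfl
  rintro ⟨x, hx⟩
  refine ⟨1, Subtype.ext ?_⟩
  change x ^ 3 ^ 1 = 1
  rw [pow_one]
  induction hx using Subgroup.closure_induction with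
  | mem x hx => exact h3 x hx
  | one => exact one_pow 3
  | mul x y hx hy a b => rw [(c2 x hx y hy).mul_pow, a, b, one_mul]
  | inv x _ a => rw [inv_pow, a, inv_one]

namespace Clean

variable [Finite L] (C : Clean ρ D M T)
include C

theorem conj_le {d : L} (dM : d ∈ M) (hd : d ∈ D) (d1 : d ≠ 1) {P : Subgroup L}
    (hP : IsPGroup 3 P) (dP : d ∈ P) : ∃ g ∈ M, ∀ x ∈ P, g * x * g⁻¹ ∈ (T : Subgroup L) := by
  have : Fact (Nat.Prime 3) := ⟨Nat.prime_three⟩
  obtain ⟨Q, hQ⟩ := hP.exists_le_sylow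
  obtain ⟨g, rfl⟩ := MulAction.exists_smul_eq L T Q
  have : ∀ x ∈ P, g⁻¹ * x * g⁻¹⁻¹ ∈ (T : Subgroup L) := fun x hx => by
    have := hQ hx
    rw [Sylow.coe_subgroup_smul, Subgroup.mem_pointwise_smul_iff_inv_smul_mem] at this
    simpa using this
  exact ⟨g⁻¹, C.ti d dM hd d1 _ (C.le (this d dP)), this⟩

theorem syl {d : L} (dM : d ∈ M) (hd : d ∈ D) (d1 : d ≠ 1) {P : Subgroup L}
    (hP : IsPGroup 3 P) (dP : d ∈ P) : P ≤ M := fun x hx => by
  obtain ⟨g, gM, hg⟩ := C.conj_le dM hd d1 hP dP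
  have := M.mul_mem (M.mul_mem (M.inv_mem gM) (C.le (hg x hx))) gM
  simpa [mul_assoc] using this

/-- Centralisers of elements of three-groups generated by quadratic elements lie in `M`. -/
theorem cf {F : Set L} (hD : ∀ d ∈ F, d ∈ D) (hP : IsPGroup 3 (Subgroup.closure F)) {d : L}
    (dD : d ∈ F) (dM : d ∈ M) (d1 : d ≠ 1) {f : L} (hf : f ∈ Subgroup.closure F) (f1 : f ≠ 1)
    {x : L} (c : Commute f x) : x ∈ M := by
  obtain ⟨g, gM, hg⟩ := C.conj_le dM (hD d dD) d1 hP (Subgroup.subset_closure dD)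
  have fV : g * f * g⁻¹ ∈ Subgroup.closure {y | y ∈ (T : Subgroup L) ∧ y ∈ D} :=
    (Subgroup.closure_le ((Subgroup.closure {y | y ∈ (T : Subgroup L) ∧ y ∈ D}).comap
      (MulAut.conj g).toMonoidHom)).2 (fun y hy => Subgroup.subset_closure
        ⟨hg y (Subgroup.subset_closure hy), C.conj (hD y hy) g⟩) hf
  rcases C.um (Subgroup.centralizer {g * f * g⁻¹}) (fun y yT hy => by
    rintro _ rfl
    exact C.toStar.abel (fun _ h => h.2) (T.isPGroup'.to_le ((Subgroup.closure_le _).2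
      fun _ h => h.1)) fV (Subgroup.subset_closure ⟨yT, hy⟩)) with h | h
  · obtain ⟨n, hn⟩ := hP ⟨f, hf⟩
    have := C.cen (g * f * g⁻¹) n (by
      rw [conj_pow, show f ^ 3 ^ n = 1 from congrArg Subtype.val hn]; group)
      fun y => (show y ∈ Subgroup.centralizer {g * f * g⁻¹} from h ▸ trivial) _ rfl
    exact (f1 (by simpa using this)).elim
  · have : g * x * g⁻¹ ∈ M := h (by
      rintro _ rfl
      calc _ = g * (f * x) * g⁻¹ := by group
        _ = _ := by rw [c.eq]; group)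
    simpa [mul_assoc] using M.mul_mem (M.mul_mem (M.inv_mem gM) this) gM

/-- Two commuting quadratic elements of `M` do not both braid with an element outside `M`. -/
theorem br {y a x : L} (yM : y ∈ M) (hy : y ∈ D) (y1 : y ≠ 1) (ha : a ∈ D) (c : Commute y a)
    (ne : y ≠ a) (b1 : Br y x) (b2 : Br a x) : x ∈ M := by
  unfold Br at b1 b2
  have y3 := C.toStar.cube hy
  have a3 := C.toStar.cube ha
  obtain ⟨w, hw⟩ : ∃ w, w = y * a⁻¹ := ⟨_, rfl⟩
  have w3 : w ^ 3 = 1 := by rw [hw, c.inv_right.mul_pow, inv_pow, y3, a3, inv_one, one_mul]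
  have w1 : w ≠ 1 := fun h => ne (mul_inv_eq_one.mp (hw ▸ h))
  obtain ⟨v, hv⟩ : ∃ v, v = x * w * x⁻¹ := ⟨_, rfl⟩
  have v3 : v ^ 3 = 1 := by rw [hv, conj_pow, w3]; group
  have cw : Commute y w := hw ▸ (Commute.refl y).mul_right c.inv_right
  have k0 : x * a⁻¹ * x⁻¹ = a⁻¹ * x⁻¹ * a := by
    calc x * a⁻¹ * x⁻¹ = a⁻¹ * x⁻¹ * (x * a * x) * a⁻¹ * x⁻¹ := by group
      _ = _ := by rw [← b2]; group
  have k1 : y * v * y⁻¹ = v * w⁻¹ := by
    calc y * v * y⁻¹ = (y * x * y) * a⁻¹ * x⁻¹ * y⁻¹ := by rw [hv, hw]; group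
      _ = x * y * (x * a⁻¹ * x⁻¹) * y⁻¹ := by rw [b1]; group
      _ = v * w⁻¹ := by rw [k0, hv, hw]; group
  have k2 : y * (y * v * y⁻¹) * y⁻¹ = v * w := by
    have : w⁻¹ * w⁻¹ = w := by
      rw [← mul_inv_rev, inv_eq_iff_mul_eq_one, ← w3]; simp only [pow_succ, pow_zero, one_mul]
    calc y * (y * v * y⁻¹) * y⁻¹ = y * (v * w⁻¹) * y⁻¹ := by rw [k1]
      _ = y * v * y⁻¹ * (y * w⁻¹ * y⁻¹) := by group
      _ = v * w := by rw [k1, cw.inv_right.eq, mul_inv_cancel_right, mul_assoc, this]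
  obtain ⟨u1, u2, u3⟩ := burnside23_H5 w3 v3 (by rw [← k2, conj_pow, conj_pow, v3]; group)
    (by rw [← k1, conj_pow, v3]; group)
  obtain ⟨u, hu⟩ : ∃ u, u = v * w⁻¹ * (v⁻¹ * w) := ⟨_, rfl⟩
  rw [← hu] at u1 u2 u3
  have uy : Commute u y := by
    have : y * u * y⁻¹ = u := by
      calc y * u * y⁻¹ = (y * v * y⁻¹) * (y * w * y⁻¹)⁻¹ * ((y * v * y⁻¹)⁻¹ * (y * w * y⁻¹)) := by
            rw [hu]; group
        _ = u := by rw [k1, cw.eq, mul_inv_cancel_right, hu]; group
    exact (mul_inv_eq_iff_eq_mul.1 this).symm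
  have e1 : v * y * v⁻¹ = y * w * u⁻¹ := by
    have : y * (y * v * y⁻¹) * y⁻¹ = y⁻¹ * v * y := by
      calc _ = y⁻¹ * y ^ 3 * v * (y ^ 3)⁻¹ * y := by simp [pow_succ, mul_assoc]
        _ = _ := by rw [y3]; group
    calc v * y * v⁻¹ = y * (y⁻¹ * v * y) * v⁻¹ := by group
      _ = _ := by rw [← this, k2, hu]; group
  by_cases h : u = 1
  · have e2 : v * y * v⁻¹ * y⁻¹ = w := by rw [e1, h, cw.eq]; group
    have c2 : Commute w v := by
      show w * v = v * w
      calc w * v = w * u * w⁻¹ * (v * w) := by rw [hu]; group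
        _ = v * w := by rw [h]; group
    have := C.toStar.ab hy (e2 ▸ c2) (e2 ▸ cw.symm)
    rw [this.eq, mul_inv_cancel_right, mul_inv_cancel] at e2
    exact (w1 e2.symm).elim
  have ea : a = w⁻¹ * y := by rw [hw]; group
  have x3 : x ^ 3 = 1 := by
    have : x = (y * x) * y * (y * x)⁻¹ := by rw [b1]; group
    rw [this, conj_pow, y3]; group
  have e3 : x * v * x⁻¹ = w * v⁻¹ * w := by
    have i1 : x⁻¹ * y * x = y * x * y⁻¹ := by
      calc _ = x⁻¹ * (y * x * y) * y⁻¹ := by group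
        _ = _ := by rw [b1]; group
    have i2 : x⁻¹ * a⁻¹ * x = a * x⁻¹ * a⁻¹ := by
      calc _ = a * (x * a * x)⁻¹ * x := by rw [← b2]; group
        _ = _ := by group
    calc x * v * x⁻¹ = x⁻¹ * x ^ 3 * w * (x ^ 3)⁻¹ * x := by rw [hv]; simp [pow_succ, mul_assoc]
      _ = (x⁻¹ * y * x) * (x⁻¹ * a⁻¹ * x) := by rw [x3, hw]; group
      _ = y * x * (y⁻¹ * a) * x⁻¹ * a⁻¹ := by rw [i1, i2]; group
      _ = (y * v * y⁻¹)⁻¹ * (y * a⁻¹) := by rw [c.inv_left.eq, hv, hw]; group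
      _ = _ := by rw [k1, ← hw]; group
  have e4 : v⁻¹ * w * v = u * w := by
    calc v⁻¹ * w * v = v⁻¹ * w * (v * w⁻¹ * (v⁻¹ * w)) * w⁻¹ * v * w := by group
      _ = v⁻¹ * (w * u * w⁻¹) * v * w := by rw [← hu]; group
      _ = u * w := by rw [← u1.eq, mul_inv_cancel_right, mul_assoc v⁻¹, u2.eq]; group
  have cx : Commute u x := by
    have : x * u⁻¹ * x⁻¹ = u⁻¹ := by
      calc x * u⁻¹ * x⁻¹ = (x * w * x⁻¹)⁻¹ * (x * v * x⁻¹) * (x * w * x⁻¹) * (x * v * x⁻¹)⁻¹ := by
            rw [hu]; group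
        _ = v⁻¹ * w * (v⁻¹ * w * v) * w⁻¹ * v * w⁻¹ := by rw [← hv, e3]; group
        _ = v⁻¹ * (w * u) * v * w⁻¹ := by rw [e4]; group
        _ = v⁻¹ * u * v * (v⁻¹ * w * v) * w⁻¹ := by rw [← u1.eq]; group
        _ = u⁻¹ * u ^ 3 := by rw [e4, mul_assoc v⁻¹, u2.eq]; simp [pow_succ, mul_assoc]
        _ = u⁻¹ := by rw [u3, mul_one]
    exact Commute.inv_left_iff.1 (mul_inv_eq_iff_eq_mul.1 this).symm
  have q : ∀ d ∈ ({y, a, v * y * v⁻¹} : Set L), d ∈ D := by
    rintro _ (rfl | rfl | rfl)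
    exacts [hy, ha, C.conj hy v]
  have ua : Commute u a := ea ▸ u1.inv_right.mul_right uy
  have c1 : Commute y (v * y * v⁻¹) :=
    e1 ▸ ((Commute.refl y).mul_right cw).mul_right uy.symm.inv_right
  have c2 : Commute a (v * y * v⁻¹) := by
    rw [e1, hw]
    exact (c.symm.mul_right (c.symm.mul_right (Commute.refl a).inv_right)).mul_right
      ua.symm.inv_right
  refine C.cf q (pg_of_comm (fun d hd => C.toStar.cube (q d hd)) ?_) (Set.mem_insert _ _) yM y1
    (f := u) ?_ h cx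
  · rintro _ (rfl | rfl | rfl) _ (rfl | rfl | rfl)
    exacts [.refl _, c, c1, c.symm, .refl _, c2, c1.symm, c2.symm, .refl _]
  · have : u = (v * y * v⁻¹)⁻¹ * y * (y * a⁻¹) := by rw [e1, ← hw]; group
    rw [this]
    refine mul_mem (mul_mem (inv_mem ?_) ?_) (mul_mem ?_ (inv_mem ?_)) <;>
      exact Subgroup.subset_closure (by simp)

end Clean

theorem ring_gen {a b : E} (ha : a * a = 0) (h : a * b * a * b * a = -a) :
    let p := (1 + b) * a * (1 - b)
    let c := (1 + p) * a * (1 - p)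
    a * c * a = -a ∧ ((1 - p) * (1 + p) = 1 → c * a * c = -c) := by
  intro p c
  have e : a * p * a = a := by
    simp only [p]
    linear_combination (norm := noncomm_ring) ha * (1 - b) * a + a * b * ha - h
  have e1 : a * (1 + p) * a = a := by linear_combination (norm := noncomm_ring) ha + e
  have e2 : a * (1 - p) * a = -a := by linear_combination (norm := noncomm_ring) ha - e
  refine ⟨?_, fun _ => ?_⟩
  · calc a * c * a = a * (1 + p) * a * (1 - p) * a := by simp only [c]; noncomm_ring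
      _ = -a := by rw [e1, e2]
  · calc c * a * c = (1 + p) * (a * (1 - p) * a) * (1 + p) * a * (1 - p) := by
          simp only [c]; noncomm_ring
      _ = -((1 + p) * (a * (1 + p) * a) * (1 - p)) := by rw [e2]; noncomm_ring
      _ = -c := by rw [e1]

/-- A pair with the relation `T5` yields a generic braid partner. -/
theorem T5.gen {d w : L} (hd : Qd ρ d) (hw : Qd ρ w) (h : T5 ρ d w) :
    (ρ d - 1) * (ρ ((w * d * w⁻¹) * d * (w * d * w⁻¹)⁻¹) - 1) * (ρ d - 1) = -(ρ d - 1) ∧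
    (ρ ((w * d * w⁻¹) * d * (w * d * w⁻¹)⁻¹) - 1) * (ρ d - 1) *
      (ρ ((w * d * w⁻¹) * d * (w * d * w⁻¹)⁻¹) - 1) =
      -(ρ ((w * d * w⁻¹) * d * (w * d * w⁻¹)⁻¹) - 1) := by
  have e1 : ρ (w * d * w⁻¹) = 1 + (1 + (ρ w - 1)) * (ρ d - 1) * (1 - (ρ w - 1)) := by
    have := conj_sub_H5 ρ w d
    have h2 := hw.inv_sub
    linear_combination (norm := noncomm_ring) this + ρ w * (ρ d - 1) * h2
  have e2 : ρ (w * d * w⁻¹)⁻¹ = 1 - (1 + (ρ w - 1)) * (ρ d - 1) * (1 - (ρ w - 1)) := by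
    have := (hd.conj w).inv_sub
    linear_combination (norm := noncomm_ring) this - e1
  have := ring_gen hd h
  rw [conj_sub_H5]
  simp only [← e1, ← e2] at this
  exact ⟨this.1, this.2 (inv_ap ρ _)⟩

theorem Star.br (S : Star ρ D) {d w : L} (hd : Qd ρ d) (hw : Qd ρ w)
    (h1 : (ρ d - 1) * (ρ w - 1) * (ρ d - 1) = -(ρ d - 1))
    (h2 : (ρ w - 1) * (ρ d - 1) * (ρ w - 1) = -(ρ w - 1)) : Br d w := S.inj (by
  unfold Qd at hd hw
  simp only [map_mul]
  linear_combination (norm := noncomm_ring) h1 - h2 + hd - hw)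

/-- The block lemma: the two-sided ideal generated by `a * e` has square zero. -/
theorem ring_bl {a b e : E} (ha : a * a = 0) (hb : b * b = 0) (he : e * e = 0) (c : a * e = e * a)
    (h1 : a * b * a = -a) (h2 : b * a * b = -b) (h3 : e * b * e * b * e = -e) :
    ∃ S : AddSubgroup E, a * e ∈ S ∧ (∀ s ∈ S, a * s ∈ S ∧ b * s ∈ S ∧ e * s ∈ S) ∧
      ∀ s ∈ S, a * e * s = 0 := by
  obtain ⟨n, hn⟩ : ∃ n, n = a * e := ⟨_, rfl⟩
  have an : a * n = 0 := by rw [hn, ← mul_assoc, ha, zero_mul]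
  have en : e * n = 0 := by rw [hn, c, ← mul_assoc, he, zero_mul]
  have abn : a * (b * n) = -n := by rw [hn]; linear_combination (norm := noncomm_ring) h1 * e
  have aebn : a * (e * (b * n)) = 0 := by
    rw [← mul_assoc, c, mul_assoc, abn, mul_neg, en, neg_zero]
  have e4 : e * (b * (e * (b * n))) = -n := by
    rw [hn, c]; linear_combination (norm := noncomm_ring) h3 * a
  have e5 : e * (a * (b * (e * (b * n)))) = 0 := by
    rw [← mul_assoc, ← c, mul_assoc, e4, mul_neg, an, neg_zero]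
  have b5 : b * (a * (b * (e * (b * n)))) = -(b * (e * (b * n))) := by
    linear_combination (norm := noncomm_ring) h2 * e * b * n
  have aa : ∀ s, a * (a * s) = 0 := fun s => by rw [← mul_assoc, ha, zero_mul]
  have bb : ∀ s, b * (b * s) = 0 := fun s => by rw [← mul_assoc, hb, zero_mul]
  have ee : ∀ s, e * (e * s) = 0 := fun s => by rw [← mul_assoc, he, zero_mul]
  let D : Set E := {n, b * n, e * (b * n), b * (e * (b * n)), a * (b * (e * (b * n)))}
  have m : ∀ s ∈ D, s ∈ AddSubgroup.closure D := fun s => AddSubgroup.subset_closure (k := D) (a := s)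
  refine ⟨AddSubgroup.closure D, hn ▸ m _ (by simp [D]), fun s hs => ?_, fun s hs => ?_⟩
  · induction hs using AddSubgroup.closure_induction with
    | mem s hs =>
      rcases hs with rfl | rfl | rfl | rfl | rfl <;>
        simp only [an, en, abn, aebn, e4, e5, b5, aa, bb, ee, zero_mem, neg_mem_iff, true_and,
          and_true]
      exacts [m _ (by simp [D]), ⟨m _ (by simp [D]), m _ (by simp [D])⟩, m _ (by simp [D]),
        ⟨m _ (by simp [D]), m _ (by simp [D])⟩, m _ (by simp [D])]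
    | zero => simp
    | add x y _ _ p q =>
      simp only [mul_add]
      exact ⟨add_mem p.1 q.1, add_mem p.2.1 q.2.1, add_mem p.2.2 q.2.2⟩
    | neg x _ p => simpa using p
  · induction hs using AddSubgroup.closure_induction with
    | mem s hs =>
      rcases hs with rfl | rfl | rfl | rfl | rfl
      · rw [mul_assoc, en, mul_zero]
      · rw [mul_assoc, aebn]
      · rw [mul_assoc, ee, mul_zero]
      · rw [mul_assoc, e4, mul_neg, an, neg_zero]
      · rw [mul_assoc, e5, mul_zero]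
    | zero => simp
    | add x y _ _ p q => rw [mul_add, p, q, add_zero]
    | neg x _ p => rw [mul_neg, p, neg_zero]

end Pool.Agent.MP_a5588a_al.Full
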