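import Mathlib

/-! Braid relations against a strongly 3-embedded subgroup. -/

namespace Pool.Agent.MP_a5588a_al.Full

variable {G : Type*} [Group G]

/-- If `a, b, b a, b a⁻¹` have order dividing three, the element `u = (b a⁻¹) (b⁻¹ a)` commutes
with `a` and `b` and has order dividing three. -/
theorem burnside23_H5 {a b : G} (ha : a ^ 3 = 1) (hb : b ^ 3 = 1) (h1 : (b * a) ^ 3 = 1)
    (h2 : (b * a⁻¹) ^ 3 = 1) :
    Commute (b * a⁻¹ * (b⁻¹ * a)) a ∧ Commute (b * a⁻¹ * (b⁻¹ * a)) b ∧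
      (b * a⁻¹ * (b⁻¹ * a)) ^ 3 = 1 := by
  have iv : ∀ x : G, x ^ 3 = 1 → x⁻¹ = x * x := fun x hx => by
    rw [inv_eq_iff_mul_eq_one, ← hx]; simp only [pow_succ, pow_zero, one_mul, mul_assoc]
  have e1 : a * b * a = b⁻¹ * a⁻¹ * b⁻¹ := by
    calc a * b * a = b⁻¹ * (b * a) ^ 3 * a⁻¹ * b⁻¹ := by simp only [pow_succ]; group
      _ = _ := by rw [h1]; group
  obtain ⟨p, hp⟩ : ∃ p, p = a * b⁻¹ := ⟨_, rfl⟩
  obtain ⟨q, hq⟩ : ∃ q, q = b⁻¹ * a := ⟨_, rfl⟩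
  have c1 : Commute p q := by
    show p * q = q * p
    calc p * q = a * (b * b)⁻¹ * a := by rw [hp, hq]; group
      _ = a * b * a := by rw [← iv b hb, inv_inv]
      _ = b⁻¹ * (a * a) * b⁻¹ := by rw [e1, iv a ha]
      _ = q * p := by rw [hp, hq]; group
  have p3 : p ^ 3 = 1 := by
    rw [hp, ← inv_eq_one, ← inv_pow, mul_inv_rev, inv_inv, h2]
  have qp : q = a⁻¹ * p * a := by rw [hp, hq]; group
  have q3 : q ^ 3 = 1 := by
    have : q = a⁻¹ * p * a⁻¹⁻¹ := by rw [qp, inv_inv]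
    rw [this, conj_pow, p3]; group
  have u : b * a⁻¹ * (b⁻¹ * a) = p⁻¹ * q := by rw [hp, hq]; group
  have pr : p * q * (a⁻¹ * q * a) = 1 := by
    calc p * q * (a⁻¹ * q * a) = a * (b ^ 3)⁻¹ * a * a := by
          rw [hp, hq]; simp only [pow_succ]; group
      _ = 1 := by rw [hb, inv_one, mul_one, ← ha]; simp only [pow_succ, pow_zero, one_mul]
  have ca : Commute (p⁻¹ * q) a := by
    have r : a⁻¹ * q * a = q⁻¹ * p⁻¹ := by
      rw [← mul_inv_rev]; exact eq_inv_of_mul_eq_one_right pr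
    show p⁻¹ * q * a = a * (p⁻¹ * q)
    calc p⁻¹ * q * a = a * ((a⁻¹ * p * a)⁻¹ * (a⁻¹ * q * a)) := by group
      _ = a * ((q * q)⁻¹ * p⁻¹) := by rw [← qp, r]; group
      _ = a * (p⁻¹ * q) := by rw [← iv q q3, inv_inv, c1.inv_left.eq]
  have cp : Commute (p⁻¹ * q) p := ((Commute.refl p).inv_left).mul_left c1.symm
  rw [u]
  refine ⟨ca, ?_, ?_⟩
  · have : b = p⁻¹ * a := by rw [hp]; group
    rw [this]
    exact cp.inv_right.mul_right ca
  · rw [c1.inv_left.mul_pow, inv_pow, p3, q3, inv_one, one_mul]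

/-- `M` is strongly 3-embedded in the elementwise sense; two different commuting elements of `M`
of order dividing three cannot both satisfy the braid relation with an element outside `M`. -/
theorem braid_H5 (M : Subgroup G)
    (se : ∀ x ∈ M, x ^ 3 = 1 → ∀ g, g * x * g⁻¹ ∈ M → x = 1 ∨ g ∈ M) {y a x : G} (hy : y ∈ M)
    (ha : a ∈ M) (y3 : y ^ 3 = 1) (a3 : a ^ 3 = 1) (c : Commute y a) (ne : y ≠ a)
    (b1 : y * x * y = x * y * x) (b2 : a * x * a = x * a * x) : x ∈ M := by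
  obtain ⟨w, hw⟩ : ∃ w, w = y * a⁻¹ := ⟨_, rfl⟩
  have wM : w ∈ M := hw ▸ M.mul_mem hy (M.inv_mem ha)
  have w3 : w ^ 3 = 1 := by rw [hw, c.inv_right.mul_pow, inv_pow, y3, a3, inv_one, one_mul]
  have w1 : w ≠ 1 := fun h => ne (mul_inv_eq_one.mp (hw ▸ h))
  obtain ⟨v, hv⟩ : ∃ v, v = x * w * x⁻¹ := ⟨_, rfl⟩
  have v3 : v ^ 3 = 1 := by rw [hv, conj_pow, w3]; group
  have cw : Commute y w := hw ▸ (Commute.refl y).mul_right c.inv_right
  have k0 : x * a⁻¹ * x⁻¹ = a⁻¹ * x⁻¹ * a := by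
    calc x * a⁻¹ * x⁻¹ = a⁻¹ * x⁻¹ * (x * a * x) * a⁻¹ * x⁻¹ := by group
      _ = _ := by rw [← b2]; group
  have k1 : y * v * y⁻¹ = v * w⁻¹ := by
    calc y * v * y⁻¹ = (y * x * y) * a⁻¹ * x⁻¹ * y⁻¹ := by rw [hv, hw]; group
      _ = x * y * (x * a⁻¹ * x⁻¹) * y⁻¹ := by rw [b1]; group
      _ = v * w⁻¹ := by rw [k0, hv, hw]; group
  have k2 : y * (y * v * y⁻¹) * y⁻¹ = v * w := by
    have : w⁻¹ * w⁻¹ = w := by
      rw [← mul_inv_rev, inv_eq_iff_mul_eq_one, ← w3]; simp only [pow_succ, pow_zero, one_mul]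
    calc y * (y * v * y⁻¹) * y⁻¹ = y * (v * w⁻¹) * y⁻¹ := by rw [k1]
      _ = y * v * y⁻¹ * (y * w⁻¹ * y⁻¹) := by group
      _ = v * w := by rw [k1, cw.inv_right.eq, mul_inv_cancel_right, mul_assoc, this]
  obtain ⟨u1, u2, u3⟩ := burnside23_H5 w3 v3 (by rw [← k2, conj_pow, conj_pow, v3]; group)
    (by rw [← k1, conj_pow, v3]; group)
  have cen : ∀ s ∈ M, s ^ 3 = 1 → s ≠ 1 → ∀ g, Commute s g → g ∈ M := fun s hs s3 s1 g hg =>
    (se s hs s3 g (by rwa [← hg.eq, mul_inv_cancel_right])).resolve_left s1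
  have vM : v ∈ M := by
    by_cases h : v * w⁻¹ * (v⁻¹ * w) = 1
    · refine cen w wM w3 w1 v ?_
      show w * v = v * w
      calc w * v = w * (v * w⁻¹ * (v⁻¹ * w)) * w⁻¹ * (v * w) := by group
        _ = v * w := by rw [h]; group
    · exact cen _ (cen w wM w3 w1 _ u1.symm) u3 h v u2
  exact (se w wM w3 x (hv ▸ vM)).resolve_left w1

end Pool.Agent.MP_a5588a_al.Full
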