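import Pool.Agent.MP_a5588a_al.Full.H5Q

/-! In the clean setting the quadratic elements of a Sylow subgroup generate a group of order
three. -/

namespace Pool.Agent.MP_a5588a_al.Full

theorem ring_five {E : Type*} [Ring E] {e b : E} (h3 : (3 : E) = 0) (he : e * e = 0)
    (hb : b * b = 0) (h : e * b * e * b * e = -e) :
    ((1 + e) * (1 + b)) ^ 5 * (1 + e) = (1 + e) * ((1 + e) * (1 + b)) ^ 5 := by
  obtain ⟨g, hg⟩ : ∃ g, g = (1 + e) * (1 + b) := ⟨_, rfl⟩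
  have l2 : g * (g * e) = b * (e * (b * e)) - b * e := by
    rw [hg]
    linear_combination (norm := noncomm_ring) he + (1 + e) * (1 + b) * he + he * (b * e) +
      (1 + e) * hb * e + h + h3 * (b * e + e * b * e)
  have l4 : g * (g * (b * (e * (b * e)) - b * e)) = b * e - e := by
    have a : g * (b * (e * (b * e)) - b * e) = b * (e * (b * e)) - e - b * e - e * (b * e) := by
      rw [hg]
      linear_combination (norm := noncomm_ring) (1 + e) * hb * (e * b * e - e) + h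
    rw [a, hg]
    linear_combination (norm := noncomm_ring) (1 + e) * hb * (e * b * e - e) - he - he * (b * e) -
      h3 * (b * e + e * b * e)
  have l5 : g * (b * e - e) = -e := by
    rw [hg]
    linear_combination (norm := noncomm_ring) (1 + e) * hb * e - he
  have r2 : e * g * g = e - e * b + e * b * e + e * b * e * b := by
    rw [hg]
    linear_combination (norm := noncomm_ring) he * (1 + b) * (1 + e) * (1 + b) + he * (1 + b) +
      e * hb + h3 * (e * b)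
  have r3 : (e - e * b + e * b * e + e * b * e * b) * g = e * b * e * b - e * b := by
    rw [hg]
    linear_combination (norm := noncomm_ring) he * (1 + b) + e * b * he * (1 + b) + h * (1 + b) -
      e * hb + e * b * e * hb
  have r4 : (e * b * e * b - e * b) * g = e * b - e - e * b * e := by
    rw [hg]
    linear_combination (norm := noncomm_ring) h * (1 + b) - e * hb + e * b * e * hb - h3 * (e * b)
  have r5 : (e * b - e - e * b * e) * g = -e := by
    rw [hg]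
    linear_combination (norm := noncomm_ring) e * hb - he * (1 + b) - e * b * he * (1 + b)
  rw [← hg]
  have p : g ^ 5 = g * g * g * g * g := by simp [pow_succ]
  have l : g ^ 5 * e = -e := by rw [p]; simp only [mul_assoc]; rw [l2, l4, l5]
  have r : e * g ^ 5 = -e := by rw [p]; simp only [← mul_assoc]; rw [r2, r3, r4, r5]
  rw [mul_add, add_mul, l, r, mul_one, one_mul]

variable {L E V : Type*} [Group L] [Ring E] [AddCommGroup V]

theorem T5.inv {ρ : L →* E} {d w : L} (hd : Qd ρ d) (h : T5 ρ d w) : T5 ρ d⁻¹ w := by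
  unfold T5 at *
  rw [hd.inv_sub]
  linear_combination (norm := noncomm_ring) -h

theorem T5.five {ρ : L →* E} {D : Set L} (S : Star ρ D) {d w : L} (hd : Qd ρ d) (hw : Qd ρ w)
    (h : T5 ρ d w) :
    Commute ((d * w) ^ 5) d := S.inj (by
  simpa using ring_five S.three hd hw h)

theorem eq_of_br {G : Type*} [Group G] {d w : G} (b : Br d w) (c : Commute ((d * w) ^ 5) d) :
    d = w := by
  unfold Br at b
  have c3 : Commute ((d * w) ^ 3) d := by
    show _ * d = d * _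
    calc _ = d * (w * d * w) * (d * w * d) := by simp [pow_succ, mul_assoc]
      _ = d * (d * w * d) * (w * d * w) := by rw [b]
      _ = _ := by simp [pow_succ, mul_assoc]
  have c1 : Commute (d * w) d := by
    have := (c3.mul_left c3).mul_left c.inv_left
    rwa [← pow_add, show 3 + 3 = 1 + 5 from rfl, pow_add, pow_one, mul_inv_cancel_right] at this
  have c2 : w * d = d * w := mul_left_cancel (a := d) (by rw [← mul_assoc]; exact c1)
  rw [c2] at b
  exact mul_left_cancel b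

theorem mem_pair {d e f : L} (c : Commute d e) (d3 : d ^ 3 = 1) (e3 : e ^ 3 = 1) {R : Subgroup L}
    (hf : f ∈ Subgroup.closure {d, e}) (fR : f ∈ R) (f1 : f ≠ 1) :
    d ∈ R ∨ e ∈ R ∨ d * e ∈ R ∨ d * e⁻¹ ∈ R := by
  obtain ⟨i, j, rfl⟩ : ∃ i j : ℤ, f = d ^ i * e ^ j := by
    clear fR f1
    induction hf using Subgroup.closure_induction with
    | mem x hx => rcases hx with rfl | rfl; exacts [⟨1, 0, by simp⟩, ⟨0, 1, by simp⟩]
    | one => exact ⟨0, 0, by simp⟩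
    | mul x y _ _ a b =>
      obtain ⟨i, j, rfl⟩ := a
      obtain ⟨k, l, rfl⟩ := b
      exact ⟨i + k, j + l, by rw [(c.symm.zpow_zpow j k).mul_mul_mul_comm, zpow_add, zpow_add]⟩
    | inv x _ a =>
      obtain ⟨i, j, rfl⟩ := a
      exact ⟨-i, -j, by rw [(c.zpow_zpow i j).eq, mul_inv_rev, zpow_neg, zpow_neg]⟩
  have r : ∀ x : L, x ^ 3 = 1 → ∀ i : ℤ, x ^ i = 1 ∨ x ^ i = x ∨ x ^ i = x⁻¹ := fun x h i => by
    obtain ⟨k, rfl | rfl | rfl⟩ : ∃ k, i = 3 * k ∨ i = 3 * k + 1 ∨ i = 3 * k - 1 :=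
      ⟨(i + 1) / 3, by omega⟩ <;>
    have : x ^ (3 * k) = 1 := by rw [zpow_mul, zpow_ofNat, h, one_zpow]
    · exact .inl this
    · exact .inr (.inl (by rw [zpow_add_one, this, one_mul]))
    · exact .inr (.inr (by rw [zpow_sub_one, this, one_mul]))
  have i1 : (d⁻¹ * e)⁻¹ = d * e⁻¹ := by rw [mul_inv_rev, inv_inv, c.inv_right.eq]
  have i2 : (d⁻¹ * e⁻¹)⁻¹ = d * e := by rw [mul_inv_rev, inv_inv, inv_inv, c.eq]
  rcases r d d3 i with a | a | a <;> rcases r e e3 j with b | b | b <;> rw [a, b] at fR f1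
  · exact (f1 (one_mul 1)).elim
  · exact .inr (.inl (by simpa using fR))
  · exact .inr (.inl (by simpa using fR))
  · exact .inl (by simpa using fR)
  · exact .inr (.inr (.inl fR))
  · exact .inr (.inr (.inr fR))
  · exact .inl (by simpa using fR)
  · exact .inr (.inr (.inr (i1 ▸ R.inv_mem fR)))
  · exact .inr (.inr (.inl (i2 ▸ R.inv_mem fR)))

/-- In a semisimple module an endomorphism `n` that keeps invariant subgroups and satisfies
`n g n = 0` for all `g` vanishes. -/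
theorem semiprime {ρ : L →* AddMonoid.End V}
    (ss : ∀ W : AddSubgroup V, (∀ g, ∀ v ∈ W, ρ g v ∈ W) →
      ∃ W' : AddSubgroup V, (∀ g, ∀ v ∈ W', ρ g v ∈ W') ∧ IsCompl W W') {d e : L}
    (h : ∀ g, (ρ d - 1) * (ρ e - 1) * ρ g * ((ρ d - 1) * (ρ e - 1)) = 0) :
    (ρ d - 1) * (ρ e - 1) = 0 := by
  obtain ⟨n, hn⟩ : ∃ n, n = (ρ d - 1) * (ρ e - 1) := ⟨_, rfl⟩
  rw [← hn] at h ⊢
  let W : AddSubgroup V :=
    { carrier := {v | ∀ g, n (ρ g v) = 0}
      add_mem' := fun a b g => by rw [map_add, map_add, a, b, add_zero]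
      zero_mem' := fun g => by rw [map_zero, map_zero]
      neg_mem' := fun a g => by rw [map_neg, map_neg, a, neg_zero] }
  obtain ⟨W', hW', c⟩ := ss W fun g v hv g' => by rw [← mul_ap]; exact hv _
  refine AddMonoidHom.ext fun v => ?_
  obtain ⟨x, hx, y, hy, rfl⟩ := AddSubgroup.mem_sup.1 (c.sup_eq_top ▸ AddSubgroup.mem_top v)
  have h1 : n x = 0 := by simpa using hx 1
  have h2 : n y ∈ W' := by
    have := W'.sub_mem (hW' e y hy) hy
    rw [hn]
    exact W'.sub_mem (hW' d _ this) this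
  have h3 : n y = 0 := AddSubgroup.disjoint_def.1 c.disjoint
    (fun g => DFunLike.congr_fun (h g) y) h2
  change n (x + y) = 0
  rw [map_add, h1, h3, add_zero]

variable {ρ : L →* AddMonoid.End V} {D : Set L} {M : Subgroup L} {T : Sylow 3 L} [Finite L]
  [Finite V]

namespace Clean

variable (C : Clean ρ D M T)
include C

theorem pair {d w : L} (dM : d ∈ M) (hd : d ∈ D) (d1 : d ≠ 1) (hw : w ∈ D) (wM : w ∉ M) :
    Br d w ∨ Br d⁻¹ w ∨ T5 ρ d w := by
  refine (C.toStar.pair hd hw d1 (fun e he c g c' => or_iff_not_imp_left.2 fun h => ?_)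
    wM).imp_right (Or.imp_left Br.inv)
  have q : ∀ x ∈ ({d, e} : Set L), x ∈ D := by rintro _ (rfl | rfl) <;> assumption
  refine C.cf q (pg_of_comm (fun x hx => C.toStar.cube (q x hx)) ?_) (Set.mem_insert _ _) dM d1
    (mul_mem (Subgroup.subset_closure (by simp)) (Subgroup.subset_closure (by simp))) h c'
  rintro _ (rfl | rfl) _ (rfl | rfl)
  exacts [.refl _, c, c.symm, .refl _]

omit [Finite L] [Finite V] in
theorem gen {d w : L} (dM : d ∈ M) (hd : d ∈ D) (d1 : d ≠ 1) (hw : w ∈ D) (wM : w ∉ M)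
    (h : T5 ρ d w) : ∃ v ∈ D, v ∉ M ∧ v ∈ Subgroup.closure {d, w} ∧ Br d v ∧
      (ρ d - 1) * (ρ v - 1) * (ρ d - 1) = -(ρ d - 1) ∧
      (ρ v - 1) * (ρ d - 1) * (ρ v - 1) = -(ρ v - 1) := by
  obtain ⟨g1, g2⟩ := h.gen (C.quad hd) (C.quad hw)
  have q := C.conj hd (w * d * w⁻¹)
  have a : d ∈ Subgroup.closure {d, w} := Subgroup.subset_closure (by simp)
  have b : w ∈ Subgroup.closure {d, w} := Subgroup.subset_closure (by simp)
  have := mul_mem (mul_mem b a) (inv_mem b)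
  exact ⟨_, q, fun a => wM (C.ti d dM hd d1 _ (C.ti d dM hd d1 _ a)),
    mul_mem (mul_mem this a) (inv_mem this), C.toStar.br (C.quad hd) (C.quad q) g1 g2, g1, g2⟩

/-- Each element of `D ∩ M` has a braid partner in `D` outside `M`. -/
theorem partner {H : Subgroup L} (HM : ¬ H ≤ M) {d : L} (dH : d ∈ H) (dM : d ∈ M) (hd : d ∈ D)
    (d1 : d ≠ 1) : ∃ v ∈ D, v ∈ H ∧ v ∉ M ∧ Br d v := by
  obtain ⟨g, gH, gM⟩ := SetLike.not_le_iff_exists.1 HM
  have wH := H.mul_mem (H.mul_mem gH dH) (H.inv_mem gH)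
  have wM := fun a => gM (C.ti d dM hd d1 g a)
  rcases C.pair dM hd d1 (C.conj hd g) wM with a | a | a
  · exact ⟨_, C.conj hd g, wH, wM, a⟩
  · exact ⟨_, C.inv (C.conj hd g), H.inv_mem wH, fun b => wM (M.inv_mem_iff.1 b),
      by simpa using Br.inv (d := d⁻¹) (w := (g * d * g⁻¹)⁻¹) (by rwa [inv_inv])⟩
  · obtain ⟨v, a, b, c, e, -⟩ := C.gen dM hd d1 (C.conj hd g) wM a
    exact ⟨v, a, (Subgroup.closure_le H).2 (by rintro _ (rfl | rfl) <;> assumption) c, b, e⟩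

theorem five {d e w : L} (dM : d ∈ M) (hd : d ∈ D) (d1 : d ≠ 1)
    (eM : e ∈ M) (he : e ∈ D) (e1 : e ≠ 1) (c : Commute d e) (n1 : e ≠ d) (n2 : e ≠ d⁻¹)
    (hw : w ∈ D) (wM : w ∉ M) : T5 ρ d w ∨ T5 ρ e w := by
  have n3 : d ≠ e⁻¹ := fun h => n2 (by rw [h, inv_inv])
  rcases C.pair dM hd d1 hw wM with a | a | a
  · rcases C.pair eM he e1 hw wM with b | b | b
    · exact (wM (C.br dM hd d1 he c n1.symm a b)).elim
    · exact (wM (C.br dM hd d1 (C.inv he) c.inv_right n3 a b)).elim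
    · exact .inr b
  · rcases C.pair eM he e1 hw wM with b | b | b
    · exact (wM (C.br eM he e1 (C.inv hd) c.symm.inv_right n2 b a)).elim
    · exact (wM (C.br (M.inv_mem dM) (C.inv hd) (inv_ne_one.2 d1) (C.inv he) c.inv_inv
        (fun h => n1 (inv_injective h).symm) a b)).elim
    · exact .inr b
  · exact .inl a

theorem block {d e w : L} (dM : d ∈ M) (hd : d ∈ D) (d1 : d ≠ 1) (eM : e ∈ M) (he : e ∈ D)
    (e1 : e ≠ 1) (c : Commute d e) (n1 : e ≠ d) (n2 : e ≠ d⁻¹) (hw : w ∈ D) (wM : w ∉ M)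
    (h : T5 ρ d w) : ∃ v ∈ D, v ∉ M ∧ v ∈ Subgroup.closure {d, w} ∧ Br d v ∧ T5 ρ e v ∧
      ∀ g ∈ Subgroup.closure {d, e, v},
        (ρ d - 1) * (ρ e - 1) * ρ g * ((ρ d - 1) * (ρ e - 1)) = 0 := by
  obtain ⟨v, q, vM, vH, b, g1, g2⟩ := C.gen dM hd d1 hw wM h
  have n3 : d ≠ e⁻¹ := fun h => n2 (by rw [h, inv_inv])
  have t5 : T5 ρ e v := by
    rcases C.pair eM he e1 q vM with a | a | a
    · exact (vM (C.br dM hd d1 he c n1.symm b a)).elim
    · exact (vM (C.br dM hd d1 (C.inv he) c.inv_right n3 b a)).elim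
    · exact a
  refine ⟨v, q, vM, vH, b, t5, fun g hg => ?_⟩
  obtain ⟨S, nS, hS, z⟩ := ring_bl (C.quad hd) (C.quad q) (C.quad he) (by
    have := congrArg ρ c.eq
    rw [map_mul, map_mul] at this
    linear_combination (norm := noncomm_ring) this) g1 g2 t5
  have k : ∀ x ∈ ({d, e, v} : Set L), Qd ρ x ∧ ∀ s ∈ S, (ρ x - 1) * s ∈ S := by
    rintro _ (rfl | rfl | rfl)
    exacts [⟨C.quad hd, fun s a => (hS s a).1⟩, ⟨C.quad he, fun s a => (hS s a).2.2⟩,
      ⟨C.quad q, fun s a => (hS s a).2.1⟩]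
  rw [mul_assoc]
  refine z _ ?_
  induction hg using Subgroup.closure_induction_left with
  | one => simpa using nS
  | mul_left x hx y _ ih =>
    have := S.add_mem ih ((k x hx).2 _ ih)
    rwa [sub_mul (ρ x), one_mul, add_sub_cancel, ← mul_assoc, ← map_mul] at this
  | inv_mul_cancel x hx y _ ih =>
    have := S.sub_mem ih ((k x hx).2 _ ih)
    rwa [sub_eq_add_neg, ← neg_mul, ← (k x hx).1.inv_sub, sub_mul (ρ x⁻¹), one_mul,
      add_sub_cancel, ← mul_assoc, ← map_mul] at this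

/-- If no pair of independent commuting elements of `D ∩ M` is quadratic on a two step chain of a
subgroup outside `M`, then `D` meets the Sylow subgroup in at most two elements. -/
theorem last_fr (hM : M ≠ ⊤)
    (FR : ∀ H : Subgroup L, ¬ H ≤ M → ∀ d ∈ H ⊓ M, ∀ e ∈ H ⊓ M, d ∈ D → e ∈ D →
      Commute d e → d ≠ 1 → e ≠ 1 → e ≠ d → e ≠ d⁻¹ →
      ¬ ∀ g ∈ H, (ρ d - 1) * (ρ e - 1) * ρ g * ((ρ d - 1) * (ρ e - 1)) = 0)
    {d e : L} (dT : d ∈ (T : Subgroup L)) (hd : d ∈ D) (d1 : d ≠ 1) (eT : e ∈ (T : Subgroup L))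
    (he : e ∈ D) (e1 : e ≠ 1) : e = d ∨ e = d⁻¹ := by
  by_contra! ⟨n1, n2⟩
  have c := C.toStar.comm T.isPGroup' hd he dT eT
  obtain ⟨g, gM⟩ : ∃ g, g ∉ M := by_contra fun a => hM (eq_top_iff.2 fun g _ =>
    by_contra fun b => a ⟨g, b⟩)
  have wM := fun a => gM (C.ti d (C.le dT) hd d1 g a)
  have k : ∀ {d e}, d ∈ M → d ∈ D → d ≠ 1 → e ∈ M → e ∈ D → e ≠ 1 → Commute d e → e ≠ d →
      e ≠ d⁻¹ → ∀ w ∈ D, w ∉ M → ¬ T5 ρ d w := fun dM hd d1 eM he e1 c n1 n2 w hw wM h => by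
    obtain ⟨v, -, vM, -, -, -, z⟩ := C.block dM hd d1 eM he e1 c n1 n2 hw wM h
    exact FR _ (fun a => vM (a (Subgroup.subset_closure (by simp)))) _
      ⟨Subgroup.subset_closure (by simp), dM⟩ _ ⟨Subgroup.subset_closure (by simp), eM⟩ hd he c
      d1 e1 n1 n2 z
  rcases C.five (C.le dT) hd d1 (C.le eT) he e1 c n1 n2 (C.conj hd g) wM with a | a
  · exact k (C.le dT) hd d1 (C.le eT) he e1 c n1 n2 _ (C.conj hd g) wM a
  · exact k (C.le eT) he e1 (C.le dT) hd d1 c.symm n1.symm (fun h => n2 (by rw [h, inv_inv])) _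
      (C.conj hd g) wM a

theorem block_ih
    (sp : ∀ d e, (∀ g, (ρ d - 1) * (ρ e - 1) * ρ g * ((ρ d - 1) * (ρ e - 1)) = 0) →
      (ρ d - 1) * (ρ e - 1) = 0)
    (IH : ∀ H : Subgroup L, H ≠ ⊤ → ¬ H ≤ M → ∀ d ∈ H ⊓ M, ∀ e ∈ H ⊓ M, d ∈ D → e ∈ D →
      Commute d e → d ≠ 1 → e ≠ 1 → e ≠ d → e ≠ d⁻¹ → (∀ K < H, d ∈ K → e ∈ K → K ≤ M) →
      ∃ R : Subgroup L, IsPGroup 3 R ∧ H ≤ Subgroup.normalizer R ∧
        ∃ f ∈ R, f ∈ Subgroup.closure {d, e} ∧ f ≠ 1)
    {H : Subgroup L} {d e w : L} (dH : d ∈ H ⊓ M) (hd : d ∈ D) (d1 : d ≠ 1) (eH : e ∈ H ⊓ M)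
    (he : e ∈ D) (e1 : e ≠ 1) (c : Commute d e) (n1 : e ≠ d) (n2 : e ≠ d⁻¹)
    (mn : ∀ K < H, d ∈ K → e ∈ K → K ≤ M) (wH : w ∈ H) (hw : w ∈ D) (wM : w ∉ M)
    (h : T5 ρ d w) : False := by
  obtain ⟨v, q, vM, vH, b, t5, z⟩ := C.block dH.2 hd d1 eH.2 he e1 c n1 n2 hw wM h
  replace vH : v ∈ H :=
    (Subgroup.closure_le H).2 (by rintro _ (rfl | rfl); exacts [dH.1, wH]) vH
  have HM : ¬ H ≤ M := fun a => vM (a vH)
  by_cases top : H = ⊤
  · have gen : Subgroup.closure {d, e, v} = ⊤ := by_contra fun a => vM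
      (mn _ (top ▸ lt_top_iff_ne_top.2 a) (Subgroup.subset_closure (by simp))
        (Subgroup.subset_closure (by simp)) (Subgroup.subset_closure (by simp)))
    rcases C.star d hd e he c (sp d e fun g => z g (gen ▸ trivial)) with a | a | a | a
    exacts [d1 a, e1 a, n1 a, n2 a]
  obtain ⟨R, hR, nR, f, fR, hf, f1⟩ := IH H top HM d dH e eH hd he c d1 e1 n1 n2 mn
  have d3 := C.toStar.cube hd
  have RM : R ⊔ Subgroup.closure {d} ≤ M := C.syl dH.2 hd d1 (hR.to_sup_of_normal_left'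
    (pg_of_comm (by rintro _ rfl; exact d3) (by rintro _ rfl _ rfl; rfl))
    ((Subgroup.closure_le _).2 (by rintro _ rfl; exact nR dH.1)))
    (Subgroup.mem_sup_right (Subgroup.subset_closure rfl))
  have no : ∀ x ∈ M, x ∈ D → x ≠ 1 → x ∉ R := fun x xM hx x1 xR => vM (C.ti x xM hx x1 v
    (RM (Subgroup.mem_sup_left ((Subgroup.mem_normalizer_iff.1 (nR vH) x).1 xR))))
  have fin : ∀ e ∈ H, Qd ρ e → T5 ρ e v → d * e⁻¹ ∉ R := fun e eH he t5 a => by
    let π := QuotientGroup.mk' (R.subgroupOf (Subgroup.normalizer (R : Set L)))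
    have e0 : π ⟨e, nR eH⟩ = π ⟨d, nR dH.1⟩ := by
      rw [eq_comm, ← mul_inv_eq_one, ← map_inv, ← map_mul]
      exact (QuotientGroup.eq_one_iff _).2 a
    have c5 : Commute (((⟨e, nR eH⟩ : Subgroup.normalizer (R : Set L)) * ⟨v, nR vH⟩) ^ 5)
      ⟨e, nR eH⟩ := Subtype.ext (t5.five C.toStar he (C.quad q))
    have c6 := c5.map π
    rw [map_pow, map_mul, e0] at c6
    have := eq_of_br (by
      unfold Br
      simp only [← map_mul]
      exact congrArg π (Subtype.ext b)) c6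
    rw [eq_comm, ← mul_inv_eq_one, ← map_inv, ← map_mul] at this
    have h2 : v * d⁻¹ ∈ R := (QuotientGroup.eq_one_iff (N := R.subgroupOf _) _).1 this
    exact vM (by simpa using M.mul_mem (RM (Subgroup.mem_sup_left h2)) dH.2)
  rcases mem_pair c d3 (C.toStar.cube he) hf fR f1 with a | a | a | a
  exacts [no d dH.2 hd d1 a, no e eH.2 he e1 a, fin e⁻¹ (H.inv_mem eH.1) (C.quad he).inv
    (t5.inv (C.quad he)) (by rwa [inv_inv]), fin e eH.1 (C.quad he) t5 a]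

/-- The same conclusion for a semisimple module, from the statement for proper subgroups. -/
theorem last (hM : M ≠ ⊤)
    (sp : ∀ d e, (∀ g, (ρ d - 1) * (ρ e - 1) * ρ g * ((ρ d - 1) * (ρ e - 1)) = 0) →
      (ρ d - 1) * (ρ e - 1) = 0)
    (IH : ∀ H : Subgroup L, H ≠ ⊤ → ¬ H ≤ M → ∀ d ∈ H ⊓ M, ∀ e ∈ H ⊓ M, d ∈ D → e ∈ D →
      Commute d e → d ≠ 1 → e ≠ 1 → e ≠ d → e ≠ d⁻¹ → (∀ K < H, d ∈ K → e ∈ K → K ≤ M) →
      ∃ R : Subgroup L, IsPGroup 3 R ∧ H ≤ Subgroup.normalizer R ∧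
        ∃ f ∈ R, f ∈ Subgroup.closure {d, e} ∧ f ≠ 1)
    {d e : L} (dT : d ∈ (T : Subgroup L)) (hd : d ∈ D) (d1 : d ≠ 1) (eT : e ∈ (T : Subgroup L))
    (he : e ∈ D) (e1 : e ≠ 1) : e = d ∨ e = d⁻¹ := by
  by_contra! ⟨n1, n2⟩
  have c := C.toStar.comm T.isPGroup' hd he dT eT
  obtain ⟨H, ⟨dH, eH, HM⟩, mn⟩ := (wellFounded_lt (α := Subgroup L)).has_min
    {H | d ∈ H ∧ e ∈ H ∧ ¬ H ≤ M} ⟨⊤, trivial, trivial, fun a => hM (top_le_iff.1 a)⟩
  have mn' : ∀ K < H, d ∈ K → e ∈ K → K ≤ M := fun K a p q =>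
    by_contra fun r => mn K ⟨p, q, r⟩ a
  obtain ⟨g, gH, gM⟩ := SetLike.not_le_iff_exists.1 HM
  have wH := H.mul_mem (H.mul_mem gH dH) (H.inv_mem gH)
  have wM := fun a => gM (C.ti d (C.le dT) hd d1 g a)
  rcases C.five (C.le dT) hd d1 (C.le eT) he e1 c n1 n2 (C.conj hd g) wM with a | a
  · exact C.block_ih sp IH ⟨dH, C.le dT⟩ hd d1 ⟨eH, C.le eT⟩ he e1 c n1 n2 mn' wH (C.conj hd g)
      wM a
  · exact C.block_ih sp IH ⟨eH, C.le eT⟩ he e1 ⟨dH, C.le dT⟩ hd d1 c.symm n1.symm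
      (fun h => n2 (by rw [h, inv_inv])) (fun K a p q => mn' K a q p) wH (C.conj hd g) wM a

end Clean

end Pool.Agent.MP_a5588a_al.Full
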