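import Pool.Agent.MP_a5588a_al.Full.H5T

/-! The pure part: from the orbit sum property to a Sylow subgroup with two quadratic elements. -/

namespace Pool.Agent.MP_a5588a_al.Full

variable {L E V : Type*} [Group L] [Ring E] [AddCommGroup V] {D : Set L} {M : Subgroup L}
  {T : Sylow 3 L} [Finite L]

/-- A three-group normalised by `y ∈ D ∩ M` and by an element outside `M` is centralised by `y`. -/
theorem Clean.dp {ρ : L →* E} (C : Clean ρ D M T) {R : Subgroup L} (hR : IsPGroup 3 R) {y g : L}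
    (hy : y ∈ D) (yM : y ∈ M) (y1 : y ≠ 1) (yN : y ∈ Subgroup.normalizer (R : Set L))
    (gN : g ∈ Subgroup.normalizer (R : Set L)) (gM : g ∉ M) {r : L} (hr : r ∈ R) :
    Commute r y := by
  let F : Set L := {x | ∃ r ∈ R, r * y * r⁻¹ = x}
  have FD : ∀ x ∈ F, x ∈ D := by rintro _ ⟨r, -, rfl⟩; exact C.conj hy r
  have yF : y ∈ F := ⟨1, R.one_mem, by simp⟩
  have pF : IsPGroup 3 (Subgroup.closure F) := (hR.to_sup_of_normal_left'
    (pg_of_comm (D := {y}) (by rintro _ rfl; exact C.toStar.cube hy) (by rintro _ rfl _ rfl; rfl))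
    ((Subgroup.closure_le _).2 (by rintro _ rfl; exact yN))).to_le ((Subgroup.closure_le _).2 (by
      rintro _ ⟨r, hr, rfl⟩
      exact mul_mem (mul_mem (Subgroup.mem_sup_left hr) (Subgroup.mem_sup_right
        (Subgroup.subset_closure rfl))) (inv_mem (Subgroup.mem_sup_left hr))))
  have nF : ∀ s ∈ R, ∀ x ∈ Subgroup.closure F, s * x * s⁻¹ ∈ Subgroup.closure F := fun s hs x =>
    (Subgroup.mem_normalizer_iff.1 (norm_closure (g := s) (by
      rintro _ ⟨r, hr, rfl⟩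
      exact Subgroup.subset_closure ⟨s * r, mul_mem hs hr, by group⟩)) x).1
  have cy : ∀ x ∈ Subgroup.closure F, Commute x y := fun x hx =>
    C.toStar.abel FD pF hx (Subgroup.subset_closure yF)
  have cm : ∀ r ∈ R, r * y * r⁻¹ * y⁻¹ ∈ R ∧ r * y * r⁻¹ * y⁻¹ ∈ Subgroup.closure F := fun r hr =>
    ⟨by simpa [mul_assoc] using mul_mem hr ((Subgroup.mem_normalizer_iff.1 yN _).1 (inv_mem hr)),
      mul_mem (Subgroup.subset_closure ⟨r, hr, rfl⟩) (inv_mem (Subgroup.subset_closure yF))⟩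
  have tr : ∀ x, g⁻¹ * x * g ∈ Subgroup.closure F → Commute x y → x = 1 := fun x a c =>
    by_contra fun x1 => gM (inv_mem_iff.1 (C.ti y yM hy y1 g⁻¹ (C.cf FD pF yF yM y1 a
      (fun h => x1 (by simpa [mul_assoc, mul_eq_one_iff_eq_inv] using h)) (by
        show _ * _ = _ * _
        calc _ = g⁻¹ * (x * y) * g := by group
          _ = _ := by rw [c.eq]; group))))
  obtain ⟨s1, s2⟩ := cm r hr
  obtain ⟨x, hx⟩ : ∃ x, x = g * (r * y * r⁻¹ * y⁻¹) * g⁻¹ := ⟨_, rfl⟩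
  have xR : x ∈ R := hx ▸ (Subgroup.mem_normalizer_iff.1 gN _).1 s1
  have xF : g⁻¹ * x * g ∈ Subgroup.closure F := by rw [hx]; simpa [mul_assoc] using s2
  obtain ⟨t1, t2⟩ := cm x xR
  have c1 : Commute (x * y * x⁻¹ * y⁻¹) x := by
    generalize x * y * x⁻¹ * y⁻¹ = t at t1 t2
    refine commutatorElement_eq_one_iff_commute.1 (tr _ ?_ (cy _ ?_))
    · have := mul_mem (nF _ ((Subgroup.mem_normalizer_iff''.1 gN _).1 t1) _ xF) (inv_mem xF)
      simpa [commutatorElement_def, mul_assoc] using this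
    · have := mul_mem t2 (nF x xR _ (inv_mem t2))
      simpa [commutatorElement_def, mul_assoc] using this
  have x1 := tr x xF (C.toStar.ab hy c1 (cy _ t2))
  rw [x1, eq_comm, conj_eq_one_iff, mul_inv_eq_one, mul_inv_eq_iff_eq_mul] at hx
  exact hx

variable {ρ : L →* AddMonoid.End V} [Finite V]

theorem quad_pair {W : Type*} [AddCommGroup W] {G : Type*} [Group G] {σ : G →* AddMonoid.End W}
    {X : AddSubgroup W} (hX : ∀ g, ∀ x ∈ X, σ g x ∈ X) {F : Set G}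
    (h : ∀ u ∈ F, ∀ u' ∈ F, ∀ x ∈ X, σ u (σ u' x - x) = σ u' x - x) :
    ∀ u ∈ Subgroup.closure F, ∀ u' ∈ Subgroup.closure F, ∀ x ∈ X,
      σ u (σ u' x - x) = σ u' x - x := by
  intro u hu u' hu' x hx
  refine (Subgroup.closure_le (stabV σ _)).2 (fun a ha => ?_) hu
  change σ a (σ u' x - x) = σ u' x - x
  induction hu' using Subgroup.closure_induction generalizing x with
  | mem b hb => exact h a ha b hb x hx
  | one => simp
  | mul b c _ _ p q =>
    rw [mul_ap, ← sub_add_sub_cancel _ (σ c x), map_add, p _ (hX c x hx), q x hx]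
  | inv b _ p =>
    have := p _ (hX b⁻¹ x hx)
    rw [ap_inv_ap] at this
    rw [← neg_sub, map_neg, this]

/-- The orbit sum property for free subgroups gives the property for all subgroups. -/
theorem Clean.fr (C : Clean ρ D M T)
    (TH : ∀ H : Subgroup L, ¬ H ≤ M → ∀ d ∈ H ⊓ M, ∀ e ∈ H ⊓ M, d ∈ D → e ∈ D →
      Commute d e → d ≠ 1 → e ≠ 1 → e ≠ d → e ≠ d⁻¹ →
      (∀ f ∈ Subgroup.closure {d, e}, f ≠ 1 → ∀ g ∈ H, g * f * g⁻¹ ∈ M → g ∈ M) →
      ¬ ∀ g ∈ H, (ρ d - 1) * (ρ e - 1) * ρ g * ((ρ d - 1) * (ρ e - 1)) = 0)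
    (H₀ : Subgroup L) (HM₀ : ¬ H₀ ≤ M) (d : L) (dH₀ : d ∈ H₀ ⊓ M) (e : L) (eH₀ : e ∈ H₀ ⊓ M)
    (hd : d ∈ D) (he : e ∈ D) (c : Commute d e) (d1 : d ≠ 1) (e1 : e ≠ 1) (n1 : e ≠ d)
    (n2 : e ≠ d⁻¹) :
    ¬ ∀ g ∈ H₀, (ρ d - 1) * (ρ e - 1) * ρ g * ((ρ d - 1) * (ρ e - 1)) = 0 := by
  intro z
  obtain ⟨H, ⟨dH, eH, HM, le⟩, mn⟩ := (wellFounded_lt (α := Subgroup L)).has_min
    {H | d ∈ H ∧ e ∈ H ∧ ¬ H ≤ M ∧ H ≤ H₀} ⟨H₀, dH₀.1, eH₀.1, HM₀, le_rfl⟩
  refine TH H HM d ⟨dH, dH₀.2⟩ e ⟨eH, eH₀.2⟩ hd he c d1 e1 n1 n2 (fun f hf f1 g gH gM => ?_)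
    fun g hg => z g (le hg)
  have h3 : ∀ v : V, v + v + v = 0 := fun v => by
    have := DFunLike.congr_fun C.three v
    rwa [show (3 : AddMonoid.End V) = 1 + 1 + 1 by norm_num] at this
  have q : ∀ x ∈ ({d, e} : Set L), x ∈ D := by rintro _ (rfl | rfl) <;> assumption
  have pU : IsPGroup 3 (Subgroup.closure ({d, e} : Set L)) :=
    pg_of_comm (fun x hx => C.toStar.cube (q x hx)) (by
      rintro _ (rfl | rfl) _ (rfl | rfl)
      exacts [.refl _, c, c.symm, .refl _])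
  let d' : H := ⟨d, dH⟩
  let e' : H := ⟨e, eH⟩
  let U : Subgroup H := Subgroup.closure {d', e'}
  have mU : U.map H.subtype = Subgroup.closure {d, e} := by
    rw [MonoidHom.map_closure, Set.image_pair]; rfl
  have dU : d' ∈ U := Subgroup.subset_closure (by simp)
  have eU : e' ∈ U := Subgroup.subset_closure (by simp)
  obtain ⟨f', fU, rfl⟩ : f ∈ U.map H.subtype := mU ▸ hf
  have hU : IsPGroup 3 U := (mU ▸ pU : IsPGroup 3 (U.map H.subtype)).of_equiv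
    (U.equivMapOfInjective _ H.subtype_injective).symm
  have UM : U ≤ M.subgroupOf H := (Subgroup.closure_le _).2 (by
    rintro _ (rfl | rfl); exacts [dH₀.2, eH₀.2])
  have um : ∀ K, U ≤ K → K = ⊤ ∨ K ≤ M.subgroupOf H := fun K a => or_iff_not_imp_right.2 fun b => by
    have := (Subgroup.map_subtype_le K).eq_or_lt.resolve_right (mn _ ⟨⟨d', a dU, rfl⟩,
      ⟨e', a eU, rfl⟩, fun h => b fun x hx => h ⟨x, hx, rfl⟩, (Subgroup.map_subtype_le K).trans le⟩)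
    apply Subgroup.map_injective H.subtype_injective
    rw [this, ← MonoidHom.range_eq_map, Subgroup.range_subtype]
  obtain ⟨k, kH, kM⟩ := SetLike.not_le_iff_exists.1 HM
  obtain ⟨R, nR, pR, hR, -⟩ := core3_H5 (M := M.subgroupOf H)
    (fun h => HM (Subgroup.subgroupOf_eq_top.1 h)) hU um
  obtain ⟨h, hh⟩ : ∃ h : H, h * f' * h⁻¹ ∉ M.subgroupOf H := by
    by_contra! a
    have N : ∀ x : H, x.1 ∈ Subgroup.normalizer (R.map H.subtype : Set L) := fun x =>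
      Subgroup.mem_normalizer_fintype (by
        rintro _ ⟨r, hr, rfl⟩
        exact ⟨_, nR.conj_mem r hr x, rfl⟩)
    have c1 := C.dp (pR.map H.subtype) hd dH₀.2 d1 (N d') (N ⟨k, kH⟩) kM
      ⟨_, nR.conj_mem f' (hR ⟨fU, a⟩) (⟨k, kH⟩ : H)⁻¹, rfl⟩
    refine kM (C.ti d dH₀.2 hd d1 k (C.cf q pU (Set.mem_insert _ _) dH₀.2 d1 hf f1 ?_))
    have c2 : k⁻¹ * f'.1 * k⁻¹⁻¹ * d = d * (k⁻¹ * f'.1 * k⁻¹⁻¹) := c1
    show f'.1 * _ = _ * f'.1
    calc _ = k * (k⁻¹ * f'.1 * k⁻¹⁻¹ * d) * k⁻¹ := by group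
      _ = _ := by rw [c2]; group
  obtain ⟨W, hW, X, X0, hX, mX, nf⟩ := sect_H5 (ρ := ρ.comp H.subtype)
    (C.inj.comp H.subtype_injective) h3 fun a => HM (C.syl dH₀.2 hd d1 a dH)
  set σ := quoV (ρ.comp H.subtype) W hW with hσ
  have lift : ∀ (x : V ⧸ W) (a b : H), (ρ a - 1) * (ρ b - 1) = 0 → σ a (σ b x - x) = σ b x - x := by
    intro x a b h
    obtain ⟨v, rfl⟩ := QuotientAddGroup.mk_surjective x
    exact congrArg (fun w : V => (w : V ⧸ W)) (sub_eq_zero.1 (DFunLike.congr_fun h v))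
  let n : AddMonoid.End (V ⧸ W) := (σ d' - 1) * (σ e' - 1)
  have nn : ∀ g x, n (σ g (n x)) = 0 := fun g x => by
    obtain ⟨v, rfl⟩ := QuotientAddGroup.mk_surjective x
    exact congrArg (fun w : V => (w : V ⧸ W)) (DFunLike.congr_fun (z g (le g.2)) v)
  have n0 : ∀ x ∈ X, n x = 0 := fun x hx => by
    let Y : AddSubgroup (V ⧸ W) :=
      { carrier := {v | v ∈ X ∧ ∀ g, n (σ g v) = 0}
        add_mem' := fun a b => ⟨add_mem a.1 b.1, fun g => by
          rw [map_add, map_add, a.2, b.2, add_zero]⟩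
        zero_mem' := ⟨zero_mem _, fun g => by rw [map_zero, map_zero]⟩
        neg_mem' := fun a => ⟨neg_mem a.1, fun g => by rw [map_neg, map_neg, a.2, neg_zero]⟩ }
    rcases mX Y (fun _ h => h.1) (fun g y hy => ⟨hX g y hy.1, fun g' => by
      rw [← mul_ap]; exact hy.2 _⟩) with a | a
    · have := sub_mem (hX e' x hx) hx
      exact AddSubgroup.mem_bot.1 (a ▸ show n x ∈ Y from ⟨sub_mem (hX d' _ this) this, (nn · x)⟩)
    · simpa using (show x ∈ Y from a ▸ hx).2 1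
  refine t2_H5 hX mX (fun x _ => nf x) um (fun g a => C.ti d dH₀.2 hd d1 g (a d' dU))
    (quad_pair hX ?_) (fun x => ?_) X0 hU UM fU hh (g := ⟨g, gH⟩) gM
  · have c' : Commute d' e' := Subtype.ext c
    rintro _ (rfl | rfl) _ (rfl | rfl) x hx
    · exact lift x _ _ (C.quad hd)
    · exact sub_eq_zero.1 (n0 x hx)
    · have := n0 x hx
      change σ d' (σ e' x - x) - (σ e' x - x) = 0 at this
      rw [map_sub, ← mul_ap, c'.eq, mul_ap] at this
      rw [map_sub]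
      linear_combination (norm := abel) this
    · exact lift x _ _ (C.quad he)
  · obtain ⟨v, rfl⟩ := QuotientAddGroup.mk_surjective x
    exact congrArg (fun w : V => (w : V ⧸ W)) (h3 v)

/-- The hypotheses of the pure part. All quadratic elements lie in one conjugate of `M` only, and no
two independent commuting elements of `D` act freely and lower a two step chain. -/
structure Pure (ρ : L →* AddMonoid.End V) (D : Set L) (M : Subgroup L) (T : Sylow 3 L) : Prop where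
  three : (3 : AddMonoid.End V) = 0
  inj : Function.Injective ρ
  quad : ∀ {d}, d ∈ D → Qd ρ d
  conj : ∀ {d}, d ∈ D → ∀ g, g * d * g⁻¹ ∈ D
  inv : ∀ {d}, d ∈ D → d⁻¹ ∈ D
  ne : M ≠ ⊤
  le : (T : Subgroup L) ≤ M
  ti : ∀ d ∈ M, Qd ρ d → d ≠ 1 → ∀ g, g * d * g⁻¹ ∈ M → g ∈ M
  um : ∀ K : Subgroup L, (∀ d ∈ (T : Subgroup L), d ∈ D → d ∈ K) → K = ⊤ ∨ K ≤ M
  cen : ∀ (f : L) (n : ℕ), f ^ 3 ^ n = 1 → (∀ g, Commute f g) → f = 1
  th : ∀ H : Subgroup L, ¬ H ≤ M → ∀ d ∈ H ⊓ M, ∀ e ∈ H ⊓ M, d ∈ D → e ∈ D →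
    Commute d e → d ≠ 1 → e ≠ 1 → e ≠ d → e ≠ d⁻¹ →
    (∀ f ∈ Subgroup.closure {d, e}, f ≠ 1 → ∀ g ∈ H, g * f * g⁻¹ ∈ M → g ∈ M) →
    ¬ ∀ g ∈ H, (ρ d - 1) * (ρ e - 1) * ρ g * ((ρ d - 1) * (ρ e - 1)) = 0

omit [Finite V] in
theorem Pure.clean (P : Pure ρ D M T) : Clean ρ D M T := by
  have : Fact (Nat.Prime 3) := ⟨Nat.prime_three⟩
  have cb : ∀ d ∈ D, d ^ 3 = 1 := fun d hd => P.inj (by
    have h3 := P.three
    have h := P.quad hd
    unfold Qd at h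
    rw [map_pow, map_one]
    linear_combination (norm := noncomm_ring) (ρ d - 1) * h + 3 * h + h3 * (ρ d - 1))
  have k : ∀ d ∈ M, ∀ e ∈ M, d ∈ D → e ∈ D → Commute d e → (ρ d - 1) * (ρ e - 1) = 0 →
      d = 1 ∨ e = 1 ∨ e = d ∨ e = d⁻¹ := fun d dM e eM hd he c z => by
    by_contra! ⟨d1, e1, n1, n2⟩
    refine P.th ⊤ (fun a => P.ne (top_le_iff.1 a)) d ⟨trivial, dM⟩ e ⟨trivial, eM⟩ hd he c d1 e1
      n1 n2 (fun f hf f1 g _ => P.ti f ((Subgroup.closure_le M).2 (by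
        rintro _ (rfl | rfl) <;> assumption) hf) ?_ f1 g) fun g _ => by rw [z, mul_zero]
    refine AddMonoidHom.ext fun v => sub_eq_zero.2 (quad_pair (X := ⊤) (fun _ _ _ => trivial) ?_
      f hf f hf v trivial)
    have z' : (ρ e - 1) * (ρ d - 1) = 0 := by
      have := congrArg ρ c.eq
      rw [map_mul, map_mul] at this
      linear_combination (norm := noncomm_ring) z - this
    rintro _ (rfl | rfl) _ (rfl | rfl) x -
    exacts [sub_eq_zero.1 (DFunLike.congr_fun (P.quad hd) x), sub_eq_zero.1 (DFunLike.congr_fun z x),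
      sub_eq_zero.1 (DFunLike.congr_fun z' x), sub_eq_zero.1 (DFunLike.congr_fun (P.quad he) x)]
  refine ⟨⟨P.three, P.inj, P.quad, P.conj, P.inv, fun d hd e he c z => ?_⟩, P.le,
    fun d dM hd => P.ti d dM (P.quad hd), P.um, P.cen⟩
  obtain ⟨Q, hQ⟩ := (pg_of_comm (D := {d, e}) (by rintro _ (rfl | rfl) <;> exact cb _ ‹_›) (by
    rintro _ (rfl | rfl) _ (rfl | rfl)
    exacts [.refl _, c, c.symm, .refl _])).exists_le_sylow
  obtain ⟨g, rfl⟩ := MulAction.exists_smul_eq L T Q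
  have m : ∀ x ∈ ({d, e} : Set L), g⁻¹ * x * g⁻¹⁻¹ ∈ M := fun x hx => P.le (by
    rw [inv_inv]
    exact mem_smul_syl.1 (hQ (Subgroup.subset_closure hx)))
  have := k _ (m d (by simp)) _ (m e (by simp)) (P.conj hd _) (P.conj he _)
    (c.map (MulAut.conj g⁻¹)) (by
      rw [conj_sub_H5, conj_sub_H5]
      have := inv_ap ρ g⁻¹
      linear_combination (norm := noncomm_ring) ρ g⁻¹ * (ρ d - 1) * this * (ρ e - 1) * ρ g⁻¹⁻¹ +
        ρ g⁻¹ * z * ρ g⁻¹⁻¹)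
  simpa only [conj_eq_one_iff, conj_inv, mul_left_inj, mul_right_inj] using this

/-- The Sylow subgroup contains at most two nontrivial elements of `D`. -/
theorem Pure.last (P : Pure ρ D M T) {d e : L} (dT : d ∈ (T : Subgroup L)) (hd : d ∈ D)
    (d1 : d ≠ 1) (eT : e ∈ (T : Subgroup L)) (he : e ∈ D) (e1 : e ≠ 1) : e = d ∨ e = d⁻¹ :=
  P.clean.last_fr P.ne (P.clean.fr P.th) dT hd d1 eT he e1

end Pool.Agent.MP_a5588a_al.Full
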