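import Mathlib

/-! Matrix identities for two transvections in characteristic three. -/

namespace Pool.Agent.MP_a5588a_al.Full

variable {Q H : Type*} [CommRing Q] [Group H] {x : Q}

omit [CommRing Q] in
theorem m2 {a b c d a' b' c' d' : Q} (h1 : a = a') (h2 : b = b') (h3 : c = c') (h4 : d = d') :
    !![a, b; c, d] = !![a', b'; c', d'] := by rw [h1, h2, h3, h4]

/-- The images of `d`, `w` and their inverses. -/
structure Tv (τ : H →* Matrix (Fin 2) (Fin 2) Q) (d w : H) (x : Q) : Prop where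
  r3 : (3 : Q) = 0
  d : τ d = !![1, x; 0, 1]
  w : τ w = !![1, 0; 1, 1]

variable {τ : H →* Matrix (Fin 2) (Fin 2) Q} {d w : H}

theorem inv_eq_m {g : H} {A : Matrix (Fin 2) (Fin 2) Q} (h : τ g * A = 1) : τ g⁻¹ = A :=
  left_inv_eq_right_inv (by rw [← map_mul, inv_mul_cancel, map_one]) h

namespace Tv

variable (t : Tv τ d w x)
include t

theorem di : τ d⁻¹ = !![1, -x; 0, 1] := inv_eq_m (by
  rw [t.d, Matrix.mul_fin_two, Matrix.one_fin_two]
  exact m2 (by ring) (by ring) (by ring) (by ring))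

theorem wi : τ w⁻¹ = !![1, 0; -1, 1] := inv_eq_m (by
  rw [t.w, Matrix.mul_fin_two, Matrix.one_fin_two]
  exact m2 (by ring) (by ring) (by ring) (by ring))

theorem map {Q' : Type*} [CommRing Q'] (f : Q →+* Q') :
    Tv (f.mapMatrix.toMonoidHom.comp τ) d w (f x) :=
  ⟨by rw [← map_ofNat f 3, t.r3, map_zero], by
    change (τ d).map f = _
    rw [t.d]; ext i j; fin_cases i <;> fin_cases j <;> simp, by
    change (τ w).map f = _
    rw [t.w]; ext i j; fin_cases i <;> fin_cases j <;> simp⟩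

theorem det (gen : Subgroup.closure {d, w} = ⊤) (g : H) : (τ g).det = 1 := by
  have : g ∈ Subgroup.closure {d, w} := gen ▸ trivial
  induction this using Subgroup.closure_induction'' with
  | one => simp
  | mem y hy => rcases hy with rfl | rfl <;> simp [t.d, t.w]
  | inv_mem y hy => rcases hy with rfl | rfl <;> simp [t.di, t.wi]
  | mul y z _ _ a b => rw [map_mul, Matrix.det_mul, a, b, one_mul]

theorem g3 : τ ((d * w) ^ 3) =
    !![1 - x ^ 2 + x ^ 3, x ^ 2 + x ^ 3; x + x ^ 2, 1 + x ^ 2] := by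
  have := t.r3
  simp only [pow_three', map_mul, t.d, t.w, Matrix.mul_fin_two]
  exact m2 (by grind) (by grind) (by grind) (by grind)

theorem g3' : τ ((d * w⁻¹) ^ 3) =
    !![1 - x ^ 2 - x ^ 3, -x ^ 2 + x ^ 3; x - x ^ 2, 1 + x ^ 2] := by
  have := t.r3
  simp only [pow_three', map_mul, t.d, t.wi, Matrix.mul_fin_two]
  exact m2 (by grind) (by grind) (by grind) (by grind)

theorem g5 : τ ((d * w) ^ 5) 1 0 = (x ^ 2 + 1) * (x ^ 2 - x - 1) := by
  have := t.r3
  rw [show (d * w) ^ 5 = (d * w) ^ 3 * (d * w * (d * w)) by simp [pow_succ, mul_assoc]]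
  simp only [map_mul, t.g3, t.d, t.w, Matrix.mul_fin_two]
  simp
  grind

theorem g5' (h : x ^ 2 + 1 = 0) : τ ((d * w) ^ 5) = !![-1, 0; 0, -1] := by
  have := t.r3
  rw [show (d * w) ^ 5 = (d * w) ^ 3 * (d * w * (d * w)) by simp [pow_succ, mul_assoc]]
  simp only [map_mul, t.g3, t.d, t.w, Matrix.mul_fin_two]
  exact m2 (by grind) (by grind) (by grind) (by grind)

theorem h0 (h : x ^ 4 = 1) {k : H} (hk : k = w * d * w * d * w * (d⁻¹ * w * d⁻¹ * w)) :
    τ (k * d * k⁻¹) = !![1, x ^ 3; 0, 1] := by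
  have := t.r3
  have e : τ k = !![-1 + x - x ^ 2 - x ^ 3, 1; 0, -1 - x - x ^ 2 + x ^ 3] := by
    simp only [hk, map_mul, t.d, t.di, t.w, Matrix.mul_fin_two]
    exact m2 (by grind) (by grind) (by grind) (by grind)
  have e' : τ k⁻¹ = !![-1 - x - x ^ 2 + x ^ 3, -1; 0, -1 + x - x ^ 2 - x ^ 3] := inv_eq_m (by
    rw [e, Matrix.mul_fin_two, Matrix.one_fin_two]
    exact m2 (by grind) (by grind) (by grind) (by grind))
  simp only [map_mul, e, e', t.d, Matrix.mul_fin_two]
  exact m2 (by grind) (by grind) (by grind) (by grind)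

theorem k1 (h : x ^ 2 = 1) : τ (d * (d * w⁻¹) ^ 3 * d⁻¹) = !![1 + x, 1 - x; -1 + x, 1 + x] := by
  have := t.r3
  simp only [map_mul, t.g3', t.d, t.di, Matrix.mul_fin_two]
  exact m2 (by grind) (by grind) (by grind) (by grind)

theorem k2 (h : x ^ 2 = 1) : τ (d * (d * w) ^ 3 * d⁻¹) = !![1 - x, -1 - x; 1 + x, 1 - x] := by
  have := t.r3
  simp only [map_mul, t.g3, t.d, t.di, Matrix.mul_fin_two]
  exact m2 (by grind) (by grind) (by grind) (by grind)

theorem w2 (h : x ^ 2 = 1) {k : H} (hk : k = d * (d * w⁻¹) ^ 3 * d⁻¹ * (d * (d * w) ^ 3 * d⁻¹)) :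
    τ (k⁻¹ * w * k⁻¹⁻¹) = !![1, -1; 0, 1] := by
  have := t.r3
  have e : τ k = !![0, -x; x, 0] := by
    rw [hk, map_mul, t.k1 h, t.k2 h, Matrix.mul_fin_two]
    exact m2 (by grind) (by grind) (by grind) (by grind)
  have e' : τ k⁻¹ = !![0, x; -x, 0] := inv_eq_m (by
    rw [e, Matrix.mul_fin_two, Matrix.one_fin_two]
    exact m2 (by grind) (by grind) (by grind) (by grind))
  simp only [inv_inv, map_mul, e, e', t.w, Matrix.mul_fin_two]
  exact m2 (by grind) (by grind) (by grind) (by grind)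

theorem m8 (h : x ^ 2 + x + 2 = 0) :
    τ (w * d * w⁻¹ * d * w⁻¹) 1 0 = 0 ∧ τ (w * d * w⁻¹ * d * w⁻¹) 0 0 ^ 4 = -1 := by
  have := t.r3
  simp only [map_mul, t.d, t.w, t.wi, Matrix.mul_fin_two]
  simp
  constructor <;> grind

theorem m8' (h : x ^ 2 - x + 2 = 0) :
    τ (w * d * w * d * w⁻¹) 1 0 = 0 ∧ τ (w * d * w * d * w⁻¹) 0 0 ^ 4 = -1 := by
  have := t.r3
  simp only [map_mul, t.d, t.w, t.wi, Matrix.mul_fin_two]
  simp
  constructor <;> grind

/-- An element that commutes with `d` is upper triangular with equal diagonal entries. -/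
theorem tri (xu : IsUnit x) {g : H} (c : Commute g d) : τ g 1 0 = 0 ∧ τ g 1 1 = τ g 0 0 := by
  have e := congrArg τ c.eq
  rw [map_mul, map_mul, t.d] at e
  have e0 := congrFun (congrFun e 0) 0
  have e1 := congrFun (congrFun e 0) 1
  simp [Matrix.mul_apply, Fin.sum_univ_two] at e0 e1
  exact ⟨xu.mul_right_eq_zero.1 e0, xu.mul_left_cancel (by linear_combination -e1)⟩

theorem tri' {g : H} (c : Commute g w) : τ g 0 1 = 0 := by
  have e := congrArg τ c.eq
  rw [map_mul, map_mul, t.w] at e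
  simpa [Matrix.mul_apply, Fin.sum_univ_two] using congrFun (congrFun e 0) 0

end Tv

end Pool.Agent.MP_a5588a_al.Full
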