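import Pool.Agent.MP_a5588a_al.Full.H5B
import Pool.Agent.MP_a5588a_al.Full.H5M
import Pool.Agent.MP_a5588a_al.Full.R2DL

/-! The pair lemma, for a group described by an abelian quotient and two by two matrices. -/

namespace Pool.Agent.MP_a5588a_al.Full

variable {H E G R : Type*} [Group H] [Ring E] [CommGroup G] [CommRing R]

theorem syl_conj [Finite H] {d w : H} (hd : d ^ 3 = 1) (hw : w ^ 3 = 1) :
    ∃ x ∈ Subgroup.closure {d, w}, ∃ P : Subgroup H, IsPGroup 3 P ∧ d ∈ P ∧ x⁻¹ * w * x⁻¹⁻¹ ∈ P := by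
  have : Fact (Nat.Prime 3) := ⟨Nat.prime_three⟩
  have pg : ∀ y : Subgroup.closure ({d, w} : Set H), y.1 ^ 3 = 1 →
      IsPGroup 3 (Subgroup.zpowers y) := fun y hy => by
    rintro ⟨_, k, rfl⟩
    refine ⟨1, Subtype.ext (Subtype.ext ?_)⟩
    change (y.1 ^ k) ^ 3 ^ 1 = 1
    rw [pow_one, ← zpow_natCast, ← zpow_mul, mul_comm, zpow_mul, zpow_natCast, hy, one_zpow]
  obtain ⟨S, hS⟩ := (pg ⟨d, Subgroup.subset_closure (by simp)⟩ hd).exists_le_sylow
  obtain ⟨S', hS'⟩ := (pg ⟨w, Subgroup.subset_closure (by simp)⟩ hw).exists_le_sylow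
  obtain ⟨x, rfl⟩ := MulAction.exists_smul_eq (Subgroup.closure ({d, w} : Set H)) S S'
  have := hS' (Subgroup.mem_zpowers _)
  rw [Sylow.coe_subgroup_smul, Subgroup.mem_pointwise_smul_iff_inv_smul_mem] at this
  exact ⟨x, x.2, _, S.isPGroup'.map (Subgroup.subtype _), ⟨_, hS (Subgroup.mem_zpowers _), rfl⟩,
    ⟨_, this, by simp⟩⟩

/-- The data of a pair of quadratic elements: the action `φ` on the part where the anticommutator
is nilpotent and the action `σ` on the part where it is invertible. -/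
structure PD (ρ : H →* E) (D : Set H) (φ : H →* G) (σ : H →* Matrix (Fin 2) (Fin 2) R) (d w : H)
    (x : R) : Prop where
  S : Star ρ D
  hd : d ∈ D
  hw : w ∈ D
  d1 : d ≠ 1
  gen : Subgroup.closure {d, w} = ⊤
  cube : ∀ a : G, a ^ 3 = 1
  t : Tv σ d w x
  xu : IsUnit x
  faith : ∀ g, φ g = 1 → σ g = 1 → g = 1
  K : ∀ g y, σ g = !![1, y; 0, 1] → φ g = φ d → (ρ d - 1) * (ρ g - 1) = 0

variable {ρ : H →* E} {D : Set H} {φ : H →* G} {σ : H →* Matrix (Fin 2) (Fin 2) R} {d w : H} {x : R}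

theorem tri_pow {A : Matrix (Fin 2) (Fin 2) R} (h : A 1 0 = 0) (n : ℕ) :
    (A ^ n) 1 0 = 0 ∧ (A ^ n) 0 0 = A 0 0 ^ n := by
  induction n with
  | zero => simp
  | succ n ih => simp [pow_succ, Matrix.mul_apply, Fin.sum_univ_two, h, ih.1, ih.2]

theorem one_of_odd {a : R} {n : ℕ} (h2 : a * a = 1) (h : a ^ 3 ^ n = 1) : a = 1 := by
  obtain ⟨k, hk⟩ : Odd (3 ^ n) := Odd.pow (by decide)
  rwa [hk, pow_succ, pow_mul, sq, h2, one_pow, one_mul] at h

theorem pow3_H5 {A : Type*} [Ring A] (h3 : (3 : A) = 0) (z : A) (n : ℕ) :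
    (1 + z) ^ 3 ^ n = 1 + z ^ 3 ^ n := by
  induction n with
  | zero => simp
  | succ n ih =>
    rw [pow_succ, pow_mul, pow_mul, ih]
    generalize z ^ 3 ^ n = y
    linear_combination (norm := noncomm_ring) h3 * (y + y * y)

namespace PD

variable (p : PD ρ D φ σ d w x)
include p

theorem uni {g : H} {n : ℕ} (h : g ^ 3 ^ n = 1) (c : Commute g d) : σ g = !![1, σ g 0 1; 0, 1] := by
  obtain ⟨h1, h2⟩ := p.t.tri p.xu c
  have h3 := p.t.det p.gen g
  rw [Matrix.det_fin_two, h1, h2, mul_zero, sub_zero] at h3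
  have h4 := (tri_pow h1 (3 ^ n)).2
  rw [← map_pow, h, map_one, Matrix.one_apply_eq] at h4
  have h5 := one_of_odd h3 h4.symm
  conv_lhs => rw [Matrix.eta_fin_two (σ g), h1, h2, h5]

theorem key {g : H} (h : g ∈ D) (c : Commute g d) (h0 : φ g = φ d) : g = 1 ∨ g = d ∨ g = d⁻¹ :=
  (p.S.star d p.hd g h c.symm
    (p.K g _ (p.uni (n := 1) (by rw [pow_one, p.S.cube h]) c) h0)).resolve_left p.d1

variable [Finite H]

theorem al {K : Type*} [Field K] (ψ : R →+* K) {m : H} (h : ψ (σ m 1 0) = 0) :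
    ψ (σ m 0 0) ^ 4 = 1 := by
  have t := p.t.map ψ
  set τ := ψ.mapMatrix.toMonoidHom.comp σ with hτ
  change τ m 1 0 = 0 at h
  change τ m 0 0 ^ 4 = 1
  have c0 : ψ x ≠ 0 := (p.xu.map ψ).ne_zero
  have dm := t.det p.gen m
  rw [Matrix.det_fin_two, h, mul_zero, sub_zero] at dm
  have mi : τ m⁻¹ = !![τ m 1 1, -τ m 0 1; 0, τ m 0 0] := inv_eq_m (by
    conv_lhs => rw [Matrix.eta_fin_two (τ m), h]
    simp only [Matrix.mul_fin_two, Matrix.one_fin_two]
    simp only [Matrix.of_apply, Matrix.cons_val', Matrix.cons_val_zero, Matrix.cons_val_one,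
      Matrix.cons_val_fin_one]
    exact m2 (by grind) (by grind) (by grind) (by grind))
  have e : τ (m * d * m⁻¹) = !![1, τ m 0 0 ^ 2 * ψ x; 0, 1] := by
    rw [map_mul, map_mul, mi, t.d]
    conv_lhs => rw [Matrix.eta_fin_two (τ m), h]
    simp only [Matrix.mul_fin_two]
    simp only [Matrix.of_apply, Matrix.cons_val', Matrix.cons_val_zero, Matrix.cons_val_one,
      Matrix.cons_val_fin_one]
    exact m2 (by grind) (by grind) (by grind) (by grind)
  have q := p.S.conj p.hd m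
  obtain ⟨z, hz, P, hP, dP, zP⟩ := syl_conj (p.S.cube p.hd) (p.S.cube q)
  have U : ∀ z ∈ Subgroup.closure {d, m * d * m⁻¹}, ∃ y, τ z = !![1, y; 0, 1] := fun z hz => by
    induction hz using Subgroup.closure_induction with
    | mem z hz => rcases hz with rfl | rfl; exacts [⟨_, t.d⟩, ⟨_, e⟩]
    | one => exact ⟨0, by rw [map_one, Matrix.one_fin_two]⟩
    | mul a b _ _ ha hb =>
      obtain ⟨y, hy⟩ := ha
      obtain ⟨y', hy'⟩ := hb
      exact ⟨y + y', by
        rw [map_mul, hy, hy', Matrix.mul_fin_two]; exact m2 (by ring) (by ring) (by ring) (by ring)⟩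
    | inv a _ ha =>
      obtain ⟨y, hy⟩ := ha
      exact ⟨-y, inv_eq_m (by
        rw [hy, Matrix.mul_fin_two, Matrix.one_fin_two]
        exact m2 (by ring) (by ring) (by ring) (by ring))⟩
  obtain ⟨y, hy⟩ := U z hz
  have hy' : τ z⁻¹ = !![1, -y; 0, 1] := inv_eq_m (by
    rw [hy, Matrix.mul_fin_two, Matrix.one_fin_two]
    exact m2 (by ring) (by ring) (by ring) (by ring))
  have e' : τ (z⁻¹ * (m * d * m⁻¹) * z⁻¹⁻¹) 0 1 = τ m 0 0 ^ 2 * ψ x := by
    rw [inv_inv, map_mul, map_mul, hy, hy', e]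
    simp
  have q' := p.S.conj q z⁻¹
  rcases p.key q' (p.S.comm hP q' p.hd zP dP) (by simp) with h | h | h
  · rw [h, map_one] at e'
    have : τ m 0 0 = 0 := by simpa [c0] using e'.symm
    simp [this] at dm
  · rw [h, t.d] at e'
    have : τ m 0 0 ^ 2 = 1 := mul_right_cancel₀ c0 (by simpa using e'.symm)
    linear_combination (τ m 0 0 ^ 2 + 1) * this
  · rw [h, t.di] at e'
    have : τ m 0 0 ^ 2 = -1 := mul_right_cancel₀ c0 (by simpa using e'.symm)
    linear_combination (τ m 0 0 ^ 2 - 1) * this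

theorem four {K : Type*} [Field K] [IsAlgClosed K] (ψ : R →+* K) : ψ x ^ 4 = 1 := by
  classical
  have t := p.t.map ψ
  have al : ∀ m, (ψ.mapMatrix.toMonoidHom.comp σ) m 1 0 = 0 →
    (ψ.mapMatrix.toMonoidHom.comp σ) m 0 0 ^ 4 = 1 := fun m => p.al ψ
  set τ := ψ.mapMatrix.toMonoidHom.comp σ with hτ
  have c0 : ψ x ≠ 0 := (p.xu.map ψ).ne_zero
  generalize ψ x = c at *
  have r3 := t.r3
  by_contra c4
  have c1 : c - 1 ≠ 0 := fun h => c4 (by rw [sub_eq_zero.1 h, one_pow])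
  let h : Fin 3 → H := ![w, w * d * w⁻¹, w * d * w]
  let γ : Fin 3 → K := ![1, -c, c - 1]
  have hγ : ∀ i, τ (h i) 1 0 = γ i := fun i => by
    fin_cases i <;> simp [h, γ, map_mul, t.d, t.w, t.wi]
    linear_combination r3
  obtain ⟨i, j, ij, m, m', a, b, e⟩ := dl_R2 (π := τ.toHomUnits) r3 d (by simp [t.d]) (by simp [t.d])
    (by simpa [t.d] using c0) h fun i => by
      change τ (h i) 1 0 ≠ 0
      rw [hγ]
      fin_cases i <;> simp [γ, c0, c1]
  change τ m 1 0 = 0 at a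
  change τ m' 1 0 = 0 at b
  have dm := t.det p.gen m
  rw [Matrix.det_fin_two, a, mul_zero, sub_zero] at dm
  have e4 : γ j ^ 4 = γ i ^ 4 := by
    have : γ j = τ m 1 1 * γ i * τ m' 0 0 := by
      rw [← hγ, ← hγ, e]
      simp [Matrix.mul_apply, Fin.sum_univ_two, a, b]
    have a4 := al m a
    rw [this, mul_pow, mul_pow, al m' b]
    linear_combination (-γ i ^ 4 * τ m 1 1 ^ 4) * a4 + γ i ^ 4 * ((τ m 0 0 * τ m 1 1) ^ 3 +
      (τ m 0 0 * τ m 1 1) ^ 2 + τ m 0 0 * τ m 1 1 + 1) * dm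
  have n1 : c ^ 2 + c + 2 ≠ 0 := fun h => by
    have := (al _ (t.m8 h).1).symm.trans (t.m8 h).2
    exact one_ne_zero (α := K) (by linear_combination r3 - this)
  have n2 : c ^ 2 - c + 2 ≠ 0 := fun h => by
    have := (al _ (t.m8' h).1).symm.trans (t.m8' h).2
    exact one_ne_zero (α := K) (by linear_combination r3 - this)
  have n3 : c + 1 ≠ 0 := fun h => c4 (by rw [eq_neg_of_add_eq_zero_left h]; norm_num)
  fin_cases i <;> fin_cases j <;> simp only [γ] at e4
  all_goals first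
    | exact ij rfl
    | (simp at e4; grind)

theorem nil : IsNilpotent (x ^ 4 - 1) := by
  refine nilpotent_iff_mem_prime.2 fun P hP => ?_
  let ψ : R →+* AlgebraicClosure (FractionRing (R ⧸ P)) :=
    (algebraMap (FractionRing (R ⧸ P)) _).comp
      ((algebraMap (R ⧸ P) _).comp (Ideal.Quotient.mk P))
  have : ψ (x ^ 4 - 1) = 0 := by rw [map_sub, map_pow, p.four ψ, map_one, sub_self]
  simpa only [ψ, RingHom.comp_apply, map_eq_zero_iff _ (RingHom.injective _),
    map_eq_zero_iff _ (IsFractionRing.injective (R ⧸ P) (FractionRing (R ⧸ P))),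
    Ideal.Quotient.eq_zero_iff_mem] using this

theorem inj {e : R} (he : IsNilpotent e) {g : H} (h0 : φ g = 1)
    (h1 : ((Ideal.Quotient.mk (Ideal.span {e})).mapMatrix.toMonoidHom.comp σ) g = 1) : g = 1 := by
  have : Fact (Nat.Prime 3) := ⟨Nat.prime_three⟩
  let Γ : Subgroup H :=
    φ.ker ⊓ ((Ideal.Quotient.mk (Ideal.span {e})).mapMatrix.toMonoidHom.comp σ).ker
  have hΓ : IsPGroup 3 Γ := by
    rintro ⟨g, g0, g1⟩
    obtain ⟨n, hn⟩ := he
    have : ∀ i j, ∃ y, y * e = (σ g - 1) i j := fun i j => Ideal.mem_span_singleton'.1 (by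
      rw [← Ideal.Quotient.eq_zero_iff_mem, Matrix.sub_apply, map_sub, sub_eq_zero]
      have g2 : (σ g).map (Ideal.Quotient.mk (Ideal.span {e})) = 1 := g1
      have := congrFun (congrFun g2 i) j
      rw [Matrix.map_apply] at this
      rw [this]
      simp [Matrix.one_apply])
    choose Y hY using this
    have e1 : σ g = 1 + e • Matrix.of Y := by
      ext i j
      have := hY i j
      simp only [Matrix.sub_apply, Matrix.add_apply, Matrix.smul_apply, Matrix.of_apply,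
        smul_eq_mul] at this ⊢
      linear_combination -this
    refine ⟨n, Subtype.ext (p.faith (g ^ 3 ^ n) (by rw [map_pow, MonoidHom.mem_ker.1 g0, one_pow]) ?_)⟩
    rw [map_pow, e1, pow3_H5, smul_pow,
      pow_eq_zero_of_le (Nat.lt_pow_self (by norm_num)).le hn, zero_smul, add_zero]
    rw [← map_ofNat (algebraMap R _) 3, p.t.r3, map_zero]
  by_contra g1
  have : Nontrivial Γ := ⟨⟨⟨g, h0, h1⟩, 1, fun h => g1 (congrArg Subtype.val h)⟩⟩
  have := hΓ.center_nontrivial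
  obtain ⟨⟨⟨z, zΓ⟩, zc⟩, z1⟩ := exists_ne (1 : Subgroup.center Γ)
  have cz : ∀ y ∈ D, Commute z y := fun y hy => by
    have n : Γ.Normal := inferInstance
    refine p.S.qn hy (P := Γ ⊔ Subgroup.closure {y}) (hΓ.to_sup_of_normal_left (pg_of_comm
      (by rintro _ rfl; exact p.S.cube hy) (by rintro _ rfl _ rfl; rfl)))
      (Subgroup.mem_sup_right (Subgroup.subset_closure rfl))
      (A := {a | a ∈ Γ ∧ ∀ b ∈ Γ, Commute a b}) (fun a ha => Subgroup.mem_sup_left ha.1)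
      (fun a ha => ?_) (fun a ha b hb => ha.2 b hb.1)
      ⟨zΓ, fun b hb => congrArg Subtype.val (Subgroup.mem_center_iff.1 zc ⟨b, hb⟩).symm⟩
    have e : a * y * a⁻¹ * y⁻¹ = a * (y * a⁻¹ * y⁻¹) := by group
    rw [e]
    refine ⟨Γ.mul_mem ha.1 (n.conj_mem _ (Γ.inv_mem ha.1) y), fun b hb => (ha.2 b hb).mul_left ?_⟩
    have := (ha.2 _ (n.conj_mem b hb y⁻¹)).inv_left
    show _ * b = b * _
    calc _ = y * (a⁻¹ * (y⁻¹ * b * y⁻¹⁻¹)) * y⁻¹ := by group
      _ = _ := by rw [this.eq]; group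
  obtain ⟨n, hn⟩ := hΓ ⟨z, zΓ⟩
  refine z1 (Subtype.ext (Subtype.ext (p.faith z zΓ.1 ?_)))
  rw [p.uni (congrArg Subtype.val hn) (cz d p.hd), p.t.tri' (cz w p.hw), Matrix.one_fin_two]

theorem main {M : Subgroup H}
    (cf : ∀ e ∈ D, Commute d e → ∀ g, Commute (d * e) g → d * e = 1 ∨ g ∈ M) (wM : w ∉ M) :
    Br d w ∨ Br d w⁻¹ ∨ (φ d = 1 ∧ x ^ 2 + 1 = 0) := by
  have t := p.t.map (Ideal.Quotient.mk (Ideal.span {x ^ 4 - 1}))
  have inj := fun g => p.inj p.nil (g := g)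
  have c4 : Ideal.Quotient.mk (Ideal.span {x ^ 4 - 1}) x ^ 4 = 1 := by
    rw [← map_pow, ← map_one (Ideal.Quotient.mk _), Ideal.Quotient.eq]
    exact Ideal.mem_span_singleton_self _
  have nl : Ideal.Quotient.mk (Ideal.span {x ^ 4 - 1}) x ^ 2 + 1 = 0 → IsNilpotent (x ^ 2 + 1) :=
    fun h => by
      obtain ⟨y, hy⟩ := Ideal.mem_span_singleton'.1 (Ideal.Quotient.eq_zero_iff_mem.1
        (show Ideal.Quotient.mk (Ideal.span {x ^ 4 - 1}) (x ^ 2 + 1) = 0 by simpa using h))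
      exact hy ▸ (Commute.all _ _).isNilpotent_mul_left p.nil
  generalize (Ideal.Quotient.mk (Ideal.span {x ^ 4 - 1})).mapMatrix.toMonoidHom.comp σ = τ at *
  generalize Ideal.Quotient.mk (Ideal.span {x ^ 4 - 1}) x = c at *
  have r3 := t.r3
  have i2 : ∀ a b, φ a = φ b → τ a = τ b → a = b := fun a b h h' => mul_inv_eq_one.1 (inj _
    (by rw [map_mul, map_inv, h, mul_inv_cancel])
    (by rw [map_mul, h', ← map_mul, mul_inv_cancel, map_one]))
  have cm : ∀ a b, τ a * τ b = τ b * τ a → Commute a b := fun a b h =>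
    i2 _ _ (by rw [map_mul, map_mul, mul_comm]) (by rw [map_mul, map_mul, h])
  have cj : ∀ a b, φ (a * b * a⁻¹) = φ b := fun a b => by
    rw [map_mul, map_mul, mul_right_comm, ← map_mul, mul_inv_cancel, map_one, one_mul]
  have five : c ^ 2 = 1 → Br d w ∨ Br d w⁻¹ := fun h => by
    obtain ⟨k1, hk1⟩ : ∃ k, k = d * (d * w⁻¹) ^ 3 * d⁻¹ := ⟨_, rfl⟩
    obtain ⟨k2, hk2⟩ : ∃ k, k = d * (d * w) ^ 3 * d⁻¹ := ⟨_, rfl⟩
    have a1 : τ k1 = _ := hk1 ▸ t.k1 h
    have a2 : τ k2 = _ := hk2 ▸ t.k2 h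
    have a3 := t.w2 h (k := k1 * k2) (by rw [hk1, hk2])
    have q := p.S.conj p.hw (k1 * k2)⁻¹
    have f2 : φ ((k1 * k2)⁻¹ * w * (k1 * k2)⁻¹⁻¹) = φ w := cj _ _
    have ew : w = k1 * k2 * ((k1 * k2)⁻¹ * w * (k1 * k2)⁻¹⁻¹) * (k1 * k2)⁻¹ := by group
    generalize (k1 * k2)⁻¹ * w * (k1 * k2)⁻¹⁻¹ = v at *
    have a4 : τ v⁻¹ = !![1, 1; 0, 1] := inv_eq_m (by
      rw [a3, Matrix.mul_fin_two, Matrix.one_fin_two]
      exact m2 (by ring) (by ring) (by ring) (by ring))
    have cv : Commute d v := cm _ _ (by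
      rw [a3, t.d, Matrix.mul_fin_two, Matrix.mul_fin_two]
      exact m2 (by ring) (by ring) (by ring) (by ring))
    by_cases h1 : d * v⁻¹ = 1
    · obtain rfl := mul_inv_eq_one.1 h1
      have : c = -1 := by simpa [t.d] using congrFun (congrFun a3 0) 1
      refine .inl (i2 _ _ (by simp only [map_mul, f2]) ?_)
      simp only [map_mul, t.d, t.w, Matrix.mul_fin_two]
      exact m2 (by grind) (by grind) (by grind) (by grind)
    by_cases h2 : d * v = 1
    · obtain rfl := eq_inv_of_mul_eq_one_left h2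
      have : c = 1 := by simpa [t.d] using congrFun (congrFun a4 0) 1
      refine .inr (i2 _ _ (by simp only [map_mul, map_inv, f2]) ?_)
      simp only [map_mul, t.d, t.wi, Matrix.mul_fin_two]
      exact m2 (by grind) (by grind) (by grind) (by grind)
    have b1 : k1 ∈ M := (cf _ (p.S.inv q) cv.inv_right _ (cm _ _ (by
      simp only [map_mul, a1, a4, t.d, Matrix.mul_fin_two]
      exact m2 (by grind) (by grind) (by grind) (by grind)))).resolve_left h1
    have b2 : k2 ∈ M := (cf _ q cv _ (cm _ _ (by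
      simp only [map_mul, a2, a3, t.d, Matrix.mul_fin_two]
      exact m2 (by grind) (by grind) (by grind) (by grind)))).resolve_left h2
    have b3 : v ∈ M := (cf _ q cv _ (cv.mul_left (Commute.refl v))).resolve_left h2
    exact (wM (ew ▸ M.mul_mem (M.mul_mem (M.mul_mem b1 b2) b3) (M.inv_mem (M.mul_mem b1 b2)))).elim
  obtain ⟨k, hk⟩ : ∃ k, k = w * d * w * d * w * (d⁻¹ * w * d⁻¹ * w) := ⟨_, rfl⟩
  have e1 := t.h0 c4 hk
  have f0 := cj k d
  rcases p.key (p.S.conj p.hd k) (cm _ _ (by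
      rw [e1, t.d, Matrix.mul_fin_two, Matrix.mul_fin_two]
      exact m2 (by ring) (by ring) (by ring) (by ring))) f0 with h | h | h
  · exact (p.d1 (by simpa using h)).elim
  · rw [h] at e1
    have : c = c ^ 3 := by simpa [t.d] using congrFun (congrFun e1 0) 1
    exact (five (by linear_combination c * this + c4)).imp_right .inl
  · rw [h] at e1 f0
    have f1 : φ d = 1 := eq_of_sq_cube (by rw [map_inv] at f0; nth_rewrite 1 [← f0]; simp) (p.cube _)
    have : -c = c ^ 3 := by simpa [t.di] using congrFun (congrFun e1 0) 1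
    have h5 : c ^ 2 + 1 = 0 := by linear_combination -c * this - c4
    have h6 := (p.t.tri p.xu (cm ((d * w) ^ 5) d (by
      rw [t.g5' h5, t.d, Matrix.mul_fin_two, Matrix.mul_fin_two]
      exact m2 (by ring) (by ring) (by ring) (by ring)))).1
    rw [p.t.g5] at h6
    have := p.t.r3
    exact .inr (.inr ⟨f1, ((Commute.all _ x).isNilpotent_mul_right
      (nl h5)).isUnit_one_sub.mul_left_eq_zero.1 (by grind)⟩)

end PD

end Pool.Agent.MP_a5588a_al.Full
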