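import Pool.Agent.MP_a5588a_al.Full.H5P
import Pool.Agent.MP_a5588a_al.Full.R2

/-! The pair lemma for two quadratic elements acting on a finite module. -/

namespace Pool.Agent.MP_a5588a_al.Full

theorem comm_of_conj {G : Type*} [Group G] [Finite G] (hG : IsPGroup 3 G) {a b x : G}
    (gen : Subgroup.closure {a, b} = ⊤) (c : Commute a (x⁻¹ * b * x⁻¹⁻¹)) (a3 : a ^ 3 = 1)
    (b3 : b ^ 3 = 1) : (∀ g h : G, g * h = h * g) ∧ ∀ g : G, g ^ 3 = 1 := by
  have : Fact (Nat.Prime 3) := ⟨Nat.prime_three⟩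
  have := hG.isNilpotent
  have top : Subgroup.closure {a, x⁻¹ * b * x⁻¹⁻¹} = ⊤ := by
    refine (eq_top_or_exists_le_coatom _).resolve_right fun ⟨K, hK, le⟩ => hK.1 ?_
    have n := Subgroup.NormalizerCondition.normal_of_coatom K
      Group.normalizerCondition_of_isNilpotent hK
    rw [eq_top_iff, ← gen, Subgroup.closure_le]
    rintro _ (rfl | rfl)
    · exact le (Subgroup.subset_closure (by simp))
    · simpa [mul_assoc] using n.conj_mem _ (le (Subgroup.subset_closure
        (Set.mem_insert_of_mem _ rfl))) x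
  have c3 : (x⁻¹ * b * x⁻¹⁻¹) ^ 3 = 1 := by rw [conj_pow, b3]; group
  generalize x⁻¹ * b * x⁻¹⁻¹ = e at *
  have c1 : ∀ g, Commute g a ∧ Commute g e := fun g => by
    have : g ∈ Subgroup.closure {a, e} := top ▸ trivial
    induction this using Subgroup.closure_induction with
    | mem y hy => rcases hy with rfl | rfl; exacts [⟨.refl _, c⟩, ⟨c.symm, .refl _⟩]
    | one => exact ⟨.one_left _, .one_left _⟩
    | mul y z _ _ p q => exact ⟨p.1.mul_left q.1, p.2.mul_left q.2⟩
    | inv y _ p => exact ⟨p.1.inv_left, p.2.inv_left⟩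
  have c2 : ∀ g h : G, Commute g h := fun g h => by
    have : h ∈ Subgroup.closure {a, e} := top ▸ trivial
    induction this using Subgroup.closure_induction with
    | mem y hy => rcases hy with rfl | rfl; exacts [(c1 g).1, (c1 g).2]
    | one => exact .one_right _
    | mul y z _ _ p q => exact p.mul_right q
    | inv y _ p => exact p.inv_right
  refine ⟨c2, fun g => ?_⟩
  have : g ∈ Subgroup.closure {a, e} := top ▸ trivial
  induction this using Subgroup.closure_induction with
  | mem y hy => rcases hy with rfl | rfl <;> assumption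
  | one => exact one_pow 3
  | mul y z _ _ p q => rw [(c2 y z).mul_pow, p, q, one_mul]
  | inv y _ p => rw [inv_pow, p, inv_one]

variable {J V R : Type*} [Group J] [AddCommGroup V] [CommRing R] [Module R V]
  {ρ : J →* AddMonoid.End V} {d w : J} {X : R} {B B' : V →ₗ[R] V} {N : ℕ}

theorem span_step {a b : Module.End R V} {X : R} (ha : a * a = 0) (hb : b * b = 0)
    (hX : a * b + b * a = X • 1) (r β γ δ : R) : ∃ Y : Module.End R V,
    ((X * r) • 1 + β • a + γ • b + δ • (a * b)) * ((X * r) • 1 + β • a + γ • b + δ • (a * b)) =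
      X • Y := by
  have e : b * a = X • 1 - a * b := eq_sub_of_add_eq' hX
  have e1 : a * (a * b) = 0 := by rw [← mul_assoc, ha, zero_mul]
  have e2 : a * b * b = 0 := by rw [mul_assoc, hb, mul_zero]
  have e3 : a * b * a = X • a := by rw [mul_assoc, e, mul_sub, e1]; simp
  have e4 : b * (a * b) = X • b := by rw [← mul_assoc, e, sub_mul, e2]; simp
  have e5 : a * b * (a * b) = X • (a * b) := by rw [← mul_assoc, e3, smul_mul_assoc]
  refine ⟨(X * r * r + β * γ) • 1 + (2 * r * β + δ * β) • a + (2 * r * γ + γ * δ) • b +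
    (2 * r * δ + δ * δ) • (a * b), ?_⟩
  simp only [mul_add, add_mul, smul_mul_assoc, mul_smul_comm, one_mul, mul_one, ha, hb, e, e1, e2,
    e3, e4, e5]
  module

namespace Two

variable (t : Two ρ d w X B B' N)
include t

theorem span {x : J} (hx : x ∈ Subgroup.closure {d, w}) : ∃ r β γ δ : R, ∀ v,
    ρ x v = v + (X * r) • v + β • B v + γ • B' v + δ • B (B' v) := by
  have e1 : ∀ v, B' (B v) = X • v - B (B' v) := fun v => eq_sub_of_add_eq' (t.hX v).symm
  have e2 : ∀ v, B' (B (B' v)) = X • B' v := fun v => by rw [e1, t.BB', map_zero, sub_zero]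
  induction hx using Subgroup.closure_induction_left with
  | one => exact ⟨0, 0, 0, 0, fun v => by simp⟩
  | mul_left g hg y _ ih =>
    obtain ⟨r, β, γ, δ, h⟩ := ih
    rcases hg with rfl | rfl
    · refine ⟨r, β + 1 + X * r, γ, δ + γ, fun v => ?_⟩
      rw [mul_ap, h, t.hd]
      simp only [map_add, map_smul, t.BB]
      module
    · refine ⟨r + β, β, γ + 1 + X * r + δ * X, δ - β, fun v => ?_⟩
      rw [mul_ap, h, t.hw]
      simp only [map_add, map_smul, t.BB', e2]
      rw [e1]
      module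
  | inv_mul_cancel g hg y _ ih =>
    obtain ⟨r, β, γ, δ, h⟩ := ih
    rcases hg with rfl | rfl
    · refine ⟨r, β - 1 - X * r, γ, δ - γ, fun v => ?_⟩
      rw [mul_ap, h, inv_quad t.hd t.BB]
      simp only [map_add, map_smul, t.BB]
      module
    · refine ⟨r - β, β, γ - 1 - X * r - δ * X, δ + β, fun v => ?_⟩
      rw [mul_ap, h, inv_quad t.hw t.BB']
      simp only [map_add, map_smul, t.BB', e2]
      rw [e1]
      module

theorem pow_fix (h3 : ∀ v : V, v + v + v = 0) {x : J} (hx : x ∈ Subgroup.closure {d, w}) (v : V) :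
    ρ (x ^ 3 ^ (2 * N)) (v - X ^ N • v) = v - X ^ N • v := by
  obtain ⟨r, β, γ, δ, h⟩ := t.span hx
  obtain ⟨Y, hY⟩ := span_step (a := B) (b := B') (X := X) (LinearMap.ext t.BB)
    (LinearMap.ext t.BB') (LinearMap.ext fun v => (t.hX v).symm) r β γ δ
  generalize hn : ((X * r) • 1 + β • B + γ • B' + δ • (B * B') : Module.End R V) = n at hY
  have e : ∀ k v, ρ (x ^ k) v = ((1 + n) ^ k) v := fun k => by
    induction k with
    | zero => simp
    | succ k ih =>
      intro v
      rw [pow_succ, pow_succ, mul_ap, ih, Module.End.mul_apply, h, ← hn]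
      simp [add_assoc]
  obtain ⟨k, hk⟩ := Nat.exists_eq_add_of_le' (Nat.lt_pow_self (a := 3) (n := 2 * N) (by norm_num)).le
  rw [e, pow3_H5 (LinearMap.ext fun v => by
    rw [show (3 : Module.End R V) = 1 + 1 + 1 by norm_num]; exact h3 v), hk, pow_add, pow_mul, sq,
    hY, smul_pow]
  have z : (X ^ N • Y ^ N) (v - X ^ N • v) = 0 := by
    rw [LinearMap.smul_apply, ← map_smul, smul_sub, t.hN, sub_self, map_zero]
  rw [LinearMap.add_apply, Module.End.mul_apply, z, map_zero, add_zero, Module.End.one_apply]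

theorem dec (v : V) : ∃ u u', B u = 0 ∧ B u' = 0 ∧ X ^ N • v = X ^ N • u + B' (X ^ N • u') := by
  obtain ⟨k, hk⟩ := Nat.exists_eq_succ_of_ne_zero t.N0.ne'
  refine ⟨X ^ k • B (B' v), X ^ k • B v, by simp [t.BB], by simp [t.BB], ?_⟩
  rw [← t.hN v]
  nth_rewrite 2 [hk]
  rw [pow_succ, mul_smul, t.hX]
  simp

theorem pair [Finite J] [Finite V] {D : Set J} (S : Star ρ D) (hd : d ∈ D) (hw : w ∈ D) (d1 : d ≠ 1)
    (gen : Subgroup.closure {d, w} = ⊤) {M : Subgroup J}
    (cf : ∀ e ∈ D, Commute d e → ∀ g, Commute (d * e) g → d * e = 1 ∨ g ∈ M) (wM : w ∉ M) :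
    Br d w ∨ Br d w⁻¹ ∨ T5 ρ d w := by
  have m : ∀ x, x ∈ Subgroup.closure {d, w} := fun x => gen ▸ trivial
  have h3 : ∀ v : V, v + v + v = 0 := fun v => by
    have := DFunLike.congr_fun S.three v
    rwa [show (3 : AddMonoid.End V) = 1 + 1 + 1 by norm_num] at this
  have z0 : ∀ x v, ρ x (v - X ^ N • v) = ρ x v - X ^ N • ρ x v := fun x v => by
    rw [map_sub, t.lin (m x)]
  let K : Subgroup J :=
    { carrier := {x | ∀ v, ρ x (v - X ^ N • v) = v - X ^ N • v}
      mul_mem' := fun a b v => by rw [mul_ap, b, a]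
      one_mem' := fun v => by simp
      inv_mem' := fun {x} a v => by
        conv_lhs => rw [← a v, ← mul_ap, inv_mul_cancel, map_one]
        rfl }
  have Kn : K.Normal := ⟨fun x a g v => by
    rw [mul_ap, mul_ap, z0, a, ← z0, ← mul_ap, mul_inv_cancel, map_one]; rfl⟩
  obtain ⟨x, -, P, hP, dP, wP⟩ := syl_conj (S.cube hd) (S.cube hw)
  obtain ⟨cm, c3⟩ := comm_of_conj (G := J ⧸ K) (a := d) (b := w) (x := x) (fun g => by
      obtain ⟨g, rfl⟩ := QuotientGroup.mk_surjective g
      exact ⟨2 * N, (QuotientGroup.eq_one_iff (g ^ 3 ^ (2 * N))).2 (t.pow_fix h3 (m g))⟩)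
    (by simpa [Set.image_pair, gen, Subgroup.map_top_of_surjective _ (QuotientGroup.mk'_surjective K)]
      using (MonoidHom.map_closure (QuotientGroup.mk' K) {d, w}).symm)
    ((S.comm hP hd (S.conj hw x⁻¹) dP wP).map (QuotientGroup.mk' K))
    (by rw [← QuotientGroup.mk_pow, S.cube hd]; rfl) (by rw [← QuotientGroup.mk_pow, S.cube hw]; rfl)
  let _ : CommGroup (J ⧸ K) := { (inferInstance : Group (J ⧸ K)) with mul_comm := cm }
  let a : Ideal R :=
    { carrier := {r | ∀ u, B u = 0 → r • X ^ N • u = 0}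
      add_mem' := fun h h' u hu => by rw [add_smul, h u hu, h' u hu, add_zero]
      zero_mem' := fun u _ => zero_smul _ _
      smul_mem' := fun r s h u hu => by rw [smul_eq_mul, mul_smul, h u hu, smul_zero] }
  choose A hA _ using fun x : J => t.ex (m x)
  have e : ∀ x A', Rel ρ B B' x A' → (A x).map (Ideal.Quotient.mk a) =
      A'.map (Ideal.Quotient.mk a) := fun x A' h => by
    ext i j
    exact Ideal.Quotient.eq.2 fun u hu => t.rel_uniq (hA x) h hu i j
  let σ : J →* Matrix (Fin 2) (Fin 2) (R ⧸ a) :=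
    { toFun := fun x => (A x).map (Ideal.Quotient.mk a)
      map_one' := by rw [e 1 1 .one, Matrix.map_one _ (map_zero _) (map_one _)]
      map_mul' := fun x y => by rw [e (x * y) _ ((hA x).mul (hA y)), Matrix.map_mul] }
  have act : ∀ g y, σ g = !![1, Ideal.Quotient.mk a y; 0, 1] → ∀ u u', B u = 0 → B u' = 0 →
      ρ g (X ^ N • u + B' (X ^ N • u')) = X ^ N • u + B' (X ^ N • u') + y • X ^ N • u' := by
    intro g y h u u' hu hu'
    have h0 : A g 0 0 - 1 ∈ a := Ideal.Quotient.eq.1 (congrFun (congrFun h 0) 0)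
    have h1 : A g 0 1 - y ∈ a := Ideal.Quotient.eq.1 (congrFun (congrFun h 0) 1)
    have h2 : A g 1 0 - 0 ∈ a := Ideal.Quotient.eq.1 (congrFun (congrFun h 1) 0)
    have h3 : A g 1 1 - 1 ∈ a := Ideal.Quotient.eq.1 (congrFun (congrFun h 1) 1)
    have k : ∀ r s u, r - s ∈ a → B u = 0 → r • X ^ N • u = s • X ^ N • u := fun r s u h hu => by
      rw [← sub_eq_zero, ← sub_smul]; exact h u hu
    rw [hA g _ _ (by simp [hu]) (by simp [hu']), k _ _ _ h0 hu, k _ _ _ h1 hu', k _ _ _ h2 hu,
      k _ _ _ h3 hu', one_smul, one_smul, zero_smul, zero_add]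
    abel
  have sp : ∀ g v, ρ g v = ρ g (v - X ^ N • v) + ρ g (X ^ N • v) := fun g v => by
    rw [← map_add, sub_add_cancel]
  have p : PD ρ D (QuotientGroup.mk' K) σ d w (Ideal.Quotient.mk a X) := by
    refine ⟨S, hd, hw, d1, gen, c3, ⟨?_, ?_, ?_⟩, ?_, fun g h0 h1 => S.inj ?_, fun g y h1 h0 => ?_⟩
    · rw [← map_ofNat (Ideal.Quotient.mk a) 3, Ideal.Quotient.eq_zero_iff_mem]
      intro u _
      rw [show (3 : R) = 1 + 1 + 1 by norm_num, add_smul, add_smul, one_smul, h3]
    · refine (e d _ t.rel_d).trans ?_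
      ext i j; fin_cases i <;> fin_cases j <;> simp
    · refine (e w _ t.rel_w).trans ?_
      ext i j; fin_cases i <;> fin_cases j <;> simp
    · refine (isUnit_pow_iff t.N0.ne').1 ?_
      rw [← map_pow, show Ideal.Quotient.mk a (X ^ N) = Ideal.Quotient.mk a 1 from
        Ideal.Quotient.eq.2 fun u _ => by rw [sub_smul, t.hN, one_smul, sub_self], map_one]
      exact isUnit_one
    · ext v
      obtain ⟨u, u', hu, hu', h⟩ := t.dec v
      rw [sp, (QuotientGroup.eq_one_iff g).1 h0 v, h, act g 0 (by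
        rw [h1, map_zero, Matrix.one_fin_two]) u u' hu hu', ← h]
      simp
    · obtain ⟨y, rfl⟩ := Ideal.Quotient.mk_surjective y
      have hk : ∀ v, ρ g (v - X ^ N • v) = v - X ^ N • v + B (v - X ^ N • v) := fun v => by
        have := (QuotientGroup.eq_one_iff (N := K) (g * d⁻¹)).1
          (by change QuotientGroup.mk' K _ = 1; rw [map_mul, map_inv, h0, mul_inv_cancel]) (ρ d v)
        rw [← z0, ← mul_ap, inv_mul_cancel_right] at this
        rw [this, t.hd]
      refine AddMonoidHom.ext fun v => sub_eq_zero.2 ?_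
      change ρ d (ρ g v - v) = ρ g v - v
      obtain ⟨u, u', hu, hu', h⟩ := t.dec v
      have : ρ g v - v = B (v - X ^ N • v) + y • X ^ N • u' := by
        rw [sp, hk]
        nth_rewrite 3 [h]
        rw [act g y h1 u u' hu hu', ← h]
        abel
      rw [t.hd, add_eq_left, this]
      simp [hu', t.BB]
  refine (p.main cf wM).imp_right (Or.imp_right fun ⟨h0, h1⟩ => AddMonoidHom.ext fun v => ?_)
  have b : ∀ v, (ρ d - 1) v = B v := fun v => by
    change ρ d v - v = _
    rw [t.hd, add_sub_cancel_left]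
  have b' : ∀ v, (ρ w - 1) v = B' v := fun v => by
    change ρ w v - v = _
    rw [t.hw, add_sub_cancel_left]
  change (ρ d - 1) ((ρ w - 1) ((ρ d - 1) ((ρ w - 1) ((ρ d - 1) v)))) = -(ρ d - 1) v
  have h2 := (QuotientGroup.eq_one_iff d).1 h0 v
  rw [t.hd, add_eq_left, map_sub, map_smul, sub_eq_zero] at h2
  have h4 := (Ideal.Quotient.eq_zero_iff_mem (I := a) (a := X ^ 2 + 1)).1
    (by rw [map_add, map_pow, map_one, h1]) (B v) (t.BB v)
  rw [← h2, add_smul, one_smul, sq, mul_smul] at h4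
  simp only [b, b']
  rw [t.BB'_eq (t.BB v), t.BB'_eq (by simp [t.BB])]
  exact eq_neg_of_add_eq_zero_left h4

end Two

theorem Star.sub {L E : Type*} [Group L] [Ring E] {ρ : L →* E} {D : Set L} (S : Star ρ D)
    (H : Subgroup L) : Star (ρ.comp H.subtype) {x | x.1 ∈ D} :=
  ⟨S.three, S.inj.comp H.subtype_injective, S.quad, fun h g => S.conj h g, S.inv,
    fun d a e b c z => by
      simp only [Subtype.ext_iff]
      exact S.star d a e b (c.map H.subtype) z⟩

/-- The pair lemma. -/
theorem Star.pair [Finite J] [Finite V] {D : Set J} (S : Star ρ D) (hd : d ∈ D) (hw : w ∈ D)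
    (d1 : d ≠ 1) {M : Subgroup J}
    (cf : ∀ e ∈ D, Commute d e → ∀ g, Commute (d * e) g → d * e = 1 ∨ g ∈ M) (wM : w ∉ M) :
    Br d w ∨ Br d w⁻¹ ∨ T5 ρ d w := by
  let H := Subgroup.closure ({d, w} : Set J)
  let d' : H := ⟨d, Subgroup.subset_closure (by simp)⟩
  let w' : H := ⟨w, Subgroup.subset_closure (by simp)⟩
  obtain ⟨_, B, B', N, t, -⟩ := exists_two (ρ := ρ.comp H.subtype) (d := d') (w := w')
    (fun v => sub_eq_zero.1 (DFunLike.congr_fun (S.quad hd) v))
    (fun v => sub_eq_zero.1 (DFunLike.congr_fun (S.quad hw) v))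
  refine (t.pair (S.sub H) hd hw (fun h => d1 (congrArg Subtype.val h)) ?_ (M := M.subgroupOf H)
    (fun e q c g c' => (cf e q (c.map H.subtype) g (c'.map H.subtype)).imp_left Subtype.ext)
    wM).imp (congrArg Subtype.val) (Or.imp_left (congrArg Subtype.val))
  apply Subgroup.map_injective H.subtype_injective
  rw [MonoidHom.map_closure, Set.image_pair, ← MonoidHom.range_eq_map, Subgroup.range_subtype]
  rfl

end Pool.Agent.MP_a5588a_al.Full
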