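import Mathlib

/-! The ascending chain of a set of endomorphisms; three-groups act unitriangularly, and two
quadratic elements with nilpotent product generate a three-group. -/

namespace Pool.Agent.MP_a5588a_al.Full

variable {G V : Type*} [Group G] [AddCommGroup V]

/-- `up T i` is the set of vectors killed by every product of `i` members of `T`. -/
def up (T : Set (AddMonoid.End V)) : ℕ → AddSubgroup V
  | 0 => ⊥
  | i + 1 => ⨅ t ∈ T, (up T i).comap t

theorem mem_up {T : Set (AddMonoid.End V)} {i : ℕ} {v : V} :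
    v ∈ up T (i + 1) ↔ ∀ t ∈ T, t v ∈ up T i := by
  simp only [up, AddSubgroup.mem_iInf, AddSubgroup.mem_comap]
  rfl

theorem up_le (T : Set (AddMonoid.End V)) (i : ℕ) : up T i ≤ up T (i + 1) := by
  induction i with
  | zero => exact bot_le
  | succ i ih => exact fun v hv => mem_up.2 fun t ht => ih (mem_up.1 hv t ht)

/-- The endomorphisms that lower the chain. -/
def low (T : Set (AddMonoid.End V)) : NonUnitalSubring (AddMonoid.End V) where
  carrier := {x | ∀ i, ∀ v ∈ up T (i + 1), x v ∈ up T i}
  add_mem' hx hy i v hv := (up T i).add_mem (hx i v hv) (hy i v hv)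
  zero_mem' i _ _ := (up T i).zero_mem
  neg_mem' hx i v hv := (up T i).neg_mem (hx i v hv)
  mul_mem' hx hy i v hv := hx i _ (up_le T i (hy i v hv))

theorem le_low {T : Set (AddMonoid.End V)} {t : AddMonoid.End V} (ht : t ∈ T) : t ∈ low T :=
  fun _ _ hv => mem_up.1 hv t ht

theorem low_nil {T : Set (AddMonoid.End V)} {n : ℕ} (hn : up T n = ⊤) {x : AddMonoid.End V}
    (hx : x ∈ low T) : x ^ n = 0 := by
  have : ∀ i, ∀ v ∈ up T i, (x ^ i) v = 0 := fun i => by
    induction i with
    | zero => exact fun v hv => hv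
    | succ i ih => exact fun v hv => by rw [pow_succ]; exact ih _ (hx i v hv)
  exact AddMonoidHom.ext fun v => this n v (hn ▸ trivial)

theorem three_eq (h3 : ∀ v : V, v + v + v = 0) : (3 : AddMonoid.End V) = 0 := by
  rw [show (3 : AddMonoid.End V) = 1 + 1 + 1 by norm_num]
  exact AddMonoidHom.ext h3

theorem pow_three_pow {R : Type*} [Ring R] (h3 : (3 : R) = 0) (x : R) (n : ℕ) :
    (1 + x) ^ 3 ^ n = 1 + x ^ 3 ^ n := by
  induction n with
  | zero => simp
  | succ n ih =>
    rw [pow_succ, pow_mul, pow_mul, ih]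
    generalize x ^ 3 ^ n = y
    linear_combination (norm := noncomm_ring) h3 * (y + y * y)

variable (ρ : G →* AddMonoid.End V)

/-- The group elements that act trivially on the factors of the chain. -/
def uni (T : Set (AddMonoid.End V)) : Subgroup G where
  carrier := {g | ρ g - 1 ∈ low T ∧ ρ g⁻¹ - 1 ∈ low T}
  one_mem' := by simp
  inv_mem' h := ⟨h.2, by simpa using h.1⟩
  mul_mem' {a b} ha hb := by
    have e : ∀ x y : G, ρ x - 1 ∈ low T → ρ y - 1 ∈ low T → ρ (x * y) - 1 ∈ low T := by
      intro x y hx hy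
      convert (low T).add_mem ((low T).mul_mem hx hy) ((low T).add_mem hx hy) using 1
      rw [map_mul]
      noncomm_ring
    exact ⟨e _ _ ha.1 hb.1, by rw [mul_inv_rev]; exact e _ _ hb.2 ha.2⟩

/-- The endomorphisms `p - 1`. -/
def aug (P : Subgroup G) : Set (AddMonoid.End V) := {x | ∃ p ∈ P, ρ p - 1 = x}

variable {ρ}

theorem uni_pgroup (hρ : Function.Injective ρ) (h3 : ∀ v : V, v + v + v = 0)
    {T : Set (AddMonoid.End V)} {n : ℕ} (hn : up T n = ⊤) : IsPGroup 3 (uni ρ T) := by
  rintro ⟨g, hg⟩
  refine ⟨n, Subtype.ext (hρ ?_)⟩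
  have := pow_three_pow (three_eq h3) (ρ g - 1) n
  rw [pow_eq_zero_of_le (Nat.lt_pow_self (by norm_num)).le (low_nil hn hg.1)] at this
  simpa using this

theorem aug_low {P : Subgroup G} {p : G} (hp : p ∈ P) : ρ p - 1 ∈ low (aug ρ P) :=
  le_low ⟨p, hp, rfl⟩

/-- A three-group acts unitriangularly. -/
theorem up_aug [Finite V] (h3 : ∀ v : V, v + v + v = 0) {P : Subgroup G} (hP : IsPGroup 3 P) :
    ∃ n, up (aug ρ P) n = ⊤ := by
  have : Fact (Nat.Prime 3) := ⟨Nat.prime_three⟩
  obtain ⟨n, hn⟩ : ∃ n, up (aug ρ P) (n + 1) ≤ up (aug ρ P) n := by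
    by_contra! h
    exact not_injective_infinite_finite _
      (strictMono_nat_of_lt_succ fun n => lt_of_le_not_ge (up_le (aug ρ P) n) (h n)).injective
  refine ⟨n, by_contra fun hW => ?_⟩
  set W := up (aug ρ P) n
  have inv : ∀ p : P, W ≤ W.comap (ρ p) := fun p v hv => by
    have := W.add_mem (aug_low p.2 n v (up_le _ n hv)) hv
    exact (sub_add_cancel (ρ p v) v ▸ this :)
  let _ : MulAction P (V ⧸ W) :=
    { smul p := QuotientAddGroup.map W W (ρ p) (inv p)
      one_smul q := by
        induction q using QuotientAddGroup.induction_on with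
        | H v => exact congrArg (fun w : V => (w : V ⧸ W)) (DFunLike.congr_fun ρ.map_one v)
      mul_smul p p' q := by
        induction q using QuotientAddGroup.induction_on with
        | H v =>
          exact congrArg (fun w : V => (w : V ⧸ W)) (DFunLike.congr_fun (ρ.map_mul p p') v) }
  obtain ⟨v, hv⟩ : ∃ v, v ∉ W := by
    by_contra! h
    exact hW (eq_top_iff.2 fun v _ => h v)
  have dvd : 3 ∣ Nat.card (V ⧸ W) := by
    rw [← addOrderOf_eq_prime (x := (v : V ⧸ W)) (p := 3) ?_ (by simpa using hv)]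
    · exact addOrderOf_dvd_natCard _
    · rw [← QuotientAddGroup.mk_nsmul, show 3 • v = v + v + v by abel, h3]; rfl
  obtain ⟨b, hb, b0⟩ := hP.exists_fixed_point_of_prime_dvd_card_of_fixed_point (V ⧸ W) dvd
    (a := 0) fun p => map_zero (QuotientAddGroup.map W W (ρ p) (inv p))
  induction b using QuotientAddGroup.induction_on with
  | H b =>
    refine b0 ((QuotientAddGroup.eq_zero_iff b).2 (hn (mem_up.2 ?_))).symm
    rintro _ ⟨p, hp, rfl⟩
    exact QuotientAddGroup.eq_iff_sub_mem.1 (hb ⟨p, hp⟩)

theorem inv_of_quad {x : G} (hx : (ρ x - 1) * (ρ x - 1) = 0) : ρ x⁻¹ - 1 = -(ρ x - 1) := by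
  have : ρ x⁻¹ * ρ x = 1 := by rw [← map_mul, inv_mul_cancel, map_one]
  linear_combination (norm := noncomm_ring) ρ x⁻¹ * hx - this * (ρ x - 2)

/-- Two quadratic elements with nilpotent product generate a three-group. -/
theorem pgroup_pair (hρ : Function.Injective ρ) (h3 : ∀ v : V, v + v + v = 0) {x y : G}
    (hx : (ρ x - 1) * (ρ x - 1) = 0) (hy : (ρ y - 1) * (ρ y - 1) = 0)
    (h : IsNilpotent ((ρ x - 1) * (ρ y - 1))) : IsPGroup 3 (Subgroup.closure {x, y}) := by
  have ix := inv_of_quad hx
  have iy := inv_of_quad hy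
  generalize ha : ρ x - 1 = a at *
  generalize hb : ρ y - 1 = b at *
  obtain ⟨n, hn⟩ : IsNilpotent (a * b + b * a) := by
    refine Commute.isNilpotent_add ?_ h ?_
    · unfold Commute SemiconjBy
      linear_combination (norm := noncomm_ring) a * hy * a - b * hx * b
    · obtain ⟨k, hk⟩ := h
      refine ⟨k + 1, ?_⟩
      rw [pow_succ, ← mul_assoc, mul_pow_mul, hk, mul_zero, zero_mul]
  have key : ∀ i v, ((a * b + b * a) ^ i) v = 0 → v ∈ up {a, b} (3 * i) := fun i => by
    induction i with
    | zero => exact fun v hv => hv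
    | succ i ih =>
      intro v hv
      have st : ∀ p q : AddMonoid.End V, p * p = 0 → q * q = 0 → p * q + q * p = a * b + b * a →
          ({p, q} : Set _) = {a, b} → p v ∈ up {a, b} (3 * i + 2) := by
        intro p q hp hq e s
        have z : ∀ (r : AddMonoid.End V) w j, r * r = 0 → r (r w) ∈ up {a, b} j := by
          intro r w j hr
          rw [show r (r w) = 0 from DFunLike.congr_fun hr w]
          exact zero_mem _
        rw [mem_up, ← s]
        rintro _ (rfl | rfl)
        · exact s ▸ z _ _ _ hp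
        rw [mem_up]
        rintro _ (rfl | rfl)
        swap
        · exact s ▸ z _ _ _ hq
        rw [s]
        refine ih _ ?_
        rw [← e] at hv ⊢
        rename_i q p
        have c : Commute p (p * q + q * p) := by
          unfold Commute SemiconjBy
          linear_combination (norm := noncomm_ring) hp * q - q * hp
        have : (p * q + q * p) ^ i * (p * q * p) = p * (p * q + q * p) ^ (i + 1) := by
          rw [(c.pow_right _).eq, pow_succ]
          linear_combination (norm := noncomm_ring) -((p * q + q * p) ^ i * q * hp)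
        exact (DFunLike.congr_fun this v).trans (by
          rw [AddMonoid.End.coe_mul, Function.comp_apply, hv, map_zero])
      rw [show 3 * (i + 1) = 3 * i + 2 + 1 by ring, mem_up]
      rintro _ (rfl | rfl)
      · exact st _ _ hx hy rfl rfl
      · exact st _ _ hy hx (add_comm _ _) (Set.pair_comm _ _)
  refine (uni_pgroup hρ h3 (T := {a, b}) (n := 3 * n)
    (eq_top_iff.2 fun v _ => key n v (by rw [hn]; rfl))).to_le ((Subgroup.closure_le _).2 ?_)
  have la : a ∈ low {a, b} := le_low (by simp)
  have lb : b ∈ low {a, b} := le_low (by simp)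
  rintro _ (rfl | rfl)
  · exact ⟨ha ▸ la, ix ▸ neg_mem la⟩
  · exact ⟨hb ▸ lb, iy ▸ neg_mem lb⟩

end Pool.Agent.MP_a5588a_al.Full
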