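import Mathlib

/-! Sylow subgroups and point stabilisers for a transitive action of degree prime to three. -/

namespace Pool.Agent.MP_a5588a_al.Full

open MulAction Subgroup

variable {G : Type*} [Group G] [Finite G]

omit [Finite G] in
theorem mem_smul_syl {S : Sylow 3 G} {g x : G} : x ∈ g • S ↔ g⁻¹ * x * g ∈ S :=
  mem_pointwise_smul_iff_inv_smul_mem (a := MulAut.conj g) (S := (S : Subgroup G)) (x := x)

theorem conj_into {H A B : Subgroup G} (hA : A ≤ H) (hB : B ≤ H) (pA : IsPGroup 3 A)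
    (pB : IsPGroup 3 B) :
    ∃ g ∈ H, ∃ P : Subgroup G, IsPGroup 3 P ∧ P ≤ H ∧ A ≤ P ∧ ∀ b ∈ B, g * b * g⁻¹ ∈ P := by
  have : Fact (Nat.Prime 3) := ⟨Nat.prime_three⟩
  obtain ⟨S, hS⟩ := (pA.comap_subtype (K := H)).exists_le_sylow
  obtain ⟨S', hS'⟩ := (pB.comap_subtype (K := H)).exists_le_sylow
  obtain ⟨g, rfl⟩ := exists_smul_eq H S S'
  refine ⟨g⁻¹, H.inv_mem g.2, _, S.isPGroup'.map H.subtype, map_subtype_le _,
    fun a ha => ⟨⟨a, hA ha⟩, hS ha, rfl⟩, fun b hb => ?_⟩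
  exact ⟨_, mem_smul_syl.1 (hS' (show (⟨b, hB hb⟩ : H) ∈ B.comap H.subtype from hb)), by simp⟩

theorem norm_closure {Δ : Set G} {g : G} (h : ∀ x ∈ Δ, g * x * g⁻¹ ∈ closure Δ) :
    g ∈ normalizer (closure Δ : Set G) :=
  mem_normalizer_fintype fun _ hn => (closure_le ((closure Δ).comap (MulAut.conj g).toMonoidHom)).2
    h hn

theorem norm_of_gen {Δ : Set G} {A : Subgroup G} (gen : A ≤ closure (Δ ∩ A)) {g : G}
    (h : ∀ x ∈ Δ, x ∈ A → g * x * g⁻¹ ∈ A) : g ∈ normalizer (A : Set G) :=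
  mem_normalizer_fintype fun _ hn => (closure_le (A.comap (MulAut.conj g).toMonoidHom)).2
    (fun x hx => h x hx.1 hx.2) (gen hn)

/-- The chain lemma. -/
theorem chain {S A : Subgroup G} (hS : IsPGroup 3 S) {Δ : Set G}
    (hΔ : ∀ x ∈ Δ, ∀ g ∈ S, g * x * g⁻¹ ∈ Δ) (hA : A ≤ S) (gen : A ≤ closure (Δ ∩ A))
    (hx : ∃ x ∈ Δ, x ∈ S ∧ x ∉ A) :
    ∃ x ∈ Δ, x ∈ S ∧ x ∉ A ∧ x ∈ normalizer (A : Set G) := by
  have : Fact (Nat.Prime 3) := ⟨Nat.prime_three⟩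
  obtain ⟨B, hAB, hB⟩ := Finite.exists_le_maximal
    (p := fun B : Subgroup G => B ≤ S ∧ ∀ x ∈ Δ, x ∈ B → x ∈ A) (a := A) ⟨hA, fun _ _ h => h⟩
  have := hS.isNilpotent
  have h1 : B.subgroupOf S < ⊤ := lt_top_iff_ne_top.2 fun h => by
    obtain ⟨x, a, b, c⟩ := hx
    exact c (hB.1.2 x a (subgroupOf_eq_top.1 h b))
  obtain ⟨z, hz, hzB⟩ := SetLike.exists_of_lt (Group.normalizerCondition_of_isNilpotent _ h1)
  rw [← subgroupOf_normalizer_eq hB.1.1] at hz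
  by_contra! h
  refine hzB (hB.2 (y := S ⊓ normalizer (B : Set G)) ⟨inf_le_left, fun x a b => by_contra fun c =>
    h x a b.1 c (norm_of_gen gen fun y hy yA => ?_)⟩ (le_inf hB.1.1 le_normalizer) ⟨z.2, hz⟩)
  exact hB.1.2 _ (hΔ y hy x b.1) ((b.2 y).1 (hAB yA))

variable {Ω : Type*} [MulAction G Ω]

omit [Finite G] in
theorem exists_fix (hΩ : ¬ 3 ∣ Nat.card Ω) {P : Subgroup G} (hP : IsPGroup 3 P) :
    ∃ w : Ω, P ≤ stabilizer G w := by
  have : Fact (Nat.Prime 3) := ⟨Nat.prime_three⟩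
  have : Finite Ω := Nat.finite_of_card_ne_zero fun h => hΩ (h ▸ dvd_zero 3)
  obtain ⟨w, hw⟩ := hP.nonempty_fixed_point_of_prime_not_dvd_card Ω hΩ
  exact ⟨w, fun p hp => hw ⟨p, hp⟩⟩

omit [Finite G] in
theorem smul_syl_le {S : Sylow 3 G} {w : Ω} (h : (S : Subgroup G) ≤ stabilizer G w) (g : G) :
    (g • S : Sylow 3 G) ≤ stabilizer G (g • w) := fun x hx => by
  have : (g⁻¹ * x * g) • w = w := h (mem_smul_syl.1 hx)
  rwa [mul_smul, mul_smul, inv_smul_eq_iff] at this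

variable [IsPretransitive G Ω]

theorem exists_syl (hΩ : ¬ 3 ∣ Nat.card Ω) {U : Subgroup G} (hU : IsPGroup 3 U) {w : Ω}
    (h : U ≤ stabilizer G w) : ∃ S : Sylow 3 G, U ≤ S ∧ (S : Subgroup G) ≤ stabilizer G w := by
  obtain ⟨S, -⟩ := hU.exists_le_sylow
  obtain ⟨w', hw⟩ := exists_fix hΩ S.isPGroup'
  obtain ⟨g, rfl⟩ := exists_smul_eq G w' w
  obtain ⟨k, -, P, hP, a, b, c⟩ := conj_into h (smul_syl_le hw g) hU (g • S).isPGroup'
  have := (k • g • S).is_maximal' hP fun x hx => by simpa [mul_assoc] using c _ (mem_smul_syl.1 hx)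
  exact ⟨k • g • S, this ▸ b, this ▸ a⟩

theorem exists_pair {S S' : Sylow 3 G} {w w' : Ω} (h : (S : Subgroup G) ≤ stabilizer G w)
    (h' : (S' : Subgroup G) ≤ stabilizer G w') : ∃ g : G, g • w = w' ∧ g • S = S' := by
  obtain ⟨g, rfl⟩ := exists_smul_eq G w w'
  obtain ⟨k, hk, P, hP, -, b, c⟩ := conj_into h' (smul_syl_le h g) S'.isPGroup' (g • S).isPGroup'
  have := (k • g • S).is_maximal' hP fun x hx => by simpa [mul_assoc] using c _ (mem_smul_syl.1 hx)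
  exact ⟨k * g, by rw [mul_smul]; exact hk,
    Sylow.ext (by rw [mul_smul, ← this, S'.is_maximal' hP b])⟩

end Pool.Agent.MP_a5588a_al.Full
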