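import Pool.Agent.MP_a5588a_al.Full.H5End
import Pool.Agent.MP_a5588a_al.Full.TIFlag
import Pool.Agent.MP_a5588a_al.Full.TIGrp

/-! Free action of a quadratic subgroup with a unique maximal overgroup. -/

namespace Pool.Agent.MP_a5588a_al.Full

variable {G V : Type*} [Group G] [AddCommGroup V]

theorem syl_inf_H5 [Finite G] (S : Sylow 3 G) {K P : Subgroup G} [n : K.Normal] (hP : IsPGroup 3 P)
    (PK : P ≤ K) (le : (S : Subgroup G) ⊓ K ≤ P) : P ≤ S := by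
  have : Fact (Nat.Prime 3) := ⟨Nat.prime_three⟩
  obtain ⟨Q, hQ⟩ := hP.exists_le_sylow
  obtain ⟨g, rfl⟩ := MulAction.exists_smul_eq G S Q
  have h1 : P.map (MulAut.conj g⁻¹).toMonoidHom ≤ (S : Subgroup G) ⊓ K := by
    rintro _ ⟨x, hx, rfl⟩
    exact ⟨by simpa using mem_smul_syl.1 (hQ hx), n.conj_mem _ (PK hx) _⟩
  rw [← Subgroup.eq_of_le_of_card_ge (h1.trans le)
    (Subgroup.card_map_of_injective (MulAut.conj g⁻¹).injective).ge]
  exact h1.trans inf_le_left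

/-- If the three-group `U` lies in the unique maximal subgroup `M`, then the three-elements of the
core of `M` form a normal subgroup. -/
theorem core3_H5 [Finite G] {M U : Subgroup G} (hM : M ≠ ⊤) (hU : IsPGroup 3 U)
    (um : ∀ K, U ≤ K → K = ⊤ ∨ K ≤ M) :
    ∃ R : Subgroup G, R.Normal ∧ IsPGroup 3 R ∧ U ⊓ M.normalCore ≤ R ∧ R ≤ M.normalCore := by
  have : Fact (Nat.Prime 3) := ⟨Nat.prime_three⟩
  obtain ⟨S, hS⟩ := hU.exists_le_sylow
  have p : IsPGroup 3 ((S : Subgroup G) ⊓ M.normalCore : Subgroup G) := S.isPGroup'.to_inf_left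
  refine ⟨S ⊓ M.normalCore, Subgroup.normalizer_eq_top_iff.1 ((um _ fun u hu =>
    Subgroup.mem_normalizer_fintype fun x hx => Subgroup.mem_inf.2
      ⟨mul_mem (mul_mem (hS hu) hx.1) (inv_mem (hS hu)),
      M.normalCore_normal.conj_mem _ hx.2 _⟩).resolve_right fun h => hM (eq_top_iff.2 fun g _ => ?_)),
    p, inf_le_inf_right _ hS, inf_le_right⟩
  obtain ⟨k, hk, P, hP, a, b, c⟩ := conj_into (H := M.normalCore) inf_le_right
    (B := ((S : Subgroup G) ⊓ M.normalCore).map (MulAut.conj g).toMonoidHom)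
    (by rintro _ ⟨x, hx, rfl⟩; exact M.normalCore_normal.conj_mem _ hx.2 _) p (p.map _)
  refine (M.mul_mem_cancel_left (M.normalCore_le hk)).1
    (h (Subgroup.mem_normalizer_fintype fun x hx => ?_))
  have := c _ ⟨x, hx, rfl⟩
  have e : k * g * x * (k * g)⁻¹ = k * (g * x * g⁻¹) * k⁻¹ := by group
  rw [e]
  exact ⟨syl_inf_H5 S hP a b this, a this⟩

theorem fix_H5 [Finite V] (ρ : G →* AddMonoid.End V) (h3 : ∀ v : V, v + v + v = 0)
    {P : Subgroup G} (hP : IsPGroup 3 P) {X : AddSubgroup V} (hX : ∀ p ∈ P, ∀ x ∈ X, ρ p x ∈ X)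
    (X0 : X ≠ ⊥) : ∃ y ∈ X, y ≠ 0 ∧ ∀ p ∈ P, ρ p y = y := by
  obtain ⟨n, hn⟩ := up_aug (ρ := ρ) h3 hP
  have : ∀ i, ∀ x ∈ X, x ≠ 0 → x ∈ up (aug ρ P) i → ∃ y ∈ X, y ≠ 0 ∧ ∀ p ∈ P, ρ p y = y := by
    intro i
    induction i with
    | zero => exact fun x _ a b => (a b).elim
    | succ i ih =>
      intro x hx a b
      by_cases h : ∀ p ∈ P, ρ p x = x
      · exact ⟨x, hx, a, h⟩
      push Not at h
      obtain ⟨p, hp, h⟩ := h
      exact ih (ρ p x - x) (X.sub_mem (hX p hp x hx) hx) (sub_ne_zero.2 h) (aug_low hp i x b)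
  obtain ⟨x, hx, a⟩ := X.bot_or_exists_ne_zero.resolve_left X0
  exact this n x hx a (hn ▸ trivial)

/-- The stabiliser of a vector. -/
def stabV (ρ : G →* AddMonoid.End V) (v : V) : Subgroup G where
  carrier := {g | ρ g v = v}
  mul_mem' a b := by change ρ _ v = v; rw [mul_ap, b, a]
  one_mem' := by change ρ _ v = v; simp
  inv_mem' {g} a := by
    change ρ _ v = v
    conv_lhs => rw [← show ρ g v = v from a, ← mul_ap, inv_mul_cancel, map_one]
    rfl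

theorem ap_inv_ap (ρ : G →* AddMonoid.End V) (g : G) (v : V) : ρ g (ρ g⁻¹ v) = v := by
  rw [← mul_ap, mul_inv_cancel, map_one]; rfl

theorem inv_ap_ap (ρ : G →* AddMonoid.End V) (g : G) (v : V) : ρ g⁻¹ (ρ g v) = v := by
  rw [← mul_ap, inv_mul_cancel, map_one]; rfl

section T2

variable {ρ : G →* AddMonoid.End V} {X : AddSubgroup V} {M U : Subgroup G}
  (hX : ∀ g, ∀ x ∈ X, ρ g x ∈ X)
  (mn : ∀ Y ≤ X, (∀ g, ∀ y ∈ Y, ρ g y ∈ Y) → Y = ⊥ ∨ Y = X)
  (nf : ∀ x ∈ X, (∀ g, ρ g x = x) → x = 0) (um : ∀ K, U ≤ K → K = ⊤ ∨ K ≤ M)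
  (uq : ∀ g, (∀ u ∈ U, g * u * g⁻¹ ∈ M) → g ∈ M)
  (q : ∀ u ∈ U, ∀ u' ∈ U, ∀ x ∈ X, ρ u (ρ u' x - x) = ρ u' x - x)

include nf um in
theorem t2_stab {x : V} (hx : x ∈ X) (h : ∀ u ∈ U, ρ u x = x) {f : G} (hf : ρ f x = x)
    (fM : f ∉ M) : x = 0 :=
  nf x hx fun g => (show g ∈ stabV ρ x from
    (um (stabV ρ x) h).resolve_right (fun a => fM (a hf)) ▸ trivial)

include hX mn nf um uq q in
/-- `X` is the sum of the fixed spaces of `U` and of a conjugate. -/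
theorem t2_sum {h : G} (hM : h ∉ M) {x : V} (hx : x ∈ X) : ∃ y ∈ X, ∃ y' ∈ X,
    (∀ u ∈ U, ρ u y = y) ∧ (∀ u ∈ U, ρ u y' = y') ∧ x = y + ρ h y' := by
  let Y : AddSubgroup V :=
    { carrier := {x | ∃ y ∈ X, ∃ y' ∈ X, (∀ u ∈ U, ρ u y = y) ∧ (∀ u ∈ U, ρ u y' = y') ∧
        x = y + ρ h y'}
      add_mem' := by
        rintro _ _ ⟨a, a1, b, b1, a2, b2, rfl⟩ ⟨c, c1, d, d1, c2, d2, rfl⟩
        exact ⟨a + c, add_mem a1 c1, b + d, add_mem b1 d1,
          fun u hu => by rw [map_add, a2 u hu, c2 u hu],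
          fun u hu => by rw [map_add, b2 u hu, d2 u hu], by rw [map_add]; abel⟩
      zero_mem' := ⟨0, zero_mem _, 0, zero_mem _, fun _ _ => map_zero _, fun _ _ => map_zero _,
        by simp⟩
      neg_mem' := by
        rintro _ ⟨a, a1, b, b1, a2, b2, rfl⟩
        exact ⟨-a, neg_mem a1, -b, neg_mem b1, fun u hu => by rw [map_neg, a2 u hu],
          fun u hu => by rw [map_neg, b2 u hu], by rw [map_neg]; abel⟩ }
  have YX : Y ≤ X := by
    rintro _ ⟨a, a1, b, b1, -, -, rfl⟩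
    exact add_mem a1 (hX _ _ b1)
  have s1 : ∀ u ∈ U, ∀ x ∈ X, ρ u x - x ∈ Y := fun u hu x hx =>
    ⟨_, sub_mem (hX u x hx) hx, 0, zero_mem _, fun u' hu' => q u' hu' u hu x hx,
      fun _ _ => map_zero _, by simp⟩
  have s2 : ∀ u ∈ U, ∀ x ∈ X, ρ (h * u * h⁻¹) x - x ∈ Y := fun u hu x hx =>
    ⟨0, zero_mem _, ρ u (ρ h⁻¹ x) - ρ h⁻¹ x, sub_mem (hX _ _ (hX _ _ hx)) (hX _ _ hx),
      fun _ _ => map_zero _, fun u' hu' => q u' hu' u hu _ (hX _ _ hx), by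
        rw [map_sub, ap_inv_ap, mul_ap, mul_ap, zero_add]⟩
  let K : Subgroup G :=
    { carrier := {g | ∀ x ∈ X, ρ g x - x ∈ Y}
      mul_mem' := fun {a b} p r x hx => by
        have := add_mem (p _ (hX b x hx)) (r x hx)
        rwa [sub_add_sub_cancel, ← mul_ap] at this
      one_mem' := fun x _ => by simp
      inv_mem' := fun {a} p x hx => by
        have := neg_mem (p _ (hX a⁻¹ x hx))
        rwa [ap_inv_ap, neg_sub] at this }
  have K1 : K = ⊤ := (um K s1).resolve_right fun a => hM (uq h fun u hu => a (s2 u hu))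
  have K2 : ∀ g, ∀ x ∈ X, ρ g x - x ∈ Y := fun g => show g ∈ K from K1 ▸ trivial
  rcases mn Y YX (fun g y hy => by simpa using add_mem (K2 g y (YX hy)) hy) with a | a
  · rw [nf x hx fun g => sub_eq_zero.1 (AddSubgroup.mem_bot.1 (a ▸ K2 g x hx))]
    exact Y.zero_mem
  · exact show x ∈ Y from a ▸ hx

include hX mn nf um uq q in
/-- An element of `U` outside the core has the same fixed vectors as `U`. -/
theorem t2_fix {f h : G} (fU : f ∈ U) (UM : U ≤ M) (hf : h * f * h⁻¹ ∉ M) {x : V} (hx : x ∈ X)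
    (fx : ρ f x = x) : ∀ u ∈ U, ρ u x = x := by
  obtain ⟨y, -, y', b, c, d, rfl⟩ := t2_sum hX mn nf um uq q (h := h⁻¹) (fun a => hf
    (mul_mem (mul_mem (inv_mem_iff.1 a) (UM fU)) a)) hx
  rw [map_add, c f fU, add_right_inj] at fx
  rwa [t2_stab nf um b d (by rw [mul_ap, mul_ap, fx, ap_inv_ap]) hf, map_zero, add_zero]

include hX mn nf um uq q in
/-- An element of `U` outside the core lies in one conjugate of `M` only. -/
theorem t2_H5 [Finite G] [Finite V] (h3 : ∀ v : V, v + v + v = 0) (X0 : X ≠ ⊥)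
    (hU : IsPGroup 3 U) (UM : U ≤ M) {f h g : G} (fU : f ∈ U) (hf : h * f * h⁻¹ ∉ M)
    (hg : g * f * g⁻¹ ∈ M) : g ∈ M := by
  obtain ⟨m, hm, P, hP, -, b, c⟩ := conj_into UM
    (B := (Subgroup.closure {f}).map (MulAut.conj g).toMonoidHom) (by
      rw [MonoidHom.map_closure, Subgroup.closure_le]
      rintro _ ⟨_, rfl, rfl⟩
      exact hg) hU ((hU.to_le ((Subgroup.closure_le U).2 (by simpa using fU))).map _)
  have c1 := c _ ⟨f, Subgroup.subset_closure rfl, rfl⟩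
  obtain ⟨y, hy, y0, z⟩ := fix_H5 ρ h3 hP (fun p _ => hX p) X0
  refine (M.mul_mem_cancel_left hm).1 (uq _ fun u hu => by_contra fun a => y0 ?_)
  have := t2_fix hX mn nf um uq q fU UM hf (hX (m * g)⁻¹ y hy) (by
    rw [← mul_ap, show f * (m * g)⁻¹ = (m * g)⁻¹ * (m * (g * f * g⁻¹) * m⁻¹) by group, mul_ap]
    exact congrArg _ (z _ c1)) u hu
  exact t2_stab nf um hy (fun u hu => z u (b hu)) (by rw [mul_ap, mul_ap, this, ap_inv_ap]) a

end T2

/-- The action on the quotient by an invariant subgroup. -/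
def quoV (ρ : G →* AddMonoid.End V) (W : AddSubgroup V) (h : ∀ g, ∀ v ∈ W, ρ g v ∈ W) :
    G →* AddMonoid.End (V ⧸ W) where
  toFun g := QuotientAddGroup.map W W (ρ g) (h g)
  map_one' := QuotientAddGroup.addMonoidHom_ext _ (AddMonoidHom.ext fun v =>
    congrArg (fun w : V => (w : V ⧸ W)) (DFunLike.congr_fun ρ.map_one v))
  map_mul' a b := QuotientAddGroup.addMonoidHom_ext _ (AddMonoidHom.ext fun v =>
    congrArg (fun w : V => (w : V ⧸ W)) (DFunLike.congr_fun (ρ.map_mul a b) v))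

theorem quoV_mk (ρ : G →* AddMonoid.End V) (W : AddSubgroup V) (h : ∀ g, ∀ v ∈ W, ρ g v ∈ W)
    (g : G) (v : V) : quoV ρ W h g (v : V ⧸ W) = (ρ g v : V) := rfl

/-- A faithful module of a group that is not a three-group has a simple section without fixed
vectors. -/
theorem sect_H5 [Finite V] {ρ : G →* AddMonoid.End V} (inj : Function.Injective ρ)
    (h3 : ∀ v : V, v + v + v = 0) (hG : ¬ IsPGroup 3 G) :
    ∃ (W : AddSubgroup V) (h : ∀ g, ∀ v ∈ W, ρ g v ∈ W) (X : AddSubgroup (V ⧸ W)), X ≠ ⊥ ∧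
      (∀ g, ∀ x ∈ X, quoV ρ W h g x ∈ X) ∧
      (∀ Y ≤ X, (∀ g, ∀ y ∈ Y, quoV ρ W h g y ∈ Y) → Y = ⊥ ∨ Y = X) ∧
      ∀ x, (∀ g, quoV ρ W h g x = x) → x = 0 := by
  obtain ⟨n, hn⟩ : ∃ n, up (aug ρ ⊤) (n + 1) ≤ up (aug ρ ⊤) n := by
    by_contra! h
    exact not_injective_infinite_finite _
      (strictMono_nat_of_lt_succ fun n => lt_of_le_not_ge (up_le (aug ρ ⊤) n) (h n)).injective
  have inv : ∀ g, ∀ v ∈ up (aug ρ ⊤) n, ρ g v ∈ up (aug ρ ⊤) n := fun p v hv => by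
    have := add_mem (aug_low (Subgroup.mem_top p) n v (up_le _ n hv)) hv
    exact (sub_add_cancel (ρ p v) v ▸ this :)
  have ne : (⊤ : AddSubgroup (V ⧸ up (aug ρ ⊤) n)) ≠ ⊥ := fun h => hG fun g => by
    have : up (aug ρ ⊤) n = ⊤ := eq_top_iff.2 fun v _ => (QuotientAddGroup.eq_zero_iff v).1
      (AddSubgroup.mem_bot.1 (h ▸ AddSubgroup.mem_top _))
    obtain ⟨k, hk⟩ := uni_pgroup inj h3 this
      ⟨g, aug_low (Subgroup.mem_top _), aug_low (Subgroup.mem_top _)⟩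
    exact ⟨k, congrArg Subtype.val hk⟩
  obtain ⟨X, ⟨a, b⟩, mn⟩ := (wellFounded_lt (α := AddSubgroup (V ⧸ up (aug ρ ⊤) n))).has_min
    {X | X ≠ ⊥ ∧ ∀ g, ∀ x ∈ X, quoV ρ _ inv g x ∈ X} ⟨⊤, ne, fun _ _ _ => trivial⟩
  refine ⟨_, inv, X, a, b, fun Y le hY => or_iff_not_imp_left.2 fun c =>
    le.eq_or_lt.resolve_right (mn Y ⟨c, hY⟩), fun x hx => ?_⟩
  obtain ⟨v, rfl⟩ := QuotientAddGroup.mk_surjective x
  refine (QuotientAddGroup.eq_zero_iff v).2 (hn (mem_up.2 ?_))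
  rintro _ ⟨p, -, rfl⟩
  exact QuotientAddGroup.eq_iff_sub_mem.1 (hx p)

end Pool.Agent.MP_a5588a_al.Full
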