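import Pool.Agent.MP_a5588a_al.Full.H5F

/-! The three axes computation. -/

namespace Pool.Agent.MP_a5588a_al.Full

variable {L V : Type*} [Group L] [AddCommGroup V] {ρ : L →* AddMonoid.End V}

theorem quad_gen {X : Set V} {F : Set L} (hX : ∀ g ∈ Subgroup.closure F, ∀ x ∈ X, ρ g x ∈ X)
    (h : ∀ u ∈ F, ∀ u' ∈ F, ∀ x ∈ X, ρ u (ρ u' x - x) = ρ u' x - x) :
    ∀ u ∈ Subgroup.closure F, ∀ u' ∈ Subgroup.closure F, ∀ x ∈ X,
      ρ u (ρ u' x - x) = ρ u' x - x := by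
  intro u hu u' hu' x hx
  refine (Subgroup.closure_le (stabV ρ _)).2 (fun a ha => ?_) hu
  change ρ a (ρ u' x - x) = ρ u' x - x
  induction hu' using Subgroup.closure_induction generalizing x with
  | mem b hb => exact h a ha b hb x hx
  | one => simp
  | mul b c _ hc p q =>
    rw [mul_ap, ← sub_add_sub_cancel _ (ρ c x), map_add, p _ (hX c hc x hx), q x hx]
  | inv b hb p =>
    have := p _ (hX b⁻¹ (inv_mem hb) x hx)
    rw [ap_inv_ap] at this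
    rw [← neg_sub, map_neg, this]

theorem Qd.sum {z : L} (h3 : (3 : AddMonoid.End V) = 0) (hz : Qd ρ z) (v : V) :
    v + ρ z v + ρ z (ρ z v) = 0 := by
  have : 1 + ρ z + ρ z * ρ z = 0 := by
    unfold Qd at hz
    linear_combination (norm := noncomm_ring) hz + h3 * ρ z
  exact DFunLike.congr_fun this v

theorem ring_Z {E : Type*} [Ring E] {u z z' : E} (h3 : (3 : E) = 0) (hu : (u - 1) * (u - 1) = 0)
    (h : z' - 1 = -(z - 1)) :
    u * (z * u * z') - z * u * z' * u - (u * (z' * u * z) - z' * u * z * u) =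
      (u - 1) * (z * (u - 1)) := by
  obtain ⟨a, rfl⟩ : ∃ a, u = 1 + a := ⟨u - 1, by abel⟩
  obtain ⟨b, rfl⟩ : ∃ a, z = 1 + a := ⟨z - 1, by abel⟩
  obtain rfl : z' = 1 - b := by linear_combination (norm := noncomm_ring) h
  simp only [add_sub_cancel_left] at *
  linear_combination (norm := noncomm_ring) h3 * (a * b * a) - hu - 2 * (hu * b) - 2 * (b * hu)

/-- The configuration of three axes `D`, `z D z⁻¹`, `z⁻¹ D z` inside the normaliser of `D`. -/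
structure Axes (ρ : L →* AddMonoid.End V) (M D U J : Subgroup L) (z u : L) : Prop where
  three : (3 : AddMonoid.End V) = 0
  z3 : z ^ 3 = 1
  hz : Qd ρ z
  hu : Qd ρ u
  uD : u ∈ D
  gen : U = Subgroup.closure {x | ∃ y ∈ D, x = y ∨ x = z * y * z⁻¹ ∨ x = z⁻¹ * y * z}
  UJ : U ≤ J
  UM : U ≤ M
  nD : ∀ j ∈ J, ∀ y ∈ D, j * y * j⁻¹ ∈ D
  um : ∀ K, U ≤ K → J ≤ K ∨ K ⊓ J ≤ M
  ti : ∀ g ∈ J, g * (z * u * z⁻¹) * g⁻¹ ∈ M → g ∈ M

namespace Axes

variable {M D U J : Subgroup L} {z u : L} (A : Axes ρ M D U J z u)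
include A

theorem m0 {y : L} (h : y ∈ D) : y ∈ U := A.gen ▸ Subgroup.subset_closure ⟨y, h, .inl rfl⟩

theorem m1 {y : L} (h : y ∈ D) : z * y * z⁻¹ ∈ U :=
  A.gen ▸ Subgroup.subset_closure ⟨y, h, .inr (.inl rfl)⟩

theorem m2 {y : L} (h : y ∈ D) : z⁻¹ * y * z ∈ U :=
  A.gen ▸ Subgroup.subset_closure ⟨y, h, .inr (.inr rfl)⟩

theorem zz : z * z = z⁻¹ := eq_inv_of_mul_eq_one_left (by rw [← pow_three', A.z3])

theorem inv {j : L} (hj : j ∈ J) {v : V} (h : ∀ y ∈ D, ρ y v = v) : ∀ y ∈ D, ρ y (ρ j v) = ρ j v :=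
  fun y hy => by
    have := h _ (A.nD _ (inv_mem hj) y hy)
    rw [inv_inv, mul_ap, mul_ap] at this
    conv_rhs => rw [← this, ap_inv_ap]

theorem rel {v : V} (h : ∀ y ∈ D, ρ y v = v) {y : L} (hy : y ∈ D) :
    ρ (z⁻¹ * y * z) v - v = -ρ z (ρ (z * y * z⁻¹) v - v) := by
  have e := A.hz.sum A.three v
  have e1 := congrArg (fun x => ρ z⁻¹ (ρ y x - x)) e
  simp only [map_add, map_sub, map_zero, h y hy, inv_ap_ap] at e1
  rw [map_sub, ← mul_ap ρ z (z * y * z⁻¹), ← mul_assoc, ← mul_assoc, A.zz]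
  simp only [mul_ap]
  rw [← A.zz, mul_ap ρ z z v, A.zz]
  linear_combination (norm := abel) e1

theorem quad {r r' : L} (hr : r ∈ U) (hr' : r' ∈ U) {v : V} (h : ∀ y ∈ D, ρ y v = v) :
    ρ r (ρ r' v - v) = ρ r' v - v := by
  refine quad_gen (X := {v | ∀ y ∈ D, ρ y v = v}) (fun g hg x hx => A.inv (A.UJ (A.gen ▸ hg)) hx)
    ?_ r (A.gen ▸ hr) r' (A.gen ▸ hr') v h
  have sb : ∀ r ∈ U, ∀ x, (∀ y ∈ D, ρ y x = x) → ∀ y ∈ D, ρ y (ρ r x - x) = ρ r x - x :=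
    fun r hr x hx y hy => by rw [map_sub, A.inv (A.UJ hr) hx y hy, hx y hy]
  have k1 : ∀ x, (∀ y ∈ D, ρ y x = x) → ∀ y ∈ D, ρ (z * y * z⁻¹) x = x ↔ ρ (z⁻¹ * y * z) x = x :=
    fun x hx y hy => by
      rw [← sub_eq_zero, ← sub_eq_zero (a := ρ (z⁻¹ * y * z) x), A.rel hx hy, neg_eq_zero]
      exact ⟨fun h => by rw [h, map_zero], fun h => by rw [← inv_ap_ap ρ z (_ - _), h, map_zero]⟩
  rintro _ ⟨y, hy, a⟩ _ ⟨y', hy', rfl | rfl | rfl⟩ x hx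
  · rw [hx _ hy', sub_self, map_zero]
  · have w1 := sb _ (A.m1 hy') x hx
    have w2 := sb _ (A.m2 hy') x hx y hy
    rw [A.rel hx hy', map_neg, neg_inj] at w2
    have : ρ (z⁻¹ * y * z) (ρ (z * y' * z⁻¹) x - x) = ρ (z * y' * z⁻¹) x - x := by
      rw [mul_ap, mul_ap ρ z⁻¹, w2, inv_ap_ap]
    rcases a with rfl | rfl | rfl
    exacts [w1 _ hy, (k1 _ w1 y hy).2 this, this]
  · have w1 := sb _ (A.m1 hy') x hx y hy
    have w2 := sb _ (A.m2 hy') x hx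
    have : ρ (z * y * z⁻¹) (ρ (z⁻¹ * y' * z) x - x) = ρ (z⁻¹ * y' * z) x - x := by
      rw [A.rel hx hy', map_neg, mul_ap, inv_ap_ap, mul_ap, w1]
    rcases a with rfl | rfl | rfl
    exacts [w2 _ hy, this, (k1 _ w2 y hy).1 this]

theorem add {r r' : L} (hr : r ∈ U) (hr' : r' ∈ U) {v : V} (h : ∀ y ∈ D, ρ y v = v) :
    ρ (r * r') v - v = (ρ r v - v) + (ρ r' v - v) := by
  have := A.quad hr hr' h
  rw [map_sub] at this
  rw [mul_ap]
  linear_combination (norm := abel) this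

theorem neg {r : L} (hr : r ∈ U) {v : V} (h : ∀ y ∈ D, ρ y v = v) :
    ρ r⁻¹ v - v = -(ρ r v - v) := by
  have := A.add (inv_mem hr) hr h
  rw [inv_mul_cancel, map_one] at this
  exact eq_neg_of_add_eq_zero_left (this.symm.trans (sub_self v))

theorem psi {v : V} (h : ∀ y ∈ D, ρ y v = v) {y : L} (hy : y ∈ D) :
    ρ y (ρ z v) - ρ z v = ρ (z * y * z⁻¹ * (z⁻¹ * y * z)⁻¹) v - v := by
  have e := A.hz.sum A.three (ρ (z * y * z⁻¹) v - v)
  have e1 : ρ y (ρ z v) - ρ z v = ρ z (ρ (z⁻¹ * y * z) v - v) := by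
    rw [map_sub, mul_ap, mul_ap, ap_inv_ap]
  rw [A.add (A.m1 hy) (inv_mem (A.m2 hy)) h, A.neg (A.m2 hy) h, e1, A.rel h hy, map_neg]
  linear_combination (norm := abel) -e

theorem nz {r : L} (hr : r ∈ U) : z * r * z⁻¹ ∈ U ∧ z⁻¹ * r * z ∈ U := by
  have e : ∀ r ∈ U, z * r * z⁻¹ ∈ U := fun r hr =>
    (Subgroup.closure_le (U.comap (MulAut.conj z).toMonoidHom)).2 (by
      rintro _ ⟨y, hy, rfl | rfl | rfl⟩
      · exact A.m1 hy
      · change z * (z * y * z⁻¹) * z⁻¹ ∈ U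
        have : z * (z * y * z⁻¹) * z⁻¹ = (z * z) * y * (z * z)⁻¹ := by group
        rw [this, A.zz, inv_inv]
        exact A.m2 hy
      · change z * (z⁻¹ * y * z) * z⁻¹ ∈ U
        simpa [mul_assoc] using A.m0 hy) (A.gen ▸ hr)
  refine ⟨e r hr, ?_⟩
  have := e _ (e r hr)
  rwa [show z * (z * r * z⁻¹) * z⁻¹ = (z * z) * r * (z * z)⁻¹ by group, A.zz, inv_inv] at this

theorem comm {r r' : L} (hr : r ∈ U) (hr' : r' ∈ U) {v : V} (h : ∀ y ∈ D, ρ y v = v) :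
    ρ (r⁻¹ * r'⁻¹ * r * r') v = v := by
  rw [← sub_eq_zero, A.add (mul_mem (mul_mem (inv_mem hr) (inv_mem hr')) hr) hr' h,
    A.add (mul_mem (inv_mem hr) (inv_mem hr')) hr h, A.add (inv_mem hr) (inv_mem hr') h,
    A.neg hr h, A.neg hr' h]
  abel

theorem both {g : L} (gJ : g ∈ J) (gM : g ∉ M) {t : V} (h : ∀ r ∈ U, ρ r t = t)
    (h' : ρ (g * (z * u * z⁻¹) * g⁻¹) t = t) : ∀ j ∈ J, ρ j t = t :=
  (A.um (stabV ρ t) h).resolve_right fun a => gM (A.ti g gJ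
    (a ⟨h', J.mul_mem (J.mul_mem gJ (A.UJ (A.m1 A.uD))) (J.inv_mem gJ)⟩))

/-- Vectors fixed modulo the fixed space of `J` are fixed by `J`. -/
theorem fl {f : L} (fJ : f ∈ J) (fM : f ∉ M) {t : V} (h : ∀ r ∈ U, ρ r t = t)
    (h' : ∀ j ∈ J, ρ j (ρ f t - t) = ρ f t - t) : ∀ j ∈ J, ρ j t = t := by
  let K : Subgroup L :=
    { carrier := {g | g ∈ J ∧ ∀ j ∈ J, ρ j (ρ g t - t) = ρ g t - t}
      one_mem' := ⟨one_mem _, fun j _ => by simp⟩
      mul_mem' := fun {a b} p q => ⟨mul_mem p.1 q.1, fun j hj => by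
        have : ρ (a * b) t - t = (ρ a t - t) + (ρ b t - t) := by
          have := q.2 a p.1
          rw [map_sub] at this
          rw [mul_ap]
          linear_combination (norm := abel) this
        rw [this, map_add, p.2 j hj, q.2 j hj]⟩
      inv_mem' := fun {a} p => ⟨inv_mem p.1, fun j hj => by
        have := p.2 a⁻¹ (inv_mem p.1)
        rw [map_sub, inv_ap_ap] at this
        rw [← neg_sub, this, map_neg, p.2 j hj]⟩ }
  have k : J ≤ K := (A.um K fun r hr => ⟨A.UJ hr, fun j _ => by rw [h r hr, sub_self, map_zero]⟩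
    ).resolve_right fun a => fM (a ⟨⟨fJ, h'⟩, fJ⟩)
  refine A.both fJ fM h ?_
  have := (k (inv_mem fJ)).2 _ (A.UJ (A.m1 A.uD))
  rw [map_sub, h _ (A.m1 A.uD), sub_left_inj] at this
  rw [mul_ap, mul_ap, this, ap_inv_ap]

theorem psiA {v : V} (h : ∀ y ∈ D, ρ y v = v) {y : L} (hy : y ∈ D) :
    ∀ r ∈ U, ρ r (ρ y (ρ z v) - ρ z v) = ρ y (ρ z v) - ρ z v := fun r hr => by
  rw [A.psi h hy]
  exact A.quad hr (mul_mem (A.m1 hy) (inv_mem (A.m2 hy))) h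

theorem step {g : L} (gJ : g ∈ J) (gM : g ∉ M) {x : V} (hx : ∀ y ∈ D, ρ y x = x) {w : L}
    (hw : w = g * (z * u * z⁻¹) * g⁻¹) {y : L} (hy : y ∈ D) : ∀ j ∈ J,
    ρ j ((ρ y (ρ z x) - ρ z x) - (ρ (w⁻¹ * y * w) (ρ z x) - ρ z x)) =
      (ρ y (ρ z x) - ρ z x) - (ρ (w⁻¹ * y * w) (ρ z x) - ρ z x) := by
  have wJ : w ∈ J := hw ▸ mul_mem (mul_mem gJ (A.UJ (A.m1 A.uD))) (inv_mem gJ)
  have wM : w ∉ M := fun a => gM (A.ti g gJ (hw ▸ a))
  have q : Qd ρ w := hw ▸ (A.hu.conj z).conj g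
  have y0 := A.nD w wJ y hy
  have y2 : w⁻¹ * y * w ∈ D := by simpa using A.nD _ (inv_mem wJ) y hy
  have s0 := A.psiA hx y0
  have s1 := A.psiA hx hy
  have s2 := A.psiA hx y2
  have e := congrArg (fun t => ρ (w * y * w⁻¹) t - t) (q.sum A.three (ρ z x))
  have e1 : ρ (w * y * w⁻¹) (ρ w (ρ z x)) - ρ w (ρ z x) = ρ w (ρ y (ρ z x) - ρ z x) := by
    rw [mul_ap, inv_ap_ap, mul_ap, map_sub]
  have e2 : ρ (w * y * w⁻¹) (ρ w (ρ w (ρ z x))) - ρ w (ρ w (ρ z x)) =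
      ρ w (ρ w (ρ (w⁻¹ * y * w) (ρ z x) - ρ z x)) := by
    rw [mul_ap, inv_ap_ap, mul_ap, map_sub, map_sub, mul_ap, mul_ap, ap_inv_ap]
  simp only [map_add, map_zero, sub_self] at e
  generalize ρ (w⁻¹ * y * w) (ρ z x) - ρ z x = c at *
  generalize ρ y (ρ z x) - ρ z x = b at *
  have e3 := q.sum A.three c
  have e4 : ρ w (b - c) - (b - c) = -(ρ (w * y * w⁻¹) (ρ z x) - ρ z x + b + c) + (c + c + c) := by
    rw [map_sub]
    linear_combination (norm := abel) e - e1 - e2 - e3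
  have c3 : c + c + c = 0 := by
    have := DFunLike.congr_fun A.three c
    rwa [show (3 : AddMonoid.End V) = 1 + 1 + 1 by norm_num] at this
  refine A.fl wJ wM (fun r hr => by rw [map_sub, s1 r hr, s2 r hr]) (A.both gJ gM
    (fun r hr => ?_) (hw ▸ sub_eq_zero.1 (DFunLike.congr_fun q _)))
  rw [e4, c3, add_zero, map_neg, map_add, map_add, s0 r hr, s1 r hr, s2 r hr]

theorem key {g : L} (gJ : g ∈ J) (gM : g ∉ M) {x : V} (hx : ∀ y ∈ D, ρ y x = x) {w : L}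
    (hw : w = g * (z * u * z⁻¹) * g⁻¹) {m : V}
    (hm : m = ρ w (ρ u (ρ z x) - ρ z x) - (ρ u (ρ z x) - ρ z x)) :
    ∀ j ∈ J, ρ j (ρ u (ρ z m) - ρ z m) = ρ u (ρ z m) - ρ z m := by
  have wJ : w ∈ J := hw ▸ mul_mem (mul_mem gJ (A.UJ (A.m1 A.uD))) (inv_mem gJ)
  obtain ⟨n, hn⟩ : ∃ n, n = ρ w (ρ z x) - ρ z x := ⟨_, rfl⟩
  have k : ∀ y ∈ D, ∃ t, (∀ j ∈ J, ρ j t = t) ∧
      ρ y n - n = ρ w (ρ y (ρ z x) - ρ z x) - (ρ y (ρ z x) - ρ z x) - t := fun y hy => by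
    have := A.step gJ gM hx hw hy
    refine ⟨_, this, ?_⟩
    have e := this w wJ
    simp only [hn, map_sub, mul_ap, ap_inv_ap] at e ⊢
    linear_combination (norm := abel) -e
  have k2 : ∀ r ∈ U, ∃ t, (∀ j ∈ J, ρ j t = t) ∧ ρ u (ρ r n) - ρ r (ρ u n) = t := fun r hr => by
    have y0 : u⁻¹ * r⁻¹ * u * r ∈ D := by
      simpa [mul_assoc] using mul_mem (inv_mem A.uD) (A.nD _ (inv_mem (A.UJ hr)) u A.uD)
    obtain ⟨t, a, b⟩ := k _ y0
    have z0 : ρ (u⁻¹ * r⁻¹ * u * r) (ρ z x) - ρ z x = 0 := by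
      have := A.comm (A.nz (A.m0 A.uD)).2 (A.nz hr).2 hx
      rw [show u⁻¹ * r⁻¹ * u * r = z * ((z⁻¹ * u * z)⁻¹ * (z⁻¹ * r * z)⁻¹ * (z⁻¹ * u * z) *
        (z⁻¹ * r * z)) * z⁻¹ by group, mul_ap, inv_ap_ap, mul_ap, this, sub_self]
    rw [z0, map_zero, sub_self, zero_sub] at b
    refine ⟨-t, fun j hj => by rw [map_neg, a j hj], ?_⟩
    have := congrArg (fun s => ρ r (ρ u s)) b
    simp only [map_sub, map_neg, mul_ap, ap_inv_ap, a u (A.UJ (A.m0 A.uD)), a r (A.UJ hr)] at this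
    exact this
  obtain ⟨t2, a2, b2⟩ := k2 _ (A.m1 A.uD)
  obtain ⟨t3, a3, b3⟩ := k2 _ (A.m2 A.uD)
  obtain ⟨t, a, b⟩ := k u A.uD
  have e := DFunLike.congr_fun (ring_Z A.three A.hu A.hz.inv_sub) n
  change ρ u (ρ z (ρ u (ρ z⁻¹ n))) - ρ z (ρ u (ρ z⁻¹ (ρ u n))) -
    (ρ u (ρ z⁻¹ (ρ u (ρ z n))) - ρ z⁻¹ (ρ u (ρ z (ρ u n)))) =
    ρ u (ρ z (ρ u n - n)) - ρ z (ρ u n - n) at e
  simp only [mul_ap] at b2 b3
  have z0 : ρ u (ρ z t) - ρ z t = 0 := by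
    rw [A.psi (fun y hy => a y (A.UJ (A.m0 hy))) A.uD,
      a _ (A.UJ (mul_mem (A.m1 A.uD) (inv_mem (A.m2 A.uD)))), sub_self]
  have : ρ u (ρ z m) - ρ z m = t2 - t3 := by
    rw [b2, b3, b, ← hm, map_sub, map_sub] at e
    linear_combination (norm := abel) z0 - e
  intro j hj
  rw [this, map_sub, a2 j hj, a3 j hj]

theorem false [Finite L] (hU : IsPGroup 3 U) (JM : ¬ J ≤ M)
    (fx : ∀ P : Subgroup L, IsPGroup 3 P → U ≤ P →
      ∃ v, (∀ p ∈ P, ρ p v = v) ∧ ∀ g, ρ g v = v → g ∈ M) : False := by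
  obtain ⟨p, hp⟩ : ∃ p, p = z * u * z⁻¹ * (z⁻¹ * u * z)⁻¹ := ⟨_, rfl⟩
  have pU : p ∈ U := hp ▸ mul_mem (A.m1 A.uD) (inv_mem (A.m2 A.uD))
  have ps : ∀ v, (∀ y ∈ D, ρ y v = v) → ρ u (ρ z v) - ρ z v = ρ p v - v := fun v h =>
    hp ▸ A.psi h A.uD
  by_cases c : ∀ g ∈ J, g⁻¹ * p * g ∈ M
  · obtain ⟨R, nR, pR, hR, -⟩ := core3_H5 (M := M.subgroupOf J) (U := U.subgroupOf J)
      (fun h => JM (Subgroup.subgroupOf_eq_top.1 h)) hU.comap_subtype fun K a => by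
        refine (A.um (K.map J.subtype) fun r hr => ⟨⟨r, A.UJ hr⟩, a hr, rfl⟩).imp (fun b => ?_)
          fun b x hx => b ⟨⟨x, hx, rfl⟩, x.2⟩
        refine eq_top_iff.2 fun x _ => ?_
        obtain ⟨y, hy, e⟩ := b x.2
        exact (Subtype.ext e : y = x) ▸ hy
    have N : ∀ x ∈ J, ∀ r ∈ R.map J.subtype, x * r * x⁻¹ ∈ R.map J.subtype := by
      rintro x hx _ ⟨r, hr, rfl⟩
      exact ⟨_, nR.conj_mem r hr ⟨x, hx⟩, rfl⟩
    have pR' : p ∈ R.map J.subtype := ⟨⟨p, A.UJ pU⟩, hR ⟨pU, fun b => by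
      simpa [Subgroup.mem_subgroupOf] using c _ (inv_mem b.2)⟩, rfl⟩
    obtain ⟨v, hv, sv⟩ := fx _ ((pR.map J.subtype).to_sup_of_normal_left' hU fun r hr =>
      Subgroup.mem_normalizer_fintype (N r (A.UJ hr))) le_sup_right
    obtain ⟨j, jJ, jM⟩ := SetLike.not_le_iff_exists.1 JM
    have hx := A.inv (inv_mem jJ) fun y hy => hv y (Subgroup.mem_sup_right (A.m0 hy))
    have e : ρ p (ρ j⁻¹ v) = ρ j⁻¹ v := by
      conv_rhs => rw [← hv _ (Subgroup.mem_sup_left (N j jJ p pR')), mul_ap, mul_ap, inv_ap_ap]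
    have e1 := ps _ hx
    have e2 := A.rel hx A.uD
    rw [e, sub_self, sub_eq_zero] at e1
    rw [mul_ap, mul_ap, e1, inv_ap_ap, sub_self, eq_comm, neg_eq_zero] at e2
    have e3 : ρ (z * u * z⁻¹) (ρ j⁻¹ v) = ρ j⁻¹ v := by
      rw [← sub_eq_zero, ← inv_ap_ap ρ z (_ - _), e2, map_zero]
    exact jM (A.ti j jJ (sv _ (by rw [mul_ap, mul_ap ρ j, e3, ap_inv_ap])))
  push Not at c
  obtain ⟨g, gJ, c⟩ := c
  have gM : g ∉ M := fun a => c (mul_mem (mul_mem (inv_mem a) (A.UM pU)) a)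
  have fJ : g⁻¹ * p * g ∈ J := mul_mem (mul_mem (inv_mem gJ) (A.UJ pU)) gJ
  obtain ⟨w, hw⟩ : ∃ w, w = g * (z * u * z⁻¹) * g⁻¹ := ⟨_, rfl⟩
  have wJ : w ∈ J := hw ▸ mul_mem (mul_mem gJ (A.UJ (A.m1 A.uD))) (inv_mem gJ)
  have wM : w ∉ M := fun a => gM (A.ti g gJ (hw ▸ a))
  have tr : ∀ t, (∀ j ∈ J, ρ j (ρ p (ρ g t) - ρ g t) = ρ p (ρ g t) - ρ g t) →
      ∀ j ∈ J, ρ j (ρ (g⁻¹ * p * g) t - t) = ρ (g⁻¹ * p * g) t - t := fun t h j hj => by
    have := h _ (inv_mem gJ)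
    rw [map_sub, inv_ap_ap] at this
    rw [mul_ap, mul_ap, this, h j hj]
  obtain ⟨v, hv, sv⟩ := fx U hU le_rfl
  have hx := A.inv gJ fun y hy => hv y (A.m0 hy)
  have k := A.key gJ gM hx hw rfl
  have sA := A.psiA hx A.uD
  refine JM fun j hj => sv j (A.fl fJ c hv (tr v ?_) j hj)
  rw [← ps _ hx]
  generalize ρ u (ρ z (ρ g v)) - ρ z (ρ g v) = s at *
  have sW : ∀ y ∈ D, ρ y s = s := fun y hy => sA y (A.m0 hy)
  have mW : ∀ y ∈ D, ρ y (ρ w s - s) = ρ w s - s := fun y hy => by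
    rw [map_sub, A.inv wJ sW y hy, sW y hy]
  have e : ρ g⁻¹ (ρ w s - s) = ρ (z * u * z⁻¹) (ρ g⁻¹ s) - ρ g⁻¹ s := by
    rw [map_sub, hw, mul_ap, mul_ap ρ g, inv_ap_ap]
  have := A.fl fJ c (t := ρ g⁻¹ (ρ w s - s))
    (fun r hr => e ▸ A.quad hr (A.m1 A.uD) (A.inv (inv_mem gJ) sW))
    (tr _ (by rw [ap_inv_ap, ← ps _ mW]; exact k))
  refine A.fl wJ wM sA fun j hj => ?_
  have e2 := this g gJ
  rw [ap_inv_ap] at e2
  rw [e2, this j hj]

end Axes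

variable [Finite L] [Finite V] {M : Subgroup L} {T : Sylow 3 L}

/-- All quadratic elements of a faithful module without fixed vectors lie in one conjugate of `M`
only, if the quadratic elements of `T ≤ M` lie in no proper subgroup outside `M`. -/
theorem ax_H5 (h3 : (3 : AddMonoid.End V) = 0) (inj : Function.Injective ρ)
    (le : (T : Subgroup L) ≤ M)
    (um : ∀ K : Subgroup L, (∀ d ∈ (T : Subgroup L), Qd ρ d → d ∈ K) → K = ⊤ ∨ K ≤ M)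
    (o3 : ∀ R : Subgroup L, R.Normal → IsPGroup 3 R → R = ⊥)
    (nf : ∀ v, (∀ g, ρ g v = v) → v = 0) {d : L} (dM : d ∈ M) (hd : Qd ρ d) (d1 : d ≠ 1) {g : L}
    (hg : g * d * g⁻¹ ∈ M) : g ∈ M := by
  have : Fact (Nat.Prime 3) := ⟨Nat.prime_three⟩
  by_contra gM
  let Q : Set L := {x | Qd ρ x}
  have cb : ∀ x, Qd ρ x → x ^ 3 = 1 := fun d h => inj (by
    unfold Qd at h
    rw [map_pow, map_one]
    linear_combination (norm := noncomm_ring) (ρ d - 1) * h + 3 * h + h3 * (ρ d - 1))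
  have pc : ∀ x, Qd ρ x → IsPGroup 3 (Subgroup.closure {x}) := fun x h =>
    pg_of_comm (by rintro _ rfl; exact cb _ h) (by rintro _ rfl _ rfl; rfl)
  have toT : ∀ F ≤ M, IsPGroup 3 F → ∃ m ∈ M, ∀ x ∈ F, m * x * m⁻¹ ∈ (T : Subgroup L) :=
    fun F a b => by
      obtain ⟨m, hm, P, hP, -, c, e⟩ := conj_into le a T.isPGroup' b
      exact ⟨m, hm, T.is_maximal' hP c ▸ e⟩
  have nm : ∀ F : Subgroup L, IsPGroup 3 F → F ≠ ⊥ →
      (∀ x ∈ (T : Subgroup L), Qd ρ x → x ∈ Subgroup.normalizer (F : Set L)) →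
      Subgroup.normalizer (F : Set L) ≤ M := fun F a b c =>
    (um _ c).resolve_left fun e => b (o3 F (Subgroup.normalizer_eq_top_iff.1 e) a)
  have uv : ∀ k, (∀ x ∈ (T : Subgroup L), Qd ρ x → k * x * k⁻¹ ∈ M) → k ∈ M := fun k hk => by
    have vT : Subgroup.closure (Q ∩ (T : Subgroup L)) ≤ T := (Subgroup.closure_le _).2 fun _ h => h.2
    obtain ⟨m, hm, e⟩ := toT ((Subgroup.closure (Q ∩ (T : Subgroup L))).map
      (MulAut.conj k).toMonoidHom) (by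
        rw [MonoidHom.map_closure, Subgroup.closure_le]
        rintro _ ⟨x, hx, rfl⟩
        exact hk x hx.2 hx.1) ((T.isPGroup'.to_le vT).map _)
    obtain ⟨m', -, e'⟩ := toT _ ((Subgroup.closure_le M).2 (by simpa using dM)) (pc d hd)
    refine (M.mul_mem_cancel_left hm).1 (nm _ (T.isPGroup'.to_le vT) (fun a => d1 ?_)
      (fun x xT _ => norm_closure fun y hy => Subgroup.subset_closure
        ⟨Qd.conj hy.1 x, mul_mem (mul_mem xT hy.2) (inv_mem xT)⟩)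
      (norm_closure fun y hy => Subgroup.subset_closure ⟨Qd.conj hy.1 _, ?_⟩))
    · have : m' * d * m'⁻¹ ∈ Subgroup.closure (Q ∩ (T : Subgroup L)) :=
        Subgroup.subset_closure ⟨hd.conj m', e' d (Subgroup.subset_closure rfl)⟩
      rw [a] at this
      exact conj_eq_one_iff.1 this
    · have := e _ ⟨y, Subgroup.subset_closure hy, rfl⟩
      rw [show m * k * y * (m * k)⁻¹ = m * (k * y * k⁻¹) * m⁻¹ by group]
      exact this
  let G : Subgroup L → Prop := fun F => IsPGroup 3 F ∧ F ≤ Subgroup.closure (Q ∩ F) ∧ F ≤ M ∧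
    ∃ g ∉ M, ∀ x ∈ F, g * x * g⁻¹ ∈ M
  have G0 : G (Subgroup.closure {d}) := ⟨pc d hd, Subgroup.closure_mono (by
      rintro _ rfl; exact ⟨hd, Subgroup.subset_closure rfl⟩),
    (Subgroup.closure_le M).2 (by simpa using dM), g, gM,
    (Subgroup.closure_le (M.comap (MulAut.conj g).toMonoidHom)).2 (by rintro _ rfl; exact hg)⟩
  obtain ⟨D, ⟨pD, gD, DM, k, kM, hk⟩, DT, mx⟩ :
      ∃ D, G D ∧ D ≤ T ∧ ∀ F, G F → Nat.card F ≤ Nat.card D := by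
    obtain ⟨D, ⟨a, b, c, k, kM, hk⟩, mx⟩ := Set.exists_max_image {F | G F} (fun F => Nat.card F)
      (Set.toFinite _) ⟨_, G0⟩
    obtain ⟨m, hm, e⟩ := toT D c a
    have DT : D.map (MulAut.conj m).toMonoidHom ≤ T := by rintro _ ⟨x, hx, rfl⟩; exact e x hx
    refine ⟨_, ⟨a.map _, (Subgroup.map_mono b).trans ?_, DT.trans le, k * m⁻¹,
      fun h => kM ((M.mul_mem_cancel_right (inv_mem hm)).1 h), ?_⟩, DT, fun F hF =>
      (mx F hF).trans_eq (Subgroup.card_map_of_injective (MulAut.conj m).injective).symm⟩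
    · rw [MonoidHom.map_closure]
      refine Subgroup.closure_mono ?_
      rintro _ ⟨x, hx, rfl⟩
      exact ⟨Qd.conj hx.1 m, x, hx.2, rfl⟩
    · rintro _ ⟨x, hx, rfl⟩
      simpa [mul_assoc] using hk x hx
  have D0 : D ≠ ⊥ := fun h => d1 (Subgroup.mem_bot.1 (Subgroup.card_le_one_iff_eq_bot _ |>.1
    (by simpa [h] using mx _ G0) ▸ Subgroup.subset_closure rfl))
  have big : ∀ y, Qd ρ y → y ∈ Subgroup.normalizer (D : Set L) → y ∉ D → y ∈ M →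
      ∀ g, (∀ x ∈ D, g * x * g⁻¹ ∈ M) → g * y * g⁻¹ ∈ M → g ∈ M := fun y hy yN yD yM g a b =>
    by_contra fun gM => yD (Subgroup.eq_of_le_of_card_ge (le_sup_left (b := Subgroup.closure {y}))
      (mx _ ⟨pD.to_sup_of_normal_left' (pc y hy) ((Subgroup.closure_le _).2 (by simpa using yN)),
        sup_le (gD.trans (Subgroup.closure_mono fun x hx => ⟨hx.1, Subgroup.mem_sup_left hx.2⟩))
          (Subgroup.closure_mono (by
            rintro _ rfl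
            exact ⟨hy, Subgroup.mem_sup_right (Subgroup.subset_closure rfl)⟩)),
        sup_le DM ((Subgroup.closure_le M).2 (by simpa using yM)), g, gM,
        sup_le (b := Subgroup.closure {y}) (c := M.comap (MulAut.conj g).toMonoidHom) a
          ((Subgroup.closure_le _).2 (by rintro _ rfl; exact b))⟩) ▸
      Subgroup.mem_sup_right (Subgroup.subset_closure rfl))
  have cj : ∀ S : Subgroup L, ∀ x ∈ Q, ∀ g ∈ S, g * x * g⁻¹ ∈ Q := fun _ x hx g _ => Qd.conj hx g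
  have HM : ¬ Subgroup.normalizer (D : Set L) ≤ M := fun HM => by
    obtain ⟨m, hm, e⟩ := toT (D.map (MulAut.conj k).toMonoidHom)
      (by rintro _ ⟨x, hx, rfl⟩; exact hk x hx) (pD.map _)
    have a : m * k ∉ M := fun h => kM ((M.mul_mem_cancel_left hm).1 h)
    have e' : D ≤ (T : Subgroup L).comap (MulAut.conj (m * k)).toMonoidHom := fun x hx => by
      simpa [mul_assoc] using e _ ⟨x, hx, rfl⟩
    obtain ⟨y, b, c, f, h⟩ := chain (T.isPGroup'.comap_of_injective _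
      (MulAut.conj (m * k)).injective) (cj _) e' gD (by
        by_contra! h
        exact a (inv_mem_iff.1 (uv _ fun x xT hx => DM (h _ (hx.conj _) (by simpa [mul_assoc] using xT)))))
    exact a (big y b h f (HM h) _ (fun x hx => le (e' hx)) (le c))
  obtain ⟨R, hR⟩ : ∃ R, R = Subgroup.closure
    (Q ∩ ((T : Subgroup L) ⊓ Subgroup.normalizer (D : Set L) : Subgroup L)) := ⟨_, rfl⟩
  have RT : R ≤ (T : Subgroup L) ⊓ Subgroup.normalizer (D : Set L) :=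
    hR ▸ (Subgroup.closure_le _).2 fun _ h => h.2
  have mR : ∀ x, Qd ρ x → x ∈ (T : Subgroup L) → x ∈ Subgroup.normalizer (D : Set L) → x ∈ R :=
    fun x a b c => hR ▸ Subgroup.subset_closure ⟨a, b, c⟩
  have DR : D ≤ R := gD.trans ((Subgroup.closure_le _).2 fun x hx =>
    mR x hx.1 (DT hx.2) (Subgroup.le_normalizer hx.2))
  obtain ⟨z, hz, zT, zR, zN⟩ := chain T.isPGroup' (cj _) (RT.trans inf_le_left)
    (hR.le.trans (Subgroup.closure_mono fun x hx => ⟨hx.1, mR x hx.1 hx.2.1 hx.2.2⟩)) (by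
      by_contra! h
      exact HM (nm D pD D0 fun x a b => (RT (h x b a)).2))
  obtain ⟨u, hu, uD, u2⟩ : ∃ u, Qd ρ u ∧ u ∈ D ∧ z * u * z⁻¹ ∉ D := by
    by_contra! h
    exact zR (mR z hz zT (norm_of_gen gD h))
  obtain ⟨U, hU⟩ : ∃ U, U = Subgroup.closure
    {x | ∃ y ∈ D, x = y ∨ x = z * y * z⁻¹ ∨ x = z⁻¹ * y * z} := ⟨_, rfl⟩
  have UR : U ≤ R := hU ▸ (Subgroup.closure_le _).2 (by
    rintro _ ⟨y, hy, rfl | rfl | rfl⟩
    exacts [DR hy, (Subgroup.mem_normalizer_iff.1 zN _).1 (DR hy),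
      (Subgroup.mem_normalizer_iff''.1 zN _).1 (DR hy)])
  have DU : D ≤ U := fun y hy => hU ▸ Subgroup.subset_closure ⟨y, hy, .inl rfl⟩
  have uU : z * u * z⁻¹ ∈ U := hU ▸ Subgroup.subset_closure ⟨u, uD, .inr (.inl rfl)⟩
  have UM : U ≤ M := UR.trans (RT.trans (inf_le_left.trans le))
  have bg := big _ (hu.conj z) (RT (UR uU)).2 u2 (UM uU)
  obtain ⟨J, ⟨UJ, JH, JM⟩, mn⟩ := (wellFounded_lt (α := Subgroup L)).has_min
    {J | U ≤ J ∧ J ≤ Subgroup.normalizer (D : Set L) ∧ ¬ J ≤ M}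
    ⟨_, UR.trans (RT.trans inf_le_right), le_rfl, HM⟩
  have nD : ∀ j ∈ J, ∀ y ∈ D, j * y * j⁻¹ ∈ D := fun j hj y =>
    (Subgroup.mem_normalizer_iff.1 (JH hj) y).1
  refine Axes.false (ρ := ρ) ⟨h3, cb z hz, hz, hu, uD, hU, UJ, UM, nD, fun K a =>
    or_iff_not_imp_right.2 fun b => inf_eq_right.1 ((inf_le_right (a := K)).eq_or_lt.resolve_right
      (mn _ ⟨le_inf a UJ, inf_le_right.trans JH, b⟩)),
    fun g hg => bg g fun x hx => DM (nD g hg x hx)⟩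
    (T.isPGroup'.to_le (UR.trans (RT.trans inf_le_left))) JM fun P hP UP => ?_
  obtain ⟨S, hS⟩ := hP.exists_le_sylow
  obtain ⟨s, rfl⟩ := MulAction.exists_smul_eq L T S
  have e : ∀ x ∈ P, s⁻¹ * x * s⁻¹⁻¹ ∈ (T : Subgroup L) := fun x hx => by
    rw [inv_inv]
    exact mem_smul_syl.1 (hS hx)
  have sM := bg s⁻¹ (fun x hx => le (e x (UP (DU hx)))) (le (e _ (UP uU)))
  obtain ⟨v, -, v0, hv⟩ := fix_H5 ρ (fun v => by
    have := DFunLike.congr_fun h3 v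
    rwa [show (3 : AddMonoid.End V) = 1 + 1 + 1 by norm_num] at this) T.isPGroup' (X := ⊤)
    (fun _ _ _ _ => trivial) fun a => d1 (inj (AddMonoidHom.ext fun v => by
      obtain rfl : v = 0 := AddSubgroup.mem_bot.1 (a ▸ AddSubgroup.mem_top v)
      exact (map_zero (ρ d)).trans (map_zero (ρ 1)).symm))
  have sv : stabV ρ v ≤ M := (um _ fun x a _ => hv x a).resolve_left fun a =>
    v0 (nf v fun g => show g ∈ stabV ρ v from a ▸ trivial)
  refine ⟨ρ s v, fun p hp => ?_, fun g hg => ?_⟩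
  · conv_rhs => rw [← hv _ (e p hp), inv_inv, mul_ap, mul_ap, ap_inv_ap]
  · have : s⁻¹ * g * s ∈ M := sv (by
      change ρ _ v = v
      rw [mul_ap, mul_ap, hg, inv_ap_ap])
    simpa [mul_assoc] using M.mul_mem (M.mul_mem (M.inv_mem sM) this) sM

omit [Finite L] in
theorem o3_H5 (h3 : (3 : AddMonoid.End V) = 0) (inj : Function.Injective ρ)
    (sm : ∀ Y : AddSubgroup V, (∀ g, ∀ y ∈ Y, ρ g y ∈ Y) → Y = ⊥ ∨ Y = ⊤) (R : Subgroup L)
    (n : R.Normal) (hR : IsPGroup 3 R) : R = ⊥ := by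
  let Y : AddSubgroup V :=
    { carrier := {v | ∀ r ∈ R, ρ r v = v}
      add_mem' := fun a b r hr => by rw [map_add, a r hr, b r hr]
      zero_mem' := fun _ _ => map_zero _
      neg_mem' := fun a r hr => by rw [map_neg, a r hr] }
  have k : ∀ v, v ∈ Y := fun v => by
    by_contra a
    obtain ⟨y, -, y0, hy⟩ := fix_H5 ρ (fun v => by
      have := DFunLike.congr_fun h3 v
      rwa [show (3 : AddMonoid.End V) = 1 + 1 + 1 by norm_num] at this) hR (X := ⊤)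
      (fun _ _ _ _ => trivial) fun b => a (AddSubgroup.mem_bot.1 (b ▸ AddSubgroup.mem_top v) ▸
        Y.zero_mem)
    rcases sm Y (fun g y hy r hr => by
      conv_rhs => rw [← hy _ (n.conj_mem r hr g⁻¹), inv_inv, mul_ap, mul_ap, ap_inv_ap]) with b | b
    exacts [y0 (AddSubgroup.mem_bot.1 (b ▸ show y ∈ Y from hy)), a (b ▸ trivial)]
  exact eq_bot_iff.2 fun r hr => inj (by rw [map_one]; exact AddMonoidHom.ext fun v => k v r hr)

/-- The hypotheses of the pure part hold for a faithful simple module without fixed vectors. -/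
theorem pure_H5 {D : Set L} (h3 : (3 : AddMonoid.End V) = 0) (inj : Function.Injective ρ)
    (o3 : ∀ R : Subgroup L, R.Normal → IsPGroup 3 R → R = ⊥)
    (nf : ∀ v, (∀ g, ρ g v = v) → v = 0) (quad : ∀ {d}, d ∈ D → Qd ρ d)
    (conj : ∀ {d}, d ∈ D → ∀ g, g * d * g⁻¹ ∈ D) (inv : ∀ {d}, d ∈ D → d⁻¹ ∈ D) (ne : M ≠ ⊤)
    (le : (T : Subgroup L) ≤ M)
    (um : ∀ K : Subgroup L, (∀ d ∈ (T : Subgroup L), d ∈ D → d ∈ K) → K = ⊤ ∨ K ≤ M)
    (th : ∀ H : Subgroup L, ¬ H ≤ M → ∀ d ∈ H ⊓ M, ∀ e ∈ H ⊓ M, d ∈ D → e ∈ D →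
      Commute d e → d ≠ 1 → e ≠ 1 → e ≠ d → e ≠ d⁻¹ →
      (∀ f ∈ Subgroup.closure {d, e}, f ≠ 1 → ∀ g ∈ H, g * f * g⁻¹ ∈ M → g ∈ M) →
      ¬ ∀ g ∈ H, (ρ d - 1) * (ρ e - 1) * ρ g * ((ρ d - 1) * (ρ e - 1)) = 0) : Pure ρ D M T :=
  ⟨h3, inj, quad, conj, inv, ne, le, fun _ dM hd d1 _ => ax_H5 h3 inj le
    (fun K a => um K fun d b c => a d b (quad c)) o3 nf dM hd d1, um, fun f n hf c => by
    have : Fact (Nat.Prime 3) := ⟨Nat.prime_three⟩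
    obtain ⟨k, -, hk⟩ := (Nat.dvd_prime_pow Nat.prime_three).1 (orderOf_dvd_of_pow_eq_one hf)
    exact Subgroup.zpowers_eq_bot.1 (o3 _ ⟨by
      rintro _ ⟨i, rfl⟩ g
      rw [← ((c g).zpow_left i).eq, mul_inv_cancel_right]
      exact ⟨i, rfl⟩⟩ (IsPGroup.of_card (by rw [Nat.card_zpowers, hk]))), th⟩

end Pool.Agent.MP_a5588a_al.Full
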