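import Mathlib

/-! A quadratic element commuting with one member of a generic braid pair commutes with the
central involution of the pair. -/

namespace Pool.Agent.MP_a5588a_al.Full

variable {L R : Type*} [Group L] [Ring R]

theorem gen_inv (ρ : L →* R) {g : L} {u v : R} (h : ρ g = u) (e : u * v = 1) : ρ g⁻¹ = v := by
  calc ρ g⁻¹ = ρ g⁻¹ * (ρ g * v) := by rw [h, e, mul_one]
    _ = v := by rw [← mul_assoc, ← map_mul, inv_mul_cancel, map_one, one_mul]

theorem gen_quad (ρ : L →* R) {g : L} {a : R} (h : ρ g = 1 + a) (ha : a * a = 0) :
    ρ g⁻¹ = 1 - a :=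
  gen_inv ρ h (by linear_combination (norm := noncomm_ring) -ha)

theorem gen_stage (ρ : L →* R) (h3 : (3 : R) = 0) (L₀ L₁ : Subgroup L) {w q : L} {a s A B K : R}
    (hw : ρ w = 1 + s) (hq : ρ q = 1 + A + B + K) (hq' : ρ q⁻¹ = 1 - A - B + K)
    (ha : a * a = 0) (hs : s * s = 0) (hasa : a * s * a + a = 0) (hsas : s * a * s + s = 0)
    (eA : a * s * A + A = 0) (eA2 : A * a = 0) (eA3 : A * s = 0) (eB : B * s * a + B = 0)
    (eB2 : a * B = 0) (eB3 : s * B = 0) (eBA : B * A = 0) (eK : A * B + K = 0)
    (nil : K * s * K * s * K = 0) (hw1 : w ∈ L₁)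
    (H : ∀ x ∈ L₀, x ∈ L₁ → ∀ e, ρ x = 1 + e → e * e = 0 → e = 0)
    (N₀ : ∀ x e, ρ x = 1 + e → e * e = 0 → e * a * (e * a) = 0 → x ∈ L₀)
    (N₁ : ∀ x e, ρ x = 1 + e → e * e = 0 → e * s * (e * s) = 0 → x ∈ L₁) : A = 0 ∧ B = 0 := by
  have dKA : K * A = 0 := by
    linear_combination (norm := noncomm_ring)
      eK * A - A * eBA
  have dBK : B * K = 0 := by
    linear_combination (norm := noncomm_ring)
      - eBA * B + B * eK
  have dKK : K * K = 0 := by
    linear_combination (norm := noncomm_ring)
      - eK * A * B + A * eBA * B + K * eK
  have daA : a * A = 0 := by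
    linear_combination (norm := noncomm_ring)
      - ha * s * A + a * eA
  have daK : a * K = 0 := by
    linear_combination (norm := noncomm_ring)
      ha * s * A * B - a * eA * B + a * eK
  have dAA : A * A = 0 := by
    linear_combination (norm := noncomm_ring)
      - eA2 * s * A + A * eA
  have dAK : A * K = 0 := by
    linear_combination (norm := noncomm_ring)
      eA2 * s * A * B - A * eA * B + A * eK
  have dasK : K + a * s * K = 0 := by
    linear_combination (norm := noncomm_ring)
      - eA * B + a * s * eK + eK
  have dBa : B * a = 0 := by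
    linear_combination (norm := noncomm_ring)
      eB * a - B * s * ha
  have dKa : K * a = 0 := by
    linear_combination (norm := noncomm_ring)
      eK * a - A * eB * a + A * B * s * ha
  have dBB : B * B = 0 := by
    linear_combination (norm := noncomm_ring)
      eB * B - B * s * eB2
  have dKB : K * B = 0 := by
    linear_combination (norm := noncomm_ring)
      eK * B - A * eB * B + A * B * s * eB2
  have dKsa : K + K * s * a = 0 := by
    linear_combination (norm := noncomm_ring)
      eK * s * a - A * eB + eK
  have hwi := gen_quad ρ hw hs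
  obtain ⟨s2, e2⟩ : ∃ s2, s2 = s - B * s + K * s + s * A + s * K - B * s * A - B * s * K + K * s * A + K * s * K := ⟨_, rfl⟩
  obtain ⟨s3, e3⟩ : ∃ s3, s3 = s + B * s + K * s - s * A + s * K - B * s * A + B * s * K - K * s * A + K * s * K := ⟨_, rfl⟩
  have h2 : ρ (q⁻¹ * w * q) = 1 + s2 := by
    rw [map_mul, map_mul, hq, hq', hw, e2]
    linear_combination (norm := noncomm_ring)
      K * eB3 - B * eB3 - eA3 * K - eA3 * B - eA3 * A + dKK + dKB + dKA - dBK - dBB - eBA - dAK
      - eK - dAA - eA3 + eB3 + (K) * h3
  have h3' : ρ (q * w * q⁻¹) = 1 + s3 := by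
    rw [map_mul, map_mul, hq, hq', hw, e3]
    linear_combination (norm := noncomm_ring)
      - K * eB3 - B * eB3 + eA3 * K - eA3 * B - eA3 * A + dKK - dKB - dKA + dBK - dBB - eBA +
      dAK - eK - dAA + eA3 - eB3 + (K) * h3
  have q2 : s2 * s2 = 0 := by
    rw [e2]
    linear_combination (norm := noncomm_ring)
      K * s * dKK * s * K + K * s * dKK * s * A - K * s * dKB * s * K - K * s * dKB * s * A + K
      * s * dAK * s * K + K * s * dAK * s * A - K * s * eK * s * K - K * s * eK * s * A - B * s
      * dKK * s * K - B * s * dKK * s * A + B * s * dKB * s * K + B * s * dKB * s * A - B * s *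
      dAK * s * K - B * s * dAK * s * A + B * s * eK * s * K + B * s * eK * s * A + K * s * dKK
      * s - K * s * dKB * s + 3 * nil - K * eB3 * s * K - K * eB3 * s * A + K * s * dAK * s - K
      * s * eK * s + K * s * eA3 * K + K * s * eA3 * A - B * s * dKK * s + B * s * dKB * s + B *
      eB3 * s * K + B * eB3 * s * A - B * s * dAK * s + B * s * eK * s - B * s * eA3 * K - B * s
      * eA3 * A + s * dKK * s * K + s * dKK * s * A - s * dKB * s * K - s * dKB * s * A + s *
      dAK * s * K + s * dAK * s * A - s * eK * s * K - s * eK * s * A - K * eB3 * s + K * s *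
      eA3 + K * hs * K + K * hs * A + B * eB3 * s - B * s * eA3 - B * hs * K - B * hs * A + s *
      dKK * s - s * dKB * s - eB3 * s * K - eB3 * s * A + s * dAK * s - s * eK * s + s * eA3 * K
      + s * eA3 * A + K * hs - B * hs - eB3 * s + s * eA3 + hs * K + hs * A + hs + (s * K * s -
      B * s * K * s + K * s * K * s + s * K * s * A + s * K * s * K - B * s * K * s * A - B * s
      * K * s * K + K * s * K * s * A) * h3
  have q3 : s3 * s3 = 0 := by
    rw [e3]
    linear_combination (norm := noncomm_ring)
      K * s * dKK * s * K - K * s * dKK * s * A + K * s * dKB * s * K - K * s * dKB * s * A - K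
      * s * dAK * s * K + K * s * dAK * s * A - K * s * eK * s * K + K * s * eK * s * A + B * s
      * dKK * s * K - B * s * dKK * s * A + B * s * dKB * s * K - B * s * dKB * s * A - B * s *
      dAK * s * K + B * s * dAK * s * A - B * s * eK * s * K + B * s * eK * s * A + K * s * dKK
      * s + K * s * dKB * s + 3 * nil + K * eB3 * s * K - K * eB3 * s * A - K * s * dAK * s - K
      * s * eK * s - K * s * eA3 * K + K * s * eA3 * A + B * s * dKK * s + B * s * dKB * s + B *
      eB3 * s * K - B * eB3 * s * A - B * s * dAK * s - B * s * eK * s - B * s * eA3 * K + B * s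
      * eA3 * A + s * dKK * s * K - s * dKK * s * A + s * dKB * s * K - s * dKB * s * A - s *
      dAK * s * K + s * dAK * s * A - s * eK * s * K + s * eK * s * A + K * eB3 * s - K * s *
      eA3 + K * hs * K - K * hs * A + B * eB3 * s - B * s * eA3 + B * hs * K - B * hs * A + s *
      dKK * s + s * dKB * s + eB3 * s * K - eB3 * s * A - s * dAK * s - s * eK * s - s * eA3 * K
      + s * eA3 * A + K * hs + B * hs + eB3 * s - s * eA3 + hs * K - hs * A + hs + (s * K * s +
      B * s * K * s + K * s * K * s - s * K * s * A + s * K * s * K - B * s * K * s * A + B * s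
      * K * s * K - K * s * K * s * A) * h3
  have m2 : q⁻¹ * w * q ∈ L₁ := N₁ _ _ h2 q2 (by
    rw [e2]
    linear_combination (norm := noncomm_ring)
      nil * s * K * s + K * s * K * s * K * s * eA3 - K * s * K * eB3 * s * K * s - K * s * K *
      s * B * s * eA3 + K * s * eA3 * K * s * K * s + K * s * eA3 * K * s * A * s - K * s * eA3
      * B * s * K * s - K * s * eA3 * B * s * A * s - B * s * nil * s - B * s * K * s * K * s *
      eA3 + B * s * K * eB3 * s * K * s + B * s * K * s * B * s * eA3 - B * s * eA3 * K * s * K
      * s - B * s * eA3 * K * s * A * s + B * s * eA3 * B * s * K * s + B * s * eA3 * B * s * A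
      * s + K * s * K * s * K * hs - K * s * K * s * B * hs + K * s * K * hs * K * s + K * s * K
      * hs * A * s + K * s * A * s * K * hs - K * s * A * s * B * hs + K * s * A * hs * K * s +
      K * s * A * hs * A * s + K * hs * K * s * K * s + K * hs * K * s * A * s - K * hs * B * s
      * K * s - K * hs * B * s * A * s - B * s * K * s * K * hs + B * s * K * s * B * hs - B * s
      * K * hs * K * s - B * s * K * hs * A * s - B * s * A * s * K * hs + B * s * A * s * B *
      hs - B * s * A * hs * K * s - B * s * A * hs * A * s - B * hs * K * s * K * s - B * hs * K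
      * s * A * s + B * hs * B * s * K * s + B * hs * B * s * A * s + s * nil * s + s * K * s *
      K * s * eA3 - s * K * eB3 * s * K * s - s * K * s * B * s * eA3 + s * eA3 * K * s * K * s
      + s * eA3 * K * s * A * s - s * eA3 * B * s * K * s - s * eA3 * B * s * A * s + K * s * K
      * hs * s + K * s * A * hs * s + K * hs * K * s * s - K * hs * B * s * s + K * hs * s * K *
      s + K * hs * s * A * s - B * s * K * hs * s - B * s * A * hs * s - B * hs * K * s * s + B
      * hs * B * s * s - B * hs * s * K * s - B * hs * s * A * s + s * K * s * K * hs - s * K *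
      s * B * hs + s * K * hs * K * s + s * K * hs * A * s + s * A * s * K * hs - s * A * s * B
      * hs + s * A * hs * K * s + s * A * hs * A * s + hs * K * s * K * s + hs * K * s * A * s -
      hs * B * s * K * s - hs * B * s * A * s + K * hs * s * s - B * hs * s * s + s * K * hs * s
      + s * A * hs * s + hs * K * s * s - hs * B * s * s + hs * s * K * s + hs * s * A * s + hs
      * s * s)
  have m3 : q * w * q⁻¹ ∈ L₁ := N₁ _ _ h3' q3 (by
    rw [e3]
    linear_combination (norm := noncomm_ring)
      nil * s * K * s - K * s * K * s * K * s * eA3 + K * s * K * eB3 * s * K * s - K * s * K *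
      s * B * s * eA3 - K * s * eA3 * K * s * K * s + K * s * eA3 * K * s * A * s - K * s * eA3
      * B * s * K * s + K * s * eA3 * B * s * A * s + B * s * nil * s - B * s * K * s * K * s *
      eA3 + B * s * K * eB3 * s * K * s - B * s * K * s * B * s * eA3 - B * s * eA3 * K * s * K
      * s + B * s * eA3 * K * s * A * s - B * s * eA3 * B * s * K * s + B * s * eA3 * B * s * A
      * s + K * s * K * s * K * hs + K * s * K * s * B * hs + K * s * K * hs * K * s - K * s * K
      * hs * A * s - K * s * A * s * K * hs - K * s * A * s * B * hs - K * s * A * hs * K * s +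
      K * s * A * hs * A * s + K * hs * K * s * K * s - K * hs * K * s * A * s + K * hs * B * s
      * K * s - K * hs * B * s * A * s + B * s * K * s * K * hs + B * s * K * s * B * hs + B * s
      * K * hs * K * s - B * s * K * hs * A * s - B * s * A * s * K * hs - B * s * A * s * B *
      hs - B * s * A * hs * K * s + B * s * A * hs * A * s + B * hs * K * s * K * s - B * hs * K
      * s * A * s + B * hs * B * s * K * s - B * hs * B * s * A * s + s * nil * s - s * K * s *
      K * s * eA3 + s * K * eB3 * s * K * s - s * K * s * B * s * eA3 - s * eA3 * K * s * K * s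
      + s * eA3 * K * s * A * s - s * eA3 * B * s * K * s + s * eA3 * B * s * A * s + K * s * K
      * hs * s - K * s * A * hs * s + K * hs * K * s * s + K * hs * B * s * s + K * hs * s * K *
      s - K * hs * s * A * s + B * s * K * hs * s - B * s * A * hs * s + B * hs * K * s * s + B
      * hs * B * s * s + B * hs * s * K * s - B * hs * s * A * s + s * K * s * K * hs + s * K *
      s * B * hs + s * K * hs * K * s - s * K * hs * A * s - s * A * s * K * hs - s * A * s * B
      * hs - s * A * hs * K * s + s * A * hs * A * s + hs * K * s * K * s - hs * K * s * A * s +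
      hs * B * s * K * s - hs * B * s * A * s + K * hs * s * s + B * hs * s * s + s * K * hs * s
      - s * A * hs * s + hs * K * s * s + hs * B * s * s + hs * s * K * s - hs * s * A * s + hs
      * s * s)
  have h2i := gen_quad ρ h2 q2
  obtain ⟨mu, emu⟩ : ∃ mu, mu =
      B * s * K * s - K * s * K * s + s * K * s * A + s * K * s * K - B * s * K * s * K * s + s
      * K * s * K * s * A - B * s * K * s * K * s * A := ⟨_, rfl⟩
  obtain ⟨m, em⟩ : ∃ m, m = B * s * K * s - K * s * K * s + s * K * s * A + s * K * s * K := ⟨_, rfl⟩
  have f1 : s * s2 - s2 * s = m := by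
    rw [em, e2]
    linear_combination (norm := noncomm_ring)
      - K * s * eA3 + B * s * eA3 - eB3 * s * K - eB3 * s * A - K * hs + B * hs - eB3 * s - s *
      eA3 + hs * K + hs * A
  have f2 : m * (1 - s) * (1 - s2) = mu := by
    rw [em, emu, e2]
    linear_combination (norm := noncomm_ring)
      - K * s * K * hs * K * s * K - K * s * K * hs * K * s * A + K * s * K * hs * B * s * K + K
      * s * K * hs * B * s * A + B * s * K * hs * K * s * K + B * s * K * hs * K * s * A - B * s
      * K * hs * B * s * K - B * s * K * hs * B * s * A + s * nil * s * K + s * nil * s * A - s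
      * K * s * K * eB3 * s * K - s * K * s * K * eB3 * s * A + s * K * s * eA3 * K * s * K + s
      * K * s * eA3 * K * s * A - s * K * s * eA3 * B * s * K - s * K * s * eA3 * B * s * A +
      nil * s * K + nil * s * A - K * s * K * eB3 * s * K - K * s * K * eB3 * s * A - K * s * K
      * hs * K * s + K * s * K * hs * B * s - K * s * K * hs * s * K - K * s * K * hs * s * A -
      B * s * nil + B * s * K * eB3 * s * K + B * s * K * eB3 * s * A + B * s * K * hs * K * s -
      B * s * K * hs * B * s + B * s * K * hs * s * K + B * s * K * hs * s * A - s * K * s * dKK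
      * s * K - s * K * s * dKK * s * A + s * K * s * dKB * s * K + s * K * s * dKB * s * A + s
      * nil * s - s * K * s * K * eB3 * s + s * K * s * K * hs * K + s * K * s * K * hs * A - s
      * K * s * dAK * s * K - s * K * s * dAK * s * A + s * K * s * eK * s * K + s * K * s * eK
      * s * A + s * K * s * eA3 * K * s - s * K * s * eA3 * B * s + s * K * s * A * hs * K + s *
      K * s * A * hs * A + nil * s - K * s * K * eB3 * s + K * s * K * hs * K + K * s * K * hs *
      A - K * s * K * hs * s + B * s * K * eB3 * s - B * s * K * hs * K - B * s * K * hs * A + B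
      * s * K * hs * s - s * K * s * dKK * s + s * K * s * dKB * s - 2 * s * nil + s * K * s * K
      * hs - s * K * s * dAK * s + s * K * s * eK * s - s * K * s * eA3 * K - s * K * s * eA3 *
      A + s * K * s * A * hs + 2 * K * s * K * hs - 2 * B * s * K * hs - 2 * s * K * s * eA3 +
      (- s * K * s * K * s - s * K * s * K * s * A) * h3
  have hmu : ρ (w * (q⁻¹ * w * q) * w⁻¹ * (q⁻¹ * w * q)⁻¹) = 1 + mu := by
    rw [map_mul, map_mul, map_mul, h2, h2i, hw, hwi]
    linear_combination (norm := noncomm_ring) f1 * (1 - s) * (1 - s2) + f2
      - (1 + s2) * hs * (1 - s2) - q2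
  have qmu : mu * mu = 0 := by
    rw [emu]
    linear_combination (norm := noncomm_ring)
      B * s * K * s * K * s * eK * s * K * s * K * s * A - B * s * nil * s * K * s * K * s * A +
      B * s * K * s * K * eB3 * s * K * s * K * s * A + B * s * K * s * K * s * eK * s * K * s *
      K * s - B * s * K * s * K * s * eA3 * K * s * K * s * A - s * K * s * K * s * eK * s * K *
      s * K * s * A - B * s * nil * s * K * s * K * s + B * s * K * s * K * eB3 * s * K * s * K
      * s - B * s * K * s * K * hs * K * s * K * s * A + s * nil * s * K * s * K * s * A - s * K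
      * s * K * s * eK * s * K * s * K * s + s * K * s * K * s * eA3 * K * s * K * s * A + K * s
      * K * eB3 * s * K * s * K * s * A + B * s * K * s * K * s * dAK * s * K * s - B * s * K *
      s * K * s * eK * s * K * s - B * s * K * s * K * s * eA3 * K * s * K - B * s * K * s * K *
      s * eA3 * K * s * A - B * s * K * eB3 * s * K * s * K * s * A - s * K * s * dKB * s * K *
      s * K * s * A + s * nil * s * K * s * K * s - s * K * s * eK * s * K * s * K * s * A + K *
      s * K * eB3 * s * K * s * K * s - K * s * K * hs * K * s * K * s * A + 2 * B * s * nil * s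
      * K * s - B * s * K * s * K * eB3 * s * K * s - B * s * K * s * K * hs * K * s * K - B * s
      * K * s * K * hs * K * s * A - B * s * K * eB3 * s * K * s * K * s + B * s * K * hs * K *
      s * K * s * A - s * K * s * dKB * s * K * s * K * s + 2 * s * nil * s * K * s * A - s * K
      * s * K * s * dAK * s * K * s + s * K * s * K * s * eK * s * K * s + s * K * s * K * s *
      eA3 * K * s * K + s * K * s * K * s * eA3 * K * s * A - s * K * s * eK * s * K * s * K * s
      + s * K * s * eA3 * K * s * K * s * A + nil * s * K * s - K * s * K * eB3 * s * K * s - K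
      * s * K * hs * K * s * K - K * s * K * hs * K * s * A - B * s * nil * s + B * s * K * eB3
      * s * K * s + B * s * K * hs * K * s * K + B * s * K * hs * K * s * A - s * K * s * dKK *
      s * K * s + s * K * s * dKB * s * K * s + s * nil * s * K + s * nil * s * A - s * K * s *
      dAK * s * K * s + s * K * s * eK * s * K * s + s * K * s * eA3 * K * s * K + s * K * s *
      eA3 * K * s * A - s * nil * s
  have hm : mu = 0 := H _ (N₀ _ _ hmu qmu (by
    rw [emu]
    linear_combination (norm := noncomm_ring)
      B * s * K * s * K * s * eA2 * B * s * K * s * K * s * A * a + B * s * K * s * K * s * eA2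
      * B * s * K * s * K * s * a - B * s * K * s * K * s * eA2 * s * K * s * K * s * A * a + B
      * s * K * s * K * s * a * B * s * K * s * K * s * eA2 - s * K * s * K * s * eA2 * B * s *
      K * s * K * s * A * a + B * s * K * s * K * s * eB2 * s * K * s * K * s * a - B * s * K *
      s * K * s * a * s * K * s * K * s * eA2 - s * K * s * K * s * eA2 * B * s * K * s * K * s
      * a + s * K * s * K * s * eA2 * s * K * s * K * s * A * a + K * s * K * s * a * B * s * K
      * s * K * s * eA2 + B * s * K * s * K * s * A * daK * s * K * s * a - B * s * K * s * K *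
      s * eA2 * B * s * K * s * a - B * s * K * s * K * s * A * a * s * K * s * dKa - B * s * K
      * s * K * s * eA2 * s * K * s * A * a - B * s * K * s * a * B * s * K * s * K * s * eA2 -
      s * K * s * dKa * B * s * K * s * K * s * A * a - s * K * s * eA2 * B * s * K * s * K * s
      * A * a + K * s * K * s * eB2 * s * K * s * K * s * a - K * s * K * s * a * s * K * s * K
      * s * eA2 + B * s * K * s * K * s * daK * s * K * s * a - B * s * K * s * K * s * eB2 * s
      * K * s * a - B * s * K * s * K * s * a * s * K * s * dKa - B * s * K * s * K * s * a * s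
      * K * s * eA2 - B * s * K * s * eB2 * s * K * s * K * s * a + B * s * K * s * a * s * K *
      s * K * s * eA2 - s * K * s * K * s * A * daK * s * K * s * a + s * K * s * K * s * eA2 *
      B * s * K * s * a + s * K * s * K * s * A * a * s * K * s * dKa + s * K * s * K * s * eA2
      * s * K * s * A * a - s * K * s * dKa * B * s * K * s * K * s * a + s * K * s * dKa * s *
      K * s * K * s * A * a - s * K * s * eA2 * B * s * K * s * K * s * a + s * K * s * eA2 * s
      * K * s * K * s * A * a + K * s * K * s * daK * s * K * s * a - K * s * K * s * eB2 * s *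
      K * s * a - K * s * K * s * a * s * K * s * dKa - K * s * K * s * a * s * K * s * eA2 - B
      * s * K * s * daK * s * K * s * a + B * s * K * s * eB2 * s * K * s * a + B * s * K * s *
      a * s * K * s * dKa + B * s * K * s * a * s * K * s * eA2 - s * K * s * K * daK * s * K *
      s * a + s * K * s * dKa * B * s * K * s * a + s * K * s * dKa * s * K * s * K * a + s * K
      * s * dKa * s * K * s * A * a - s * K * s * A * daK * s * K * s * a + s * K * s * eA2 * B
      * s * K * s * a + s * K * s * A * a * s * K * s * dKa + s * K * s * eA2 * s * K * s * A *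
      a))
    (mul_mem (mul_mem (mul_mem hw1 m2) (inv_mem hw1)) (inv_mem m2)) _ hmu qmu
  have hm0 : m = 0 := by
    rw [hm] at f2
    linear_combination (norm := noncomm_ring) f2 * (1 + s2) * (1 + s) + m * (1 - s) * q2 * (1 + s)
      + m * hs
  rw [em] at hm0
  have dKsK : K * s * K = 0 := by
    linear_combination (norm := noncomm_ring)
      daK * s * K * s * B + a * hm0 * B - eB2 * s * K * s * B - dasK * s * K * B - dasK * s * A
      * B + K * s * dKB + K * s * eK
  have dBsK : B * s * K = 0 := by
    linear_combination (norm := noncomm_ring)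
      - hm0 * a - K * s * dKsa + B * s * dKsa + s * K * s * dKa + s * K * s * eA2 + daK * s * K
      * s * B + a * hm0 * B - eB2 * s * K * s * B - dasK * s * K * B - dasK * s * A * B + K * s
      * dKB + K * s * eK
  have dKsA : K * s * A = 0 := by
    linear_combination (norm := noncomm_ring)
      - daK * s * K * s * B - a * hm0 * B + eB2 * s * K * s * B + dasK * s * K * B + dasK * s *
      A * B - K * s * dKB - K * s * eK - daK * s * K * s - a * hm0 + eB2 * s * K * s + dasK * s
      * K + dasK * s * A
  obtain ⟨z0, ez⟩ : ∃ z0, z0 = - K * s - s * K + B * s * A := ⟨_, rfl⟩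
  have hz0 : ρ (w * (q⁻¹ * w * q) * (q * w * q⁻¹)) = 1 + z0 := by
    rw [map_mul, map_mul, h2, h3', hw, ez, e2, e3]
    linear_combination (norm := noncomm_ring)
      s * K * s * dKK * s * K - s * K * s * dKK * s * A + s * K * s * dKB * s * K - s * K * s *
      dKB * s * A + s * K * s * dAK * s * K - s * K * s * dAK * s * A + s * K * s * A * dBsK - s
      * dKsA * B * s * A - s * B * s * dKK * s * K + s * B * s * dKK * s * A - s * B * s * dKB *
      s * K + s * B * s * dKB * s * A - s * B * s * dAK * s * K + s * B * s * dAK * s * A - eB3
      * s * A * B * s * K + eB3 * s * A * B * s * A + K * s * dKK * s * K - K * s * dKK * s * A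
      + K * s * dKB * s * K - K * s * dKB * s * A + K * s * dAK * s * K - K * s * dAK * s * A +
      K * s * A * dBsK - dKsA * B * s * A - B * s * dKK * s * K + B * s * dKK * s * A - B * s *
      dKB * s * K + B * s * dKB * s * A - B * s * dAK * s * K + B * s * dAK * s * A - B * s * A
      * dBsK + B * s * eK * s * A + s * K * s * dKK * s + s * K * s * dKB * s + 2 * s * dKsK * s
      * K - 2 * s * dKsK * s * A + s * K * eB3 * s * K - s * K * eB3 * s * A + s * K * s * dAK *
      s + s * dKsA * B * s + s * K * s * eA3 * K - s * K * s * eA3 * A - s * B * s * dKK * s - s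
      * B * s * dKB * s - 2 * eB3 * s * K * s * K + 2 * eB3 * s * K * s * A - eB3 * s * B * s *
      K + eB3 * s * B * s * A - s * B * s * dAK * s - eB3 * s * A * B * s - s * B * s * eA3 * K
      + s * B * s * eA3 * A + s * s * dKK * s * K - s * s * dKK * s * A + s * s * dKB * s * K -
      s * s * dKB * s * A + s * s * dAK * s * K - s * s * dAK * s * A + hs * A * B * s * K - hs
      * A * B * s * A + K * s * dKK * s + K * s * dKB * s + 2 * dKsK * s * K - 2 * dKsK * s * A
      + K * eB3 * s * K - K * eB3 * s * A + K * s * dAK * s + dKsA * B * s + K * s * eA3 * K - K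
      * s * eA3 * A - B * s * dKK * s - B * s * dKB * s - 2 * B * s * dKsK + dBsK * s * A - B *
      eB3 * s * K + B * eB3 * s * A - B * s * dAK * s - B * s * eK * s - B * s * eA3 * K + B * s
      * eA3 * A + s * dKK * s * K - s * dKK * s * A + s * dKB * s * K - s * dKB * s * A + 2 * s
      * dKsK * s + s * K * eB3 * s + s * K * s * eA3 + s * K * hs * K - s * K * hs * A - 2 * eB3
      * s * K * s - eB3 * s * B * s - s * B * s * eA3 - s * B * hs * K + s * B * hs * A + s *
      dAK * s * K - s * dAK * s * A + s * A * dBsK - s * eK * s * A + s * s * dKK * s + s * s *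
      dKB * s + 2 * hs * K * s * K - 2 * hs * K * s * A + hs * B * s * K - hs * B * s * A + s *
      s * dAK * s + hs * A * B * s + hs * A * s * K - hs * A * s * A + 2 * dKsK * s + K * eB3 *
      s + K * s * eA3 + K * hs * K - K * hs * A - dBsK * s - B * eB3 * s - B * s * eA3 - B * hs
      * K + B * hs * A + s * dKK * s + s * dKB * s + 4 * s * dKsK - s * dKsA + s * K * hs + eB3
      * s * K - 3 * eB3 * s * A - s * B * hs + s * dAK * s + s * eK * s + s * eA3 * K - s * eA3
      * A + 2 * hs * K * s + hs * B * s + hs * A * s + hs * s * K - hs * s * A + 2 * dKsK + K *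
      hs - B * hs + eB3 * s + s * eA3 + 3 * hs * K - hs * A + hs * s + 3 * hs + (s + K * s + s *
      K - B * s * A + s * K * s) * h3
  have qz : z0 * z0 = 0 := by
    rw [ez]
    linear_combination (norm := noncomm_ring)
      B * s * eK * s * A - K * eB3 * s * A - dBsK * s * A - B * s * dAK * s - B * s * eA3 * K -
      s * dKB * s * A + dKsK * s + K * hs * K + s * dKK * s + s * dKsK
  have hz : z0 = 0 := H _ (N₀ _ _ hz0 qz (by
    rw [ez]
    linear_combination (norm := noncomm_ring)
      B * s * eA2 * B * s * A * a - K * s * a * B * s * eA2 - B * s * A * daK * s * a - B * s *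
      A * a * s * dKa - s * dKa * B * s * A * a + K * s * daK * s * a + K * s * a * s * dKa + s
      * K * daK * s * a + s * dKa * s * K * a))
    (mul_mem (mul_mem hw1 m2) m3) _ hz0 qz
  rw [ez] at hz
  have dK : K = 0 := by
    linear_combination (norm := noncomm_ring)
      hz * a - B * s * eA2 + dKsa + s * dKa
  have dBsA : B * s * A = 0 := by
    linear_combination (norm := noncomm_ring)
      hz + hz * a * s - B * s * eA2 * s + dKsa * s + s * dKa * s + s * hz * a - s * B * s * eA2
      + s * dKsa + s * s * dKa
  have hu0 : ρ (w⁻¹ * (q⁻¹ * w * q)) = 1 + (- B * s + s * A) := by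
    rw [map_mul, h2, hwi, e2]
    linear_combination (norm := noncomm_ring)
      - s * dK * s * K - s * dK * s * A + s * B * s * dK + eB3 * s * A + dK * s * K + dK * s * A
      - B * s * dK - dBsA - s * dK * s + eB3 * s - s * s * dK - hs * A + dK * s + s * dK - hs
  have qu : (- B * s + s * A) * (- B * s + s * A) = 0 := by
    linear_combination (norm := noncomm_ring)
      B * eB3 * s - B * hs * A - s * eK * s + s * eA3 * A + s * dK * s
  have hu : - B * s + s * A = 0 := H _ (N₀ _ _ hu0 qu (by
    linear_combination (norm := noncomm_ring)
      B * s * eB2 * s * a - B * s * a * s * eA2 - s * eA2 * B * s * a + s * eA2 * s * A * a))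
    (mul_mem (inv_mem hw1) m2) _ hu0 qu
  constructor
  · linear_combination (norm := noncomm_ring)
      eA - a * hu - a * eB * s - a * hu * a * s + a * s * eA2 * s
  · linear_combination (norm := noncomm_ring)
      eB + hu * a - s * eA2

theorem gen_comm (ρ : L →* R) (h3 : (3 : R) = 0) (L₀ L₁ : Subgroup L) {y w z : L} {a s b : R}
    (hy : ρ y = 1 + a) (hw : ρ w = 1 + s) (hz : ρ z = 1 + b)
    (ha : a * a = 0) (hs : s * s = 0) (hasa : a * s * a + a = 0) (hsas : s * a * s + s = 0)
    (hb : b * b = 0) (hab : a * b - b * a = 0) (hw1 : w ∈ L₁)
    (H : ∀ x ∈ L₀, x ∈ L₁ → ∀ e, ρ x = 1 + e → e * e = 0 → e = 0)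
    (N₀ : ∀ x e, ρ x = 1 + e → e * e = 0 → e * a * (e * a) = 0 → x ∈ L₀)
    (N₁ : ∀ x e, ρ x = 1 + e → e * e = 0 → e * s * (e * s) = 0 → x ∈ L₁) :
    (a * s + s * a) * b = b * (a * s + s * a) := by
  have dabsa : a * b + a * b * s * a = 0 := by
    linear_combination (norm := noncomm_ring)
      hab * s * a + b * hasa + hab
  have ht : ρ ((y * w) ^ 3) = 1 - (a * s + s * a) := by
    rw [map_pow, map_mul, hy, hw]
    linear_combination (norm := noncomm_ring)
      hasa * s * a * s + s * hasa * s + a * hs * a * s + a * s * a * hs + hasa * s * a + a * s *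
      ha * s + ha * s * a * s + hs * a * s + s * a * hs + s * hasa + s * ha * s + a * hs * s + a
      * hs * a + 4 * hasa * s + a * s * ha + ha * s * s + ha * s * a + ha * a * s + hs * s + hs
      * a + 3 * hsas + s * ha + 4 * a * hs + 3 * hasa + 4 * ha * s + ha * a + 3 * hs + 3 * ha +
      (a * s + s * a) * h3
  have hti : ρ ((y * w) ^ 3)⁻¹ = 1 - (a * s + s * a) := gen_inv ρ ht (by
    linear_combination (norm := noncomm_ring)
      s * hasa + s * ha * s + a * hs * a + hasa * s + (- a * s - s * a) * h3)
  generalize (y * w) ^ 3 = t at ht hti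
  obtain ⟨bp, ebp⟩ : ∃ bp, bp = b + a * b * s - a * s * b - b * s * a + s * a * b + a * s * b * s * a := ⟨_, rfl⟩
  have hz' : ρ (t * z * t⁻¹) = 1 + bp := by
    rw [map_mul, map_mul, ht, hti, hz, ebp]
    linear_combination (norm := noncomm_ring)
      s * dabsa - s * a * hab * s + s * ha * b * s - a * s * hab * s + hasa * b * s + s * hasa +
      s * ha * s + a * hs * a + hasa * s + hab * s + (- a * s - s * a - a * b * s - s * a * b) *
      h3
  have qp : bp * bp = 0 := by
    rw [ebp]
    linear_combination (norm := noncomm_ring)
      a * s * b * s * ha * s * b * s * a - b * s * ha * s * b * s * a - s * a * hab * s * b * s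
      * a + s * ha * b * s * b * s * a + a * b * hsas * b * s * a - a * s * b * s * dabsa + a *
      s * b * s * hasa * b + a * s * b * s * ha * b * s - a * s * b * s * ha * s * b + a * s *
      hab * s * b * s * a - hasa * b * s * b * s * a + b * s * dabsa - b * s * hasa * b - b * s
      * ha * b * s + b * s * ha * s * b - hab * s * b * s * a - s * a * hb * s * a + s * dabsa *
      b - s * a * hab * b * s + s * a * hab * s * b + s * ha * b * b * s - s * ha * b * s * b +
      a * b * hs * a * b + dabsa * b * s - a * b * hsas * b + a * s * hb * s * a + a * s * hab *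
      b * s - a * s * hab * s * b - a * s * a * hb * s + hasa * b * s * b - hb * s * a - hab * b
      * s + hab * s * b - a * s * hb + hb
  have z0 : z ∈ L₀ := N₀ _ _ hz hb (by
    linear_combination (norm := noncomm_ring)
      - hab * b * a + a * hb * a)
  have z1 : t * z * t⁻¹ ∈ L₀ := N₀ _ _ hz' qp (by
    rw [ebp]
    linear_combination (norm := noncomm_ring)
      a * s * b * s * ha * a * s * b * s * a * a - b * s * ha * a * s * b * s * a * a + s * a *
      b * ha * s * b * s * a * a + a * b * s * ha * s * b * s * a * a - a * s * b * s * ha * b *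
      s * a * a + a * s * b * s * ha * s * a * b * a + a * s * b * s * ha * a * b * s * a - a *
      s * b * s * ha * a * s * b * a - a * s * b * ha * s * b * s * a * a + b * s * ha * b * s *
      a * a - b * s * ha * s * a * b * a - b * s * ha * a * b * s * a + b * s * ha * a * s * b *
      a + b * ha * s * b * s * a * a - s * a * b * a * b * s * ha - s * a * hab * s * a * b * a
      + s * a * b * ha * b * s * a - s * a * b * ha * s * b * a + s * ha * b * s * a * b * a - a
      * b * s * a * b * s * ha - a * b * s * a * s * a * hab + a * b * s * a * s * ha * b + a *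
      b * s * ha * b * s * a - a * b * s * ha * s * b * a + a * s * b * s * ha * b * a + a * s *
      b * a * b * s * ha + a * s * hab * s * a * b * a - a * s * b * ha * b * s * a + a * s * b
      * ha * s * b * a + a * s * a * b * s * a * hab - a * s * a * b * s * ha * b - b * s * ha *
      b * a - b * a * b * s * ha - hab * s * a * b * a + b * ha * b * s * a - b * ha * s * b * a
      - s * a * hab * b * a + s * ha * b * b * a - 2 * a * b * s * a * hab + 2 * a * b * s * ha
      * b + a * s * hab * b * a - a * s * a * hb * a - hab * b * a + a * hb * a)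
  have hzi := gen_quad ρ hz hb
  have hzi' := gen_quad ρ hz' qp
  obtain ⟨m, em⟩ : ∃ m, m = a * b * s * b - b * s * a * b + a * b * s * b * s * a - a * s * b * s * a * b := ⟨_, rfl⟩
  have f1 : b * bp - bp * b = m := by
    rw [em, ebp]
    linear_combination (norm := noncomm_ring)
      - hab * s * b * s * a - hb * s * a - hab * b * s + hab * s * b - s * a * hb + a * hb * s +
      a * s * hb + (- a * b * s * b + b * s * a * b) * h3
  have f2 : m * b + m * bp = 0 := by
    rw [em, ebp]
    linear_combination (norm := noncomm_ring)
      a * b * s * b * s * ha * s * b * s * a + a * s * b * s * a * hab * s * b * s * a - a * s *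
      b * s * ha * b * s * b * s * a + b * s * a * hab * s * b * s * a - b * s * ha * b * s * b
      * s * a - a * b * s * b * s * dabsa + a * b * s * b * s * hasa * b + a * b * s * b * s *
      ha * b * s - a * b * s * b * s * ha * s * b - a * b * s * hab * s * b * s * a + dabsa * b
      * s * b * s * a + a * s * b * s * a * hb * s * a - a * s * b * s * dabsa * b + a * s * b *
      s * a * hab * b * s - a * s * b * s * a * hab * s * b - a * s * b * s * ha * b * b * s + a
      * s * b * s * ha * b * s * b + b * s * a * hb * s * a - b * s * dabsa * b + b * s * a *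
      hab * b * s - b * s * a * hab * s * b - b * s * ha * b * b * s + b * s * ha * b * s * b -
      a * hb * s * b * s * a - a * b * s * hb * s * a - a * b * s * hab * b * s + a * b * s *
      hab * s * b + a * b * s * a * hb * s - dabsa * b * s * b - a * s * b * s * a * hb - b * s
      * a * hb + a * hb * s * b + 2 * a * b * s * hb + (a * b * s * b * s * a * b) * h3
  have f3 : m * b * bp = 0 := by
    rw [em, ebp]
    linear_combination (norm := noncomm_ring)
      - a * b * s * b * s * a * hab * s * b * s * a + a * b * s * b * s * ha * b * s * b * s * a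
      - a * s * b * s * a * hb * a * s * b * s * a - b * s * a * hb * a * s * b * s * a + a * b
      * s * hb * a * s * b * s * a - a * b * s * b * s * a * hb * s * a + a * b * s * b * s *
      dabsa * b - a * b * s * b * s * a * hab * b * s + a * b * s * b * s * a * hab * s * b + a
      * b * s * b * s * ha * b * b * s - a * b * s * b * s * ha * b * s * b + a * s * b * s * a
      * hb * b * s * a - a * s * b * s * a * hb * s * a * b - a * s * b * s * a * hb * a * b * s
      + a * s * b * s * a * hb * a * s * b + b * s * a * hb * b * s * a - b * s * a * hb * s * a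
      * b - b * s * a * hb * a * b * s + b * s * a * hb * a * s * b - a * b * s * hb * b * s * a
      + a * b * s * hb * s * a * b + a * b * s * hb * a * b * s - a * b * s * hb * a * s * b - a
      * s * b * s * a * hb * b - b * s * a * hb * b + a * b * s * hb * b
  have hx : ρ (z * (t * z * t⁻¹) * z⁻¹ * (t * z * t⁻¹)⁻¹) = 1 + m := by
    rw [map_mul, map_mul, map_mul, hz, hz', hzi, hzi']
    linear_combination (norm := noncomm_ring) f1 * (1 - b) * (1 - bp) - f2 + f3
      - (1 + bp) * hb * (1 - bp) - qp
  have qm : m * m = 0 := by
    rw [em]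
    linear_combination (norm := noncomm_ring)
      a * b * s * b * s * ha * b * s * b * s * a - a * b * s * b * s * ha * s * b * s * a * b +
      a * s * b * s * a * hab * b * s * b * s * a - a * s * b * s * a * hab * s * b * s * a * b
      - a * s * b * s * ha * b * b * s * b * s * a + a * s * b * s * ha * b * s * b * s * a * b
      + b * s * a * hab * b * s * b * s * a - b * s * a * hab * s * b * s * a * b - b * s * ha *
      b * b * s * b * s * a + b * s * ha * b * s * b * s * a * b - a * b * s * b * s * dabsa * b
      + a * b * s * b * s * ha * b * s * b - a * b * s * hab * b * s * b * s * a + a * b * s *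
      hab * s * b * s * a * b + a * b * s * a * hb * s * b * s * a - dabsa * b * s * b * s * a *
      b + a * s * b * s * a * hb * s * a * b + a * s * b * s * a * hab * b * s * b - a * s * b *
      s * ha * b * b * s * b + b * s * a * hb * s * a * b + b * s * a * hab * b * s * b - b * s
      * ha * b * b * s * b + a * hb * s * b * s * a * b - a * b * s * hb * s * a * b + a * b * s
      * b * s * a * hb - a * b * s * hab * b * s * b + a * b * s * a * hb * s * b
  have hm : m = 0 := H _ (mul_mem (mul_mem (mul_mem z0 z1) (inv_mem z0)) (inv_mem z1))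
    (N₁ _ _ hx qm (by
    rw [em]
    linear_combination (norm := noncomm_ring)
      a * b * s * b * s * hasa * b * s * b * s * a * s - a * b * s * b * s * hasa * s * b * s *
      a * b * s - a * s * b * s * a * b * s * a * b * s * b * hsas + a * s * b * s * a * b *
      hsas * b * s * a * b * s - b * s * a * b * s * a * b * s * b * hsas + b * s * a * b * hsas
      * b * s * a * b * s - a * b * s * b * hsas * b * s * a * b * s + a * b * s * b * s * hasa
      * b * s * b * s)) _ hx qm
  rw [em] at hm
  have d1 : b * s * a * b + a * s * b * s * a * b = 0 := by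
    linear_combination (norm := noncomm_ring)
      hm * s * a - a * b * s * b * s * hasa + a * s * b * s * dabsa + b * s * dabsa
  have d2 : a * b * s * b - b * s * a * b + a * b * s * b * s * a - a * s * b * s * a * b = 0 := by
    linear_combination (norm := noncomm_ring)
      hm
  obtain ⟨A, eA⟩ : ∃ A, A = a * b * s - a * s * b - a * s * b * s * a := ⟨_, rfl⟩
  obtain ⟨B, eB⟩ : ∃ B, B = - b * s * a + s * a * b - a * s * b * s * a := ⟨_, rfl⟩
  obtain ⟨K, eK⟩ : ∃ K, K = - a * b * s * b - b * s * a * b := ⟨_, rfl⟩
  have hq : ρ (z⁻¹ * (t * z * t⁻¹)) = 1 + A + B + K := by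
    rw [map_mul, hzi, hz', eA, eB, eK, ebp]
    linear_combination (norm := noncomm_ring)
      hab * s * b * s * a - d2 - d1 + hb * s * a + hab * b * s - hab * s * b - a * hb * s - hb +
      (a * b * s * b + a * s * b * s * a) * h3
  have hq' : ρ (z⁻¹ * (t * z * t⁻¹))⁻¹ = 1 - A - B + K := by
    rw [mul_inv_rev, map_mul, hzi', inv_inv, hz, eA, eB, eK, ebp]
    linear_combination (norm := noncomm_ring)
      - d1 - s * a * hb + a * s * hb - hb + (b * s * a * b - a * s * b * s * a) * h3
  have r1 : a * s * A + A = 0 := by
    rw [eA]
    linear_combination (norm := noncomm_ring)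
      - hasa * s * b * s * a + hasa * b * s - hasa * s * b
  have r2 : A * a = 0 := by
    rw [eA]
    linear_combination (norm := noncomm_ring)
      - a * s * b * s * ha + dabsa + a * s * hab - hasa * b
  have r3 : A * s = 0 := by
    rw [eA]
    linear_combination (norm := noncomm_ring)
      - a * s * b * hsas + a * b * hs
  have r4 : B * s * a + B = 0 := by
    rw [eB]
    linear_combination (norm := noncomm_ring)
      - a * s * b * s * hasa - b * s * hasa + s * dabsa
  have r5 : a * B = 0 := by
    rw [eB]
    linear_combination (norm := noncomm_ring)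
      - ha * s * b * s * a - dabsa + hasa * b
  have r6 : s * B = 0 := by
    rw [eB]
    linear_combination (norm := noncomm_ring)
      - hsas * b * s * a + hs * a * b
  have r7 : B * A = 0 := by
    rw [eA, eB]
    linear_combination (norm := noncomm_ring)
      a * s * b * s * ha * s * b * s * a + b * s * ha * s * b * s * a + s * a * hab * s * b * s
      * a - s * ha * b * s * b * s * a - a * s * b * s * ha * b * s + a * s * b * s * ha * s * b
      - b * s * ha * b * s + b * s * ha * s * b - s * a * hab * b * s + s * a * hab * s * b + s
      * ha * b * b * s - s * ha * b * s * b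
  have r8 : A * B + K = 0 := by
    rw [eA, eB, eK]
    linear_combination (norm := noncomm_ring)
      a * s * b * s * ha * s * b * s * a - a * b * hsas * b * s * a + a * s * b * s * dabsa - a
      * s * b * s * hasa * b - a * s * hab * s * b * s * a + hasa * b * s * b * s * a - d2 + a *
      b * hs * a * b + a * s * hb * s * a - 2 * d1
  have r9 : K * s * K * s * K = 0 := by
    rw [eK]
    linear_combination (norm := noncomm_ring)
      - b * s * d2 * b * s * b * s * a * b - b * s * d1 * b * s * b * s * a * b - b * s * a * b
      * s * b * s * dabsa * b * s * b - b * s * dabsa * b * s * b * s * b * s * a * b - b * s *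
      dabsa * b * s * b * s * a * b * s * b - a * b * s * b * s * b * s * d2 * b - a * b * s * b
      * s * b * s * d1 * b - a * b * s * b * s * b * s * dabsa * b * s * b - d2 * b * s * b * s
      * b * s * a * b - d1 * b * s * b * s * b * s * a * b - d2 * b * s * b * s * a * b * s * b
      - d1 * b * s * b * s * a * b * s * b + b * s * a * hb * s * b * s * b * s * a * b + b * s
      * a * hb * s * b * s * a * b * s * b + b * s * a * b * s * hb * s * b * s * a * b + b * s
      * a * b * s * b * s * a * hb * s * b + a * b * s * hb * s * b * s * b * s * a * b + a * b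
      * s * hb * s * b * s * a * b * s * b + a * b * s * b * s * b * s * a * hb * s * b + a * b
      * s * b * s * b * s * a * b * s * hb
  obtain ⟨hA, hB⟩ := gen_stage ρ h3 L₀ L₁ hw hq hq' ha hs hasa hsas r1 r2 r3 r4 r5 r6 r7 r8 r9
    hw1 H N₀ N₁
  rw [eA] at hA
  rw [eB] at hB
  linear_combination (norm := noncomm_ring)
      hB - hA + hab * s

end Pool.Agent.MP_a5588a_al.Full
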