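import Pool.Agent.MP_a5588a_al.Solv.PartC
import Pool.Agent.MP_a5588a_al.Solv.R34
import Pool.Agent.MP_a5588a_al.Solv.R5

/-! Part C for a node `H = K ⟨a⟩` with `K / P` of order prime to 3. -/

namespace Pool.Agent.MP_a5588a_al.Full

open scoped commutatorElement
open Pool.Agent.MP_a5588a_al.Solv

theorem hookC {H A : Type*} [Group H] [Finite H] [CommGroup A] {P Q K : Subgroup H} [nP : P.Normal]
    [Q.Normal] [K.Normal] (hQP : Q ≤ P) (hP : IsPGroup 3 P) {θ : H → A} (hθ : MulOn Q θ) {a : H}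
    (ha3 : a ^ 3 ∈ P) (hK : ∀ x ∈ K, ∃ m : ℕ, ¬ 3 ∣ m ∧ x ^ m ∈ P)
    (hKa : ∀ L : Subgroup H, K ≤ L → P ≤ L → a ∈ L → L = ⊤)
    (hPY : P ≤ Stab Q θ) (haY : a ∈ Stab Q θ)
    (hUM : ∀ L : Subgroup H, P ≤ L → a ∈ L → L ≠ ⊤ → L ≤ Stab Q θ)
    (hU : ∃ g, g * a * g⁻¹ ∉ Stab Q θ) :
    ∃ C : Subgroup H, C.Normal ∧ C ≤ Q ∧ (∀ c ∈ C, c ^ 3 = 1) ∧
      (∀ c ∈ C, ∀ z ∈ ⁅C, P⁆, c * z = z * c) ∧
      (∀ y, (a⁻¹ * y ∈ P ∨ a * y ∈ P) → ∃ l ∈ C, ⁅y, ⁅y, l⁆⁆ ∉ ⁅C, P⁆) ∧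
      ((∀ c ∈ C, ∀ d ∈ C, c * d = d * c) ∨ ∀ y, (a⁻¹ * y ∈ P ∨ a * y ∈ P) → Rank2 C y) := by
  have : Fact (Nat.Prime 3) := ⟨Nat.prime_three⟩
  have hng := fun i j => notGood (i := i) (j := j) (hP.to_le hQP) hθ
  generalize Stab Q θ = Y at *
  obtain ⟨g₀, hg₀⟩ := hU
  have hY : Y ≠ ⊤ := fun e => hg₀ (e ▸ Subgroup.mem_top _)
  have hp : IsPGroup 3 (P ⊔ Subgroup.zpowers a : Subgroup H) := by
    refine IsPGroup.to_sup_of_normal_left hP ?_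
    obtain ⟨n, hn⟩ := hP ⟨_, ha3⟩
    have e : a ^ 3 ^ (n + 1) = 1 := by
      rw [pow_succ', pow_mul]
      exact congrArg Subtype.val hn
    obtain ⟨k, -, hk⟩ := (Nat.dvd_prime_pow Nat.prime_three).1 (orderOf_dvd_of_pow_eq_one e)
    exact IsPGroup.of_card (by rw [Nat.card_zpowers, hk])
  obtain ⟨T, hT⟩ := hp.exists_le_sylow
  have hPT : P ≤ T := le_sup_left.trans hT
  have haT : a ∈ (T : Subgroup H) := hT (Subgroup.mem_sup_right (Subgroup.mem_zpowers a))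
  have hTK : ∀ x ∈ (T : Subgroup H), x ∈ K → x ∈ P := fun x h1 h2 => by
    obtain ⟨m, m1, m2⟩ := hK x h2
    obtain ⟨n, hn⟩ := T.isPGroup' ⟨x, h1⟩
    have e1 : (x : H ⧸ P) ^ m = 1 := (QuotientGroup.eq_one_iff _).2 m2
    have e2 : (x : H ⧸ P) ^ 3 ^ n = 1 := by
      rw [← QuotientGroup.mk_pow, show x ^ 3 ^ n = 1 from congrArg Subtype.val hn]
      rfl
    have := pow_gcd_eq_one.2 ⟨e1, e2⟩
    rw [Nat.Coprime.pow_right n (Nat.prime_three.coprime_iff_not_dvd.2 m1).symm, pow_one] at this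
    exact (QuotientGroup.eq_one_iff _).1 this
  have hKY : ¬ K ≤ Y := fun h => hY (hKa Y h hPY haY)
  rw [← Subgroup.relIndex_eq_one] at hKY
  obtain ⟨q, hq, hd⟩ := Nat.exists_prime_and_dvd hKY
  have hq3 : q ≠ 3 := by
    rintro rfl
    exact relIndex_inf T K (hd.trans (Subgroup.relIndex_dvd_of_le_left K fun t ht =>
      hPY (hTK t ht.1 ht.2)))
  have : Fact q.Prime := ⟨hq⟩
  obtain ⟨S₀, hS₀, hSK, hi, hc⟩ := syl_R34 T
    (hKa _ le_sup_left (hPT.trans le_sup_right) (Subgroup.mem_sup_right haT)) q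
  obtain ⟨d, hdT, hdS, hda⟩ := hc a haT
  have hp1 : a * d⁻¹ ∈ P := hTK _ (mul_mem haT (inv_mem hdT)) hda
  have hp2 : d⁻¹ * a ∈ P := by simpa [mul_assoc] using nP.conj_mem _ hp1 d⁻¹
  have da : ∀ L : Subgroup H, P ≤ L → (d ∈ L ↔ a ∈ L) := fun L hL =>
    ⟨fun h => by simpa using mul_mem (hL hp1) h, fun h => by
      simpa using mul_mem (inv_mem (hL hp1)) h⟩
  have hdY : d ∈ Y := (da Y hPY).2 haY
  obtain ⟨S, ⟨s1, s2, s3⟩, smin⟩ := (wellFounded_lt (α := Subgroup H)).has_min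
    {S | S ≤ S₀ ∧ (∀ s ∈ S, d * s * d⁻¹ ∈ S) ∧ ¬ S ≤ Y}
    ⟨S₀, le_rfl, hdS, fun h => hi (hd.trans (Subgroup.relIndex_dvd_of_le_left K h))⟩
  have hS : IsPGroup q S := hS₀.to_le s1
  have hS3 : ¬ 3 ∣ Nat.card S := by
    obtain ⟨n, hn⟩ := IsPGroup.iff_card.1 hS
    rw [hn]
    exact fun c => hq3 ((Nat.prime_dvd_prime_iff_eq Nat.prime_three hq).1
      (Nat.prime_three.dvd_of_dvd_pow c)).symm
  have nd : d ∈ Subgroup.normalizer (S : Set H) := Subgroup.mem_normalizer_fintype s2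
  have s2' : ∀ s ∈ S, d⁻¹ * s * d ∈ S := fun s hs => by
    simpa using (Subgroup.mem_normalizer_iff.1 (inv_mem nd) s).1 hs
  have hSS : ⁅S, S⁆ ≤ Y := by
    by_contra hn
    refine smin _ ⟨S.commutator_le_self.trans s1, fun s hs => ?_, hn⟩
      (lt_of_le_of_ne S.commutator_le_self (comm_R5 hS fun c => s3 (c ▸ bot_le)))
    have h1 : S.map (MulAut.conj d).toMonoidHom ≤ S := by
      rintro _ ⟨t, ht, rfl⟩
      exact s2 t ht
    refine Subgroup.commutator_mono h1 h1 ?_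
    rw [← Subgroup.map_commutator]
    exact ⟨s, hs, rfl⟩
  have hd3 : d ^ 3 ∈ P := by
    have e : (d : H ⧸ P) = a := QuotientGroup.eq.2 hp2
    rw [← QuotientGroup.eq_one_iff, QuotientGroup.mk_pow, e, ← QuotientGroup.mk_pow,
      QuotientGroup.eq_one_iff]
    exact ha3
  have c3 : ∀ s ∈ S, Commute (d ^ 3) s := fun s hs =>
    commutatorElement_eq_one_iff_commute.1 (Subgroup.disjoint_def.1
      (IsPGroup.disjoint_of_ne q 3 hq3 S P hS hP)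
      (mul_mem ((Subgroup.mem_normalizer_iff.1 (pow_mem nd 3) s).1 hs) (inv_mem hs)) (by
        have h1 := mul_mem hd3 (nP.conj_mem _ (inv_mem hd3) s)
        rwa [← mul_assoc, ← mul_assoc] at h1))
  obtain ⟨g, hg, hgY⟩ : ∃ g ∈ S, g⁻¹ * d * g ∉ Y := by
    by_contra! hn
    let Y₀ : Subgroup H := ⨅ s ∈ S, Y.comap (MulAut.conj s).toMonoidHom
    have m : ∀ x, x ∈ Y₀ ↔ ∀ s ∈ S, s * x * s⁻¹ ∈ Y := fun x => by simp [Y₀, Subgroup.mem_iInf]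
    have y1 : P ≤ Y₀ := fun x hx => (m x).2 fun s _ => hPY (nP.conj_mem x hx s)
    have y2 : a ∈ Y₀ := (da _ y1).1 ((m d).2 fun s hs => by simpa using hn _ (inv_mem hs))
    have y3 : S ≤ Subgroup.normalizer (Y₀ : Set H) := fun t ht =>
      Subgroup.mem_normalizer_fintype fun x hx => (m _).2 fun s hs => by
        have := (m x).1 hx _ (mul_mem hs ht)
        simpa [mul_assoc] using this
    have y4 : Y₀.Normal := Subgroup.normalizer_eq_top_iff.1 (by_contra fun e => s3 (y3.trans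
      (hUM _ (y1.trans Subgroup.le_normalizer) (Subgroup.le_normalizer y2) e)))
    simpa [hg₀] using (m _).1 (y4.conj_mem a y2 g₀) 1 S.one_mem
  obtain ⟨i, hi⟩ : ∃ i, i = d⁻¹ * g⁻¹ * d * g := ⟨_, rfl⟩
  have hiS : i ∈ S := hi ▸ mul_mem (s2' _ (inv_mem hg)) hg
  have hiY : i ∉ Y := fun c => hgY (by simpa [hi, mul_assoc] using mul_mem hdY c)
  obtain ⟨C, hR⟩ := partC H P Q S i (d⁻¹ * i * d) (d⁻¹ * (d⁻¹ * i * d) * d) d
    ⟨nP, inferInstance, hQP, hP, rfl, rfl, by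
      have e : d⁻¹ * (d⁻¹ * (d⁻¹ * i * d) * d) * d = (d ^ 3)⁻¹ * (i * d ^ 3) := by
        simp only [pow_three, mul_inv_rev, mul_assoc]
      rw [e, ← (c3 i hiS).eq, inv_mul_cancel_left], by
      have e : d⁻¹ * (d⁻¹ * i * d) * d * (d⁻¹ * i * d) * i = (d ^ 3)⁻¹ * g⁻¹ * (d ^ 3 * g) := by
        simp only [hi, pow_three, mul_inv_rev, mul_assoc, mul_inv_cancel_left]
      rw [e, (c3 g hg).eq, mul_assoc, inv_mul_cancel_left, inv_mul_cancel], hiS, s2', hS3, hd3,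
      fun L h1 h2 h3 => by_contra fun e => hiY (hUM L h1 ((da L h1).1 h3) e h2)⟩
    fun c => hiY (hng _ _ (hSS (Subgroup.commutator_mem_commutator hiS (s2' _ hiS))) c)
  have := hR.nC
  have cv : ∀ y, (a⁻¹ * y ∈ P ∨ a * y ∈ P) → (d⁻¹ * y ∈ P ∨ d * y ∈ P) := fun y h =>
    h.imp (fun h => by simpa [mul_assoc] using mul_mem hp2 h) fun h => by
      simpa [mul_assoc] using mul_mem (inv_mem hp1) h
  exact ⟨C, hR.nC, hR.CQ, hR.exp, hR.cub,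
    fun y h => n1_all (hR.CQ.trans hQP) (cv y h) hR.n1, hR.n2.imp_right fun h y hy => h y (cv y hy)⟩

end Pool.Agent.MP_a5588a_al.Full
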