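import Pool.Agent.MP_a5588a_al.Full.Top

/-! The limit subgroup for an arbitrary family of normal subgroups. -/

namespace Pool.Agent.MP_a5588a_al.Full

open scoped commutatorElement
open Pool.Agent.MP_a5588a_al.Solv

universe u v

section aux

variable {T : Type v} [Group T] {cp : Subgroup T → Prop}

/-- One step of the descending chain. -/
def stepA (cp : Subgroup T → Prop) (M : Subgroup T) : Subgroup T where
  carrier := {x | ∀ Q : Subgroup T, cp Q → ∃ h : x ∈ Q, ∀ α : Q ≃* Q, ((α ⟨x, h⟩ : Q) : T) ∈ M}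
  one_mem' := by
    intro Q _
    refine ⟨Q.one_mem, fun α => ?_⟩
    have : α ⟨1, Q.one_mem⟩ = 1 := map_one α
    rw [this]
    exact M.one_mem
  mul_mem' := by
    intro x y hx hy Q hQ
    obtain ⟨h1, hx⟩ := hx Q hQ
    obtain ⟨h2, hy⟩ := hy Q hQ
    refine ⟨Q.mul_mem h1 h2, fun α => ?_⟩
    have : α ⟨x * y, Q.mul_mem h1 h2⟩ = α ⟨x, h1⟩ * α ⟨y, h2⟩ := map_mul α ⟨x, h1⟩ ⟨y, h2⟩
    rw [this]
    exact M.mul_mem (hx α) (hy α)
  inv_mem' := by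
    intro x hx Q hQ
    obtain ⟨h1, hx⟩ := hx Q hQ
    refine ⟨Q.inv_mem h1, fun α => ?_⟩
    have : α ⟨x⁻¹, Q.inv_mem h1⟩ = (α ⟨x, h1⟩)⁻¹ := map_inv α ⟨x, h1⟩
    rw [this]
    exact M.inv_mem (hx α)

theorem mem_stepA {M : Subgroup T} {x : T} : x ∈ stepA cp M ↔
    ∀ Q : Subgroup T, cp Q → ∃ h : x ∈ Q, ∀ α : Q ≃* Q, ((α ⟨x, h⟩ : Q) : T) ∈ M := Iff.rfl

/-- The descending chain. -/
def chainA (cp : Subgroup T → Prop) : ℕ → Subgroup T
  | 0 => ⊤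
  | m + 1 => stepA cp (chainA cp m)

theorem step_le_A (h0 : cp ⊤) (M : Subgroup T) : stepA cp M ≤ M := by
  intro x hx
  obtain ⟨h, hx⟩ := mem_stepA.1 hx ⊤ h0
  exact hx (MulEquiv.refl _)

theorem chain_anti_A (h0 : cp ⊤) : Antitone (chainA cp) :=
  antitone_nat_of_succ_le fun m => step_le_A h0 (chainA cp m)

theorem transport_A (h0 : cp ⊤) (m : ℕ) : ∀ x : T, x ∈ chainA cp m → x ∉ chainA cp (m + 1) →
    ∃ Q₂ : Subgroup T, cp Q₂ ∧ ∃ Δ : Subgroup (T × T), (∀ p ∈ Δ, p.1 = 1 ↔ p.2 = 1) ∧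
      (∃ x', (x, x') ∈ Δ ∧ x' ∉ Q₂) ∧ ∀ j, ∀ y ∈ chainA cp (m + j),
        (∃ y' ∈ chainA cp j, (y, y') ∈ Δ) ∧ (∃ y' ∈ chainA cp j, (y', y) ∈ Δ) := by
  have diag : ∀ (m : ℕ) (x : T) (Q : Subgroup T), cp Q → x ∉ Q →
      ∃ Q₂ : Subgroup T, cp Q₂ ∧ ∃ Δ : Subgroup (T × T), (∀ p ∈ Δ, p.1 = 1 ↔ p.2 = 1) ∧
      (∃ x', (x, x') ∈ Δ ∧ x' ∉ Q₂) ∧ ∀ j, ∀ y ∈ chainA cp (m + j),
        (∃ y' ∈ chainA cp j, (y, y') ∈ Δ) ∧ (∃ y' ∈ chainA cp j, (y', y) ∈ Δ) := by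
    intro m x Q hQ hx
    refine ⟨Q, hQ, (MonoidHom.fst T T).eqLocus (MonoidHom.snd T T), fun p hp => ?_,
      ⟨x, rfl, hx⟩, fun j y hy => ?_⟩
    · have : p.1 = p.2 := hp
      rw [this]
    · have hj : y ∈ chainA cp j := chain_anti_A h0 (Nat.le_add_left j m) hy
      exact ⟨⟨y, hj, rfl⟩, ⟨y, hj, rfl⟩⟩
  induction m with
  | zero =>
    intro x _ hx
    by_contra hc
    refine hx (mem_stepA.2 fun Q hQ => ?_)
    by_cases h : x ∈ Q
    · exact ⟨h, fun α => Subgroup.mem_top _⟩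
    · exact absurd (diag 0 x Q hQ h) hc
  | succ m ih =>
    intro x hx hx'
    by_contra hc
    refine hx' (mem_stepA.2 fun Q hQ => ?_)
    obtain ⟨h, hα⟩ := mem_stepA.1 hx Q hQ
    refine ⟨h, fun α => ?_⟩
    by_contra hn
    obtain ⟨Q₂, hQ₂, Δ, hΔ, ⟨x', hxx, hx2⟩, hj⟩ := ih _ (hα α) hn
    apply hc
    let f : Q × T →* T × T := (Q.subtype.comp α.toMonoidHom).prodMap (MonoidHom.id T)
    let g : Q × T →* T × T := Q.subtype.prodMap (MonoidHom.id T)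
    have key : ∀ (y : Q) (z : T), (((α y : Q) : T), z) ∈ Δ → ((y : T), z) ∈ (Δ.comap f).map g :=
      fun y z hyz => ⟨(y, z), hyz, rfl⟩
    refine ⟨Q₂, hQ₂, (Δ.comap f).map g, ?_, ⟨x', key ⟨x, h⟩ x' hxx, hx2⟩, fun j y hy => ⟨?_, ?_⟩⟩
    · rintro p ⟨⟨y, z⟩, hyz, rfl⟩
      have h1 : ((α y : Q) : T) = 1 ↔ z = 1 := hΔ _ hyz
      change (y : T) = 1 ↔ z = 1
      rw [← h1, OneMemClass.coe_eq_one, OneMemClass.coe_eq_one, map_eq_one_iff α α.injective]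
    · have e : m + 1 + j = m + j + 1 := by omega
      rw [e] at hy
      obtain ⟨hyQ, hyα⟩ := mem_stepA.1 hy Q hQ
      obtain ⟨y', hy', hyy⟩ := (hj j _ (hyα α)).1
      exact ⟨y', hy', key ⟨y, hyQ⟩ y' hyy⟩
    · have e : m + 1 + j = m + (j + 1) := by omega
      rw [e] at hy
      obtain ⟨y', hy', hyy⟩ := (hj (j + 1) y hy).2
      obtain ⟨hyQ, hyα⟩ := mem_stepA.1 hy' Q hQ
      refine ⟨_, hyα α.symm, key _ y ?_⟩
      rw [MulEquiv.apply_symm_apply]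
      exact hyy

/-- `W` lies in every member of the family and is characteristic in it. -/
def PAg (cp : Subgroup T → Prop) (W : Subgroup T) : Prop :=
  ∀ Q : Subgroup T, cp Q → W ≤ Q ∧ ∀ (α : Q ≃* Q) (x : Q), (x : T) ∈ W → ((α x : Q) : T) ∈ W

/-- The comparison of two members of the family along a pair of embeddings. -/
def ConfG (cp : Subgroup T → Prop) (U : Subgroup T → Subgroup T) : Prop :=
  ∀ (Γ : Type v) [Group Γ] [Finite Γ] (π₁ π₂ : Γ →* T), Function.Injective π₁ →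
    Function.Injective π₂ → ∀ Q₁ Q₂ : Subgroup T, cp Q₁ → cp Q₂ → U Q₁ ≤ π₁.range →
    U Q₂ ≤ π₂.range → ∀ x : Γ, π₁ x ∈ U Q₁ → π₂ x ∈ Q₂

theorem thmAg [Finite T] (h0 : cp ⊤) {U : Subgroup T → Subgroup T}
    (hU : ∃ Q, cp Q ∧ U Q ≠ ⊥) (hconf : ConfG cp U) : ∃ W : Subgroup T, W ≠ ⊥ ∧ PAg cp W := by
  obtain ⟨m, hm⟩ : ∃ m, chainA cp (m + 1) = chainA cp m := by
    by_contra hc
    have hs : StrictAnti (chainA cp) := strictAnti_nat_of_succ_lt fun m =>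
      lt_of_le_of_ne (chain_anti_A h0 (Nat.le_succ m)) fun h => hc ⟨m, h⟩
    exact not_injective_infinite_finite _ hs.injective
  refine ⟨chainA cp m, fun hW => ?_, fun Q hQ => ⟨fun x hx => ?_, fun α x hx => ?_⟩⟩
  · obtain ⟨e, he, he'⟩ : ∃ e, (∀ Q : Subgroup T, cp Q → U Q ≤ chainA cp e) ∧
        ¬ ∀ Q : Subgroup T, cp Q → U Q ≤ chainA cp (e + 1) := by
      by_contra hc
      have hall : ∀ e, ∀ Q : Subgroup T, cp Q → U Q ≤ chainA cp e := by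
        intro e
        induction e with
        | zero => exact fun Q _ => le_top
        | succ e ih =>
          by_contra hn
          exact hc ⟨e, ih, hn⟩
      obtain ⟨Q, hQ, hne⟩ := hU
      exact hne (le_bot_iff.1 (hW ▸ hall m Q hQ))
    apply he'
    intro Q₁ hQ₁ x hx
    by_contra hn
    obtain ⟨Q₂, hQ₂, Δ, hΔ, ⟨x', hxx, hx2⟩, hj⟩ := transport_A h0 e x (he Q₁ hQ₁ hx) hn
    apply hx2
    refine hconf Δ ((MonoidHom.fst T T).comp Δ.subtype) ((MonoidHom.snd T T).comp Δ.subtype)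
      ?_ ?_ Q₁ Q₂ hQ₁ hQ₂ ?_ ?_ ⟨(x, x'), hxx⟩ hx
    · rw [injective_iff_map_eq_one]
      intro p hp
      have h1 : (p : T × T).1 = 1 := hp
      exact Subtype.ext (Prod.ext h1 ((hΔ _ p.2).1 h1))
    · rw [injective_iff_map_eq_one]
      intro p hp
      have h1 : (p : T × T).2 = 1 := hp
      exact Subtype.ext (Prod.ext ((hΔ _ p.2).2 h1) h1)
    · intro y hy
      obtain ⟨y', _, hyy⟩ := (hj 0 y (he Q₁ hQ₁ hy)).1
      exact ⟨⟨_, hyy⟩, rfl⟩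
    · intro y hy
      obtain ⟨y', _, hyy⟩ := (hj 0 y (he Q₂ hQ₂ hy)).2
      exact ⟨⟨_, hyy⟩, rfl⟩
  · rw [← hm] at hx
    exact (mem_stepA.1 hx Q hQ).1
  · rw [← hm] at hx
    exact (mem_stepA.1 hx Q hQ).2 α

theorem PAg.char (h0 : cp ⊤) {W : Subgroup T} (hW : PAg cp W) : W.Characteristic := by
  rw [Subgroup.characteristic_iff_le_comap]
  intro φ x hx
  exact (hW ⊤ h0).2 ((Subgroup.topEquiv.trans φ).trans Subgroup.topEquiv.symm) ⟨x, trivial⟩ hx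

/-- In every node the largest normal 3-subgroup is a member of the family. -/
def NodeCP (cp : Subgroup T → Prop) : Prop :=
  ∀ (G : Type u) [Group G] [Finite G] (S : Sylow 3 G) (f : T →* G), Function.Injective f →
    f.range = S → ∀ (A : Type u) [CommGroup A] (θ : G → A), MulOn (S : Subgroup G) θ →
    Stab (S : Subgroup G).normalCore θ ≠ ⊤ →
    (∀ L : Subgroup G, (S : Subgroup G) ≤ L → L ≠ ⊤ → L ≤ Stab (S : Subgroup G).normalCore θ) →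
    cp ((S : Subgroup G).normalCore.comap f)

theorem PAg.nodeOK {W : Subgroup T} (hW : PAg cp W) (h : NodeCP.{u} cp) : NodeOK.{u} W := by
  intro G _ _ S f hf hS A _ θ h1 h2 h3
  obtain ⟨a1, a2⟩ := hW _ (h G S f hf hS A θ h1 h2 h3)
  have : (((S : Subgroup G).normalCore.comap f).map f).Normal := by
    rw [Subgroup.map_comap_eq_self (hS ▸ (S : Subgroup G).normalCore_le)]
    infer_instance
  refine ⟨all_Amb.2 fun w hw g => ?_⟩
  let e := Subgroup.equivMapOfInjective ((S : Subgroup G).normalCore.comap f) f hf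
  refine ⟨_, a2 ((e.trans (MulAut.conjNormal g)).trans e.symm) ⟨w, a1 hw⟩ hw, ?_⟩
  exact congrArg Subtype.val (e.apply_symm_apply (MulAut.conjNormal g (e ⟨w, a1 hw⟩)))

/-- The subgroup required by `AllW` and `top`. -/
theorem exists_W [Finite T] (h0 : cp ⊤) {U : Subgroup T → Subgroup T}
    (hU : ∃ Q, cp Q ∧ U Q ≠ ⊥) (hconf : ConfG cp U) (h : NodeCP.{u} cp) :
    ∃ W : Subgroup T, W ≠ ⊥ ∧ W.Characteristic ∧ NodeOK.{u} W := by
  obtain ⟨W, a, b⟩ := thmAg h0 hU hconf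
  exact ⟨W, a, b.char h0, b.nodeOK h⟩

theorem uu_top_ne [Finite T] [Nontrivial T] (hT : IsPGroup 3 T) : UU (⊤ : Subgroup T) ≠ ⊥ := by
  obtain ⟨z, h1, h2⟩ := uu_top_ThmA hT
  exact fun e => h2 (e.le h1)

end aux

end Pool.Agent.MP_a5588a_al.Full
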