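import Pool.Agent.MP_a5588a_al.Full.TICor
import Pool.Agent.MP_a5588a_al.Full.TIGrp

/-! Quadratic elements of least rank fix at most one point. -/

namespace Pool.Agent.MP_a5588a_al.Full

open MulAction Subgroup

variable {G V Ω : Type*} [Group G] [AddCommGroup V] [MulAction G Ω]

/-- Every nontrivial three-subgroup normalised by the quadratic elements of `E` has its normaliser
in the stabiliser of `w`. -/
def HypTI (ρ : G →* AddMonoid.End V) (E : Subgroup G) (w : Ω) : Prop :=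
  ∀ U : Subgroup G, IsPGroup 3 U → U ≠ ⊥ →
    (∀ y ∈ E, Quad ρ y → y ∈ normalizer (U : Set G)) → normalizer (U : Set G) ≤ stabilizer G w

variable {ρ : G →* AddMonoid.End V}

theorem Quad.pgroup (hρ : Function.Injective ρ) (h3 : ∀ v : V, v + v + v = 0) {x : G}
    (h : Quad ρ x) : IsPGroup 3 (closure {x}) := by
  rw [← Set.pair_eq_singleton x]
  exact pgroup_pair hρ h3 h h ⟨1, (pow_one _).trans h⟩

theorem norm_fix {D : Subgroup G} {k : G} (hk : k ∈ normalizer (D : Set G)) {w : Ω}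
    (hw : D ≤ stabilizer G w) : D ≤ stabilizer G (k • w) := fun d hd => by
  have : (k⁻¹ * d * k) • w = w := hw ((mem_normalizer_iff''.1 hk d).1 hd)
  rwa [mul_smul, mul_smul, inv_smul_eq_iff] at this

theorem exists_fix_pair (hΩ : ¬ 3 ∣ Nat.card Ω) {D : Subgroup G} (hD : IsPGroup 3 D) {s t : G}
    (hs : s ∈ normalizer (D : Set G)) (ht : t ∈ normalizer (D : Set G))
    (h : IsPGroup 3 (closure {s, t})) : ∃ w : Ω, D ≤ stabilizer G w ∧ s • w = w ∧ t • w = w := by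
  obtain ⟨w, hw⟩ := exists_fix hΩ (hD.to_sup_of_normal_left' h
    ((closure_le _).2 (Set.pair_subset hs ht)))
  exact ⟨w, le_sup_left.trans hw, hw (mem_sup_right (subset_closure (by simp))),
    hw (mem_sup_right (subset_closure (by simp)))⟩

variable [Finite G] [IsPretransitive G Ω]

theorem HypTI.syl (hΩ : ¬ 3 ∣ Nat.card Ω) {E : Subgroup G} {w₀ : Ω} (H : HypTI ρ E w₀)
    (hE : IsPGroup 3 E) (hw : E ≤ stabilizer G w₀) {S : Sylow 3 G} {w : Ω}
    (hS : (S : Subgroup G) ≤ stabilizer G w) : HypTI ρ S w := by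
  obtain ⟨S₀, a, b⟩ := exists_syl hΩ hE hw
  obtain ⟨g, rfl, rfl⟩ := exists_pair b hS
  intro U hU U0 h n hn
  have := H (U.comap (MulAut.conj g).toMonoidHom) (hU.comap_of_injective _ (MulAut.conj g).injective)
    (fun e => U0 (by rw [← map_comap_eq_self_of_surjective (f := (MulAut.conj g).toMonoidHom)
      (MulAut.conj g).surjective U, e, Subgroup.map_bot]))
    (fun y hy q x => by
      have := h (g * y * g⁻¹) (mem_smul_syl.2 (by
        rw [show g⁻¹ * (g * y * g⁻¹) * g = y by group]; exact a hy)) (q.conj g)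
        (g * x * g⁻¹)
      simpa [mul_assoc] using this)
    (show g⁻¹ * n * g ∈ _ from fun x => by simpa [mul_assoc] using hn (g * x * g⁻¹))
  rwa [mem_stabilizer_iff, mul_smul, mul_smul, inv_smul_eq_iff] at this

variable [Finite V]

/-- The elements of least rank of a Sylow subgroup have one common fixed point. -/
theorem weak_closure (hρ : Function.Injective ρ) (h3 : ∀ v : V, v + v + v = 0)
    (hΩ : ¬ 3 ∣ Nat.card Ω) {u : G} (hu : u ∈ MinQ ρ) (u1 : u ≠ 1) {S : Sylow 3 G} {w w' : Ω}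
    (hS : (S : Subgroup G) ≤ stabilizer G w) (H : HypTI ρ S w)
    (h : ∀ x ∈ MinQ ρ, x ∈ (S : Subgroup G) → x • w' = w') : w' = w := by
  have le : closure (MinQ ρ ∩ (S : Subgroup G)) ≤ S := (closure_le _).2 Set.inter_subset_right
  obtain ⟨S', a, b⟩ := exists_syl hΩ (S.isPGroup'.to_le le) (w := w')
    ((closure_le _).2 fun x hx => h x hx.1 hx.2)
  obtain ⟨g, rfl, rfl⟩ := exists_pair hS b
  refine inv_smul_eq_iff.1 (H _ (S.isPGroup'.to_le le) (fun e => ?_) (fun y hy _ => norm_closure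
    fun x hx => subset_closure ⟨MinQ.conj hx.1 y, mul_mem (mul_mem hy hx.2) (inv_mem hy)⟩)
    (norm_closure fun x hx => subset_closure ⟨MinQ.conj hx.1 g⁻¹, ?_⟩)) |>.symm
  · obtain ⟨k, -, P, hP, -, c, d⟩ := conj_into le_top le_top S.isPGroup' (hu.1.pgroup hρ h3)
    rw [S.is_maximal' hP c] at d
    have : k * u * k⁻¹ ∈ closure (MinQ ρ ∩ (S : Subgroup G)) :=
      subset_closure ⟨MinQ.conj hu k, d u (subset_closure rfl)⟩
    rw [e, mem_bot] at this
    exact u1 (by simpa using this)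
  · rw [inv_inv]
    exact mem_smul_syl.1 (a (subset_closure hx))

/-- THEOREM TI. -/
theorem ti (hρ : Function.Injective ρ) (h3 : ∀ v : V, v + v + v = 0) (hΩ : ¬ 3 ∣ Nat.card Ω)
    {E : Subgroup G} {w : Ω} (H : HypTI ρ E w) (hE : IsPGroup 3 E) (hw : E ≤ stabilizer G w)
    {x : G} (hx : x ∈ MinQ ρ) (x1 : x ≠ 1) {p q : Ω} (hp : x • p = p) (hq : x • q = q) :
    p = q := by
  by_contra pq
  obtain ⟨D, xD, ⟨pD, gen, w₀, w₁, w01, D0, D1⟩, mx⟩ := Finite.exists_le_maximal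
    (p := fun D : Subgroup G => IsPGroup 3 D ∧ D ≤ closure (MinQ ρ ∩ D) ∧
      ∃ a b : Ω, a ≠ b ∧ D ≤ stabilizer G a ∧ D ≤ stabilizer G b) (a := closure {x})
    ⟨hx.1.pgroup hρ h3, closure_mono (Set.singleton_subset_iff.2 ⟨hx, subset_closure rfl⟩), p, q,
      pq, (closure_le _).2 (Set.singleton_subset_iff.2 hp),
      (closure_le _).2 (Set.singleton_subset_iff.2 hq)⟩
  have uq : ∀ z ∈ MinQ ρ, z ∈ normalizer (D : Set G) → z ∉ D → ∀ a b : Ω, D ≤ stabilizer G a →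
      D ≤ stabilizer G b → z • a = a → z • b = b → a = b := by
    intro z hz zK zD a b Da Db za zb
    by_contra ab
    refine zD (mx (y := D ⊔ closure {z}) ⟨pD.to_sup_of_normal_left' (hz.1.pgroup hρ h3)
      ((closure_le _).2 (Set.singleton_subset_iff.2 zK)), sup_le (gen.trans (closure_mono
        (Set.inter_subset_inter_right _ (le_sup_left (a := D))))) (closure_mono
          (Set.singleton_subset_iff.2 ⟨hz, mem_sup_right (subset_closure rfl)⟩)), a, b, ab,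
      sup_le Da ((closure_le _).2 (Set.singleton_subset_iff.2 za)),
      sup_le Db ((closure_le _).2 (Set.singleton_subset_iff.2 zb))⟩ le_sup_left
      (mem_sup_right (subset_closure rfl)))
  have ex : ∀ a : Ω, D ≤ stabilizer G a →
      ∃ t ∈ MinQ ρ, t ∈ normalizer (D : Set G) ∧ t ∉ D ∧ t • a = a := by
    intro a Da
    obtain ⟨S, c, d⟩ := exists_syl hΩ pD Da
    obtain ⟨t, t1, t2, t3, t4⟩ := chain S.isPGroup' (fun y hy g _ => MinQ.conj hy g) c gen (by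
      by_contra! h
      exact w01 ((weak_closure hρ h3 hΩ hx x1 d (H.syl hΩ hE hw d) fun y a b => D0 (h y a b)).trans
        (weak_closure hρ h3 hΩ hx x1 d (H.syl hΩ hE hw d) fun y a b => D1 (h y a b)).symm))
    exact ⟨t, t1, t4, t3, d t2⟩
  let K := normalizer (D : Set G) ⊓ ⨅ a ∈ {a : Ω | D ≤ stabilizer G a}, stabilizer G a
  have mK : ∀ k, k ∈ K ↔ k ∈ normalizer (D : Set G) ∧ ∀ a : Ω, D ≤ stabilizer G a → k • a = a :=
    fun k => by simp only [K, mem_inf, mem_iInf, Set.mem_setOf_eq, mem_stabilizer_iff]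
  obtain ⟨T, DT, ⟨pT, TK⟩, mT⟩ := Finite.exists_le_maximal
    (p := fun T : Subgroup G => IsPGroup 3 T ∧ T ≤ K) (a := D)
    ⟨pD, fun d hd => (mK d).2 ⟨le_normalizer hd, fun a ha => ha hd⟩⟩
  obtain ⟨S, TS, S0⟩ := exists_syl hΩ pT (w := w₀) fun k hk => ((mK k).1 (TK hk)).2 _ D0
  obtain ⟨t₁, t₁Q, t₁K, t₁D, t₁w⟩ := ex w₁ D1
  have DS := DT.trans TS
  let R := closure ({y | Quad ρ y} ∩ ((S : Subgroup G) ⊓ normalizer (D : Set G) : Subgroup G))
  have RS : R ≤ (S : Subgroup G) ⊓ normalizer (D : Set G) :=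
    (closure_le _).2 Set.inter_subset_right
  obtain ⟨y, hy, yS, yR, yN⟩ := chain S.isPGroup' (Δ := {y | Quad ρ y}) (A := R)
    (fun y hy g _ => Quad.conj hy g) (RS.trans inf_le_left)
    (closure_mono fun y hy => ⟨hy.1, subset_closure hy⟩) (by
      by_contra! h
      exact w01 (uq t₁ t₁Q t₁K t₁D _ _ D0 D1 (H.syl hΩ hE hw S0 D pD
        (fun e => x1 (mem_bot.1 (e ▸ xD (subset_closure rfl)))) (fun y a b => (RS (h y b a)).2)
        t₁K) t₁w))
  replace hy : Quad ρ y := hy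
  obtain ⟨u, hu, uD, u1D⟩ : ∃ u ∈ MinQ ρ, u ∈ D ∧ y * u * y⁻¹ ∉ D := by
    by_contra! h
    exact yR (subset_closure ⟨hy, yS, norm_of_gen gen h⟩)
  have uR : u ∈ R := subset_closure ⟨hu.1, DS uD, le_normalizer uD⟩
  have u1 := RS ((yN u).1 uR)
  have u2 := RS ((mem_normalizer_iff''.1 yN u).1 uR)
  have aba := MinQ.sandwich h3 S.isPGroup' hu (DS uD) hy yS
  have sS := mul_mem u2 (inv_mem u1)
  have nS := mul_mem (mul_mem (RS uR) u1) u2
  have es := hu.1.s_eq h3 hy aba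
  have cm : ∀ t ∈ MinQ ρ, t ∈ normalizer (D : Set G) → u * t * u⁻¹ * t⁻¹ ∈ D ∧
      (ρ u - 1) * (ρ t - 1) * (ρ u - 1) = 0 ∧ u * t * u⁻¹ * t⁻¹ ∈ MinQ ρ ∧
      ρ (u * t * u⁻¹ * t⁻¹) - 1 = (ρ u - 1) * (ρ t - 1) - (ρ t - 1) * (ρ u - 1) := by
    intro t ht tK
    have pP := pD.to_sup_of_normal_left' (ht.1.pgroup hρ h3)
      ((closure_le _).2 (Set.singleton_subset_iff.2 tK))
    have tP : t ∈ D ⊔ closure {t} := mem_sup_right (subset_closure rfl)
    have := MinQ.comm h3 pP hu (mem_sup_left uD) ht tP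
    exact ⟨by simpa [mul_assoc] using mul_mem uD ((tK u⁻¹).1 (inv_mem uD)),
      MinQ.sandwich h3 pP hu (mem_sup_left uD) ht.1 tP, this.2, this.1⟩
  have sf : ∀ a : Ω, D ≤ stabilizer G a → (y⁻¹ * u * y * (y * u * y⁻¹)⁻¹) • a = a := by
    intro a Da
    obtain ⟨t, tQ, tK, tD, ta⟩ := ex a Da
    obtain ⟨c1, c2, c3, c4⟩ := cm t tQ tK
    obtain ⟨b, Db, sb, tb⟩ := exists_fix_pair hΩ pD sS.2 tK (pgroup_pair hρ h3
      (hu.1.s_quad h3 hy aba) tQ.1 (es ▸ nil_one aba c2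
        (c4 ▸ MinQ.sandwich h3 S.isPGroup' c3 (DS c1) hy yS)))
    rwa [uq t tQ tK tD a b Da Db ta tb]
  have sT : y⁻¹ * u * y * (y * u * y⁻¹)⁻¹ ∈ T :=
    mT (y := (S : Subgroup G) ⊓ K) ⟨S.isPGroup'.to_inf_left, inf_le_right⟩ (le_inf TS TK)
      ⟨sS.1, (mK _).2 ⟨sS.2, sf⟩⟩
  obtain ⟨g, hg, P, pP, PH, TP, tP⟩ := conj_into (H := normalizer (D : Set G) ⊓ stabilizer G w₁)
    (A := T) (fun k hk => ⟨((mK k).1 (TK hk)).1, ((mK k).1 (TK hk)).2 _ D1⟩)
    ((closure_le _).2 (Set.singleton_subset_iff.2 ⟨t₁K, t₁w⟩)) pT (t₁Q.1.pgroup hρ h3)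
  replace tP := tP t₁ (subset_closure rfl)
  have tQ := MinQ.conj t₁Q g
  have tD : g * t₁ * g⁻¹ ∉ D := fun h => t₁D ((hg.1 t₁).2 h)
  generalize g * t₁ * g⁻¹ = t at tP tQ tD
  have tK := (PH tP).1
  obtain ⟨c1, c2, -, c4⟩ := cm t tQ tK
  have cS : ∀ k ∈ P, k * (y⁻¹ * u * y * (y * u * y⁻¹)⁻¹) * k⁻¹ ∈ (S : Subgroup G) := by
    intro k hk
    have kK := (PH hk).1
    refine TS (mT (y := P ⊓ K) ⟨pP.to_inf_left, inf_le_right⟩ (le_inf TP TK)
      ⟨P.mul_mem (P.mul_mem hk (TP sT)) (P.inv_mem hk),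
        (mK _).2 ⟨mul_mem (mul_mem kK sS.2) (inv_mem kK), fun a Da => ?_⟩⟩)
    rw [mul_smul, mul_smul, sf _ (norm_fix (inv_mem kK) Da), smul_inv_smul]
  obtain ⟨N, hN⟩ := up_aug (ρ := ρ) h3 S.isPGroup'
  have l1 := aug_low (ρ := ρ) (cS t tP)
  have l2 := aug_low (ρ := ρ) (cS t⁻¹ (inv_mem tP))
  have ly := aug_low (ρ := ρ) yS
  have l3 := aug_low (ρ := ρ) (DS c1)
  rw [inv_inv, tQ.1.conj_eq', es] at l2
  rw [tQ.1.conj_eq, es] at l1
  obtain ⟨b, Db, nb, tb⟩ := exists_fix_pair hΩ pD nS.2 tK (pgroup_pair hρ h3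
    (hu.1.n_quad h3 hy aba) tQ.1 (hu.1.n_eq h3 hy aba ▸ nil_two hy aba ⟨N, low_nil hN (by
      convert add_mem (mul_mem (sub_mem l2 l1) ly) (mul_mem (mul_mem ly (c4 ▸ l3)) ly) using 3
      have := three_eq h3
      generalize (ρ y - 1) * (ρ u - 1) - (ρ u - 1) * (ρ y - 1) = r
      linear_combination (norm := noncomm_ring) this * ((ρ t - 1) * r - r * (ρ t - 1)))⟩))
  have b1 := uq t tQ tK tD b w₁ Db D1 tb (PH tP).2
  refine w01 (b1 ▸ (uq _ (MinQ.conj hu y) u1.2 u1D b w₀ Db D0 ?_ (S0 u1.1)).symm)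
  have cube := (hu.1.conj y).cube hρ h3
  have e : y⁻¹ * u * y = y⁻¹ * u * y * (y * u * y⁻¹)⁻¹ * (y * u * y⁻¹) := by group
  have k1 := norm_fix u1.2 Db
  rw [e, mul_smul, mul_smul, mul_smul _ (y * u * y⁻¹), sf _ k1, norm_fix u1.2 k1 uD] at nb
  generalize y * u * y⁻¹ = v at *
  conv_lhs => rw [← nb]
  rw [← mul_smul, ← mul_smul, cube, one_smul]

/-- A quadratic element whose centraliser fixes `w` fixes no other point. -/
theorem ti_of_centralizer (hρ : Function.Injective ρ) (h3 : ∀ v : V, v + v + v = 0)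
    (hΩ : ¬ 3 ∣ Nat.card Ω) {E : Subgroup G} {w : Ω} (H : HypTI ρ E w) (hE : IsPGroup 3 E)
    (hw : E ≤ stabilizer G w) {y : G} (hy : Quad ρ y) (y1 : y ≠ 1) {p q : Ω}
    (hp : ∀ z, Commute z y → z • p = p) (hq : y • q = q) : p = q := by
  obtain ⟨u, hu, u1⟩ := exists_minQ y1 hy
  obtain ⟨S, a, b⟩ := exists_syl hΩ (hy.pgroup hρ h3) (w := q)
    ((closure_le _).2 (Set.singleton_subset_iff.2 hq))
  obtain ⟨k, -, P, hP, -, c, d⟩ := conj_into le_top le_top S.isPGroup' (hu.1.pgroup hρ h3)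
  rw [S.is_maximal' hP c] at d
  obtain ⟨z, z1, z2, z3, z4⟩ := MinQ.exists_commute hρ h3 S.isPGroup' (MinQ.conj hu k)
    (by simpa using u1) (d u (subset_closure rfl)) hy (a (subset_closure rfl))
  exact ti hρ h3 hΩ H hE hw z1 z2 (hp z z4) (b z3)

end Pool.Agent.MP_a5588a_al.Full
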