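import Pool.Agent.MP_a5588a_al.Full.TIRank

/-! Consequences of the sandwich lemma, and the two nilpotency computations. -/

namespace Pool.Agent.MP_a5588a_al.Full

section Ring

variable {R : Type*} [Ring R] {a b t : R}

theorem nil_one (aba : a * b * a = 0) (ata : a * t * a = 0)
    (e : (a * t - t * a) * b * (a * t - t * a) = 0) : IsNilpotent ((b * a - a * b) * t) := by
  have r3 := zr aba
  have r4 := zr ata
  have e2 := fun x => congrArg (fun z => a * b * z * x) e
  have e3 := fun x => congrArg (fun z => z * (b * a) * x) e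
  simp only [mul_sub, sub_mul, mul_assoc, zero_mul, mul_zero] at r3 r4 e2 e3
  simp only [r3, mul_zero, sub_zero, zero_sub, neg_neg, sub_self] at e2 e3
  refine ⟨5, ?_⟩
  simp only [pow_succ', pow_zero, mul_sub, sub_mul, mul_assoc, r4, e2, e3, mul_zero,
    sub_zero, zero_sub, mul_neg, neg_zero, sub_self]

theorem nil_two (bb : b * b = 0) (aba : a * b * a = 0)
    (h : IsNilpotent ((t * (b * a - a * b) - (b * a - a * b) * t) * b + b * (a * t - t * a) * b)) :
    IsNilpotent (b * a * b * t) := by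
  obtain ⟨n, hn⟩ := h
  generalize hw : (t * (b * a - a * b) - (b * a - a * b) * t) * b + b * (a * t - t * a) * b = w at hn
  have e : a * b * t * b * a = w * a := by
    rw [← hw]
    linear_combination (norm := noncomm_ring) t * a * bb * a - t * b * aba + b * t * aba
  have k : ∀ i, (a * b * t * b) ^ i * a = w ^ i * a := fun i => by
    induction i with
    | zero => simp
    | succ i ih =>
      rw [show a * b * t * b = a * (b * t * b) by noncomm_ring] at *
      rw [mul_pow_mul, pow_succ', ← mul_assoc, ← mul_assoc, e, mul_assoc, ← mul_pow_mul, ih,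
        ← mul_assoc, ← pow_succ']
  refine ⟨n + 1, ?_⟩
  rw [pow_succ, mul_assoc b, mul_assoc b, ← mul_assoc, mul_pow_mul, mul_assoc b, ← mul_assoc,
    ← mul_assoc, ← mul_assoc, mul_assoc b, k, hn]
  simp

end Ring

variable {G V : Type*} [Group G] [AddCommGroup V] {ρ : G →* AddMonoid.End V} {u y : G}

theorem Quad.s_eq (h3 : ∀ v : V, v + v + v = 0) (hu : Quad ρ u) (hy : Quad ρ y)
    (h : (ρ u - 1) * (ρ y - 1) * (ρ u - 1) = 0) : ρ (y⁻¹ * u * y * (y * u * y⁻¹)⁻¹) - 1 =
      (ρ y - 1) * (ρ u - 1) - (ρ u - 1) * (ρ y - 1) := by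
  have t := three_eq h3
  rw [map_mul, (hu.conj y).inv_eq, hy.conj_eq, sub_eq_iff_eq_add'.1 (hy.conj_eq' u)]
  unfold Quad at *
  generalize ρ u - 1 = a at *
  generalize ρ y - 1 = b at *
  linear_combination (norm := noncomm_ring) t * (a * b - b * a) -
    (1 - b) * (hu + 2 * h + a * hy * a) * (1 - b)

theorem Quad.n_eq (h3 : ∀ v : V, v + v + v = 0) (hu : Quad ρ u) (hy : Quad ρ y)
    (h : (ρ u - 1) * (ρ y - 1) * (ρ u - 1) = 0) : ρ (u * (y * u * y⁻¹) * (y⁻¹ * u * y)) - 1 =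
      (ρ y - 1) * (ρ u - 1) * (ρ y - 1) := by
  have t := three_eq h3
  rw [map_mul, map_mul, sub_eq_iff_eq_add'.1 (hy.conj_eq u), sub_eq_iff_eq_add'.1 (hy.conj_eq' u)]
  unfold Quad at *
  generalize ha : ρ u - 1 = a at *
  generalize ρ y - 1 = b at *
  rw [sub_eq_iff_eq_add'.1 ha]
  have r1 := zr hu
  have r2 := zr hy
  have r3 := zr h
  simp only [mul_assoc] at r1 r2 r3 h
  simp only [mul_add, add_mul, mul_sub, sub_mul, mul_assoc, r1, r2, r3, h, hu, mul_one, one_mul,
    mul_zero]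
  linear_combination (norm := noncomm_ring) t * (a - b * a * b)

theorem Quad.s_quad (h3 : ∀ v : V, v + v + v = 0) (hu : Quad ρ u) (hy : Quad ρ y)
    (h : (ρ u - 1) * (ρ y - 1) * (ρ u - 1) = 0) : Quad ρ (y⁻¹ * u * y * (y * u * y⁻¹)⁻¹) := by
  unfold Quad
  rw [hu.s_eq h3 hy h]
  unfold Quad at *
  generalize ρ u - 1 = a at *
  generalize ρ y - 1 = b at *
  linear_combination (norm := noncomm_ring) b * h + h * b - b * hu * b - a * hy * a

theorem Quad.n_quad (h3 : ∀ v : V, v + v + v = 0) (hu : Quad ρ u) (hy : Quad ρ y)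
    (h : (ρ u - 1) * (ρ y - 1) * (ρ u - 1) = 0) : Quad ρ (u * (y * u * y⁻¹) * (y⁻¹ * u * y)) := by
  unfold Quad
  rw [hu.n_eq h3 hy h]
  unfold Quad at *
  generalize ρ u - 1 = a at *
  generalize ρ y - 1 = b at *
  linear_combination (norm := noncomm_ring) b * a * hy * a * b

theorem commute_of (hρ : Function.Injective ρ)
    (h : (ρ u - 1) * (ρ y - 1) = (ρ y - 1) * (ρ u - 1)) : Commute u y :=
  hρ (by rw [map_mul, map_mul]; linear_combination (norm := noncomm_ring) h)

variable [Finite V]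

/-- The commutator of two elements of least rank in a three-group. -/
theorem MinQ.comm (h3 : ∀ v : V, v + v + v = 0) {P : Subgroup G} (hP : IsPGroup 3 P)
    (hu : u ∈ MinQ ρ) (uP : u ∈ P) (hy : y ∈ MinQ ρ) (yP : y ∈ P) :
    ρ (u * y * u⁻¹ * y⁻¹) - 1 = (ρ u - 1) * (ρ y - 1) - (ρ y - 1) * (ρ u - 1) ∧
      u * y * u⁻¹ * y⁻¹ ∈ MinQ ρ := by
  have h1 := MinQ.sandwich h3 hP hu uP hy.1 yP
  have h2 := MinQ.sandwich h3 hP hy yP hu.1 uP
  have e := hu.1.comm hy.1 h1 h2
  refine ⟨e, MinQ.of_le hy ?_ (e ▸ rk_comm h1)⟩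
  have := hy.1.s_quad h3 hu.1 h2
  unfold Quad at *
  rwa [Quad.s_eq h3 hy.1 hu.1 h2, ← e] at this

/-- A three-group that contains an element of least rank contains one that commutes with a given
quadratic element. -/
theorem MinQ.exists_commute (hρ : Function.Injective ρ) (h3 : ∀ v : V, v + v + v = 0)
    {P : Subgroup G} (hP : IsPGroup 3 P) (hu : u ∈ MinQ ρ) (u1 : u ≠ 1) (uP : u ∈ P)
    (hy : Quad ρ y) (yP : y ∈ P) : ∃ z ∈ MinQ ρ, z ≠ 1 ∧ z ∈ P ∧ Commute z y := by
  have h := MinQ.sandwich h3 hP hu uP hy yP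
  have m1 := P.mul_mem (P.mul_mem yP uP) (P.inv_mem yP)
  have m2 := P.mul_mem (P.mul_mem (P.inv_mem yP) uP) yP
  have en := hu.1.n_eq h3 hy h
  have es := hu.1.s_eq h3 hy h
  have bb : (ρ y - 1) * (ρ y - 1) = 0 := hy
  by_cases hn : u * (y * u * y⁻¹) * (y⁻¹ * u * y) = 1
  · rw [hn, map_one, sub_self] at en
    by_cases hs : y⁻¹ * u * y * (y * u * y⁻¹)⁻¹ = 1
    · rw [hs, map_one, sub_self] at es
      exact ⟨u, hu, u1, uP, commute_of hρ (sub_eq_zero.1 es.symm).symm⟩
    · refine ⟨_, MinQ.of_le hu (hu.1.s_quad h3 hy h) (es ▸ rk_comm en.symm), hs,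
        P.mul_mem m2 (P.inv_mem m1), commute_of hρ ?_⟩
      rw [es]
      linear_combination (norm := noncomm_ring) -en - en - (ρ u - 1) * bb - bb * (ρ u - 1)
  · refine ⟨_, MinQ.of_le hu (hu.1.n_quad h3 hy h) (en ▸ rk_mul _ _ _), hn,
      P.mul_mem (P.mul_mem uP m1) m2, commute_of hρ ?_⟩
    rw [en]
    linear_combination (norm := noncomm_ring) (ρ y - 1) * (ρ u - 1) * bb -
      bb * (ρ u - 1) * (ρ y - 1)

end Pool.Agent.MP_a5588a_al.Full
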