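import Pool.Agent.MP_a5588a_al.Full.TIFlag

/-! Quadratic elements of least rank inside a three-group. -/

namespace Pool.Agent.MP_a5588a_al.Full

variable {G V : Type*} [Group G] [AddCommGroup V]

theorem zr {R : Type*} [Ring R] {a : R} (h : a = 0) (x : R) : a * x = 0 := by rw [h, zero_mul]

/-- The size of the image. -/
noncomputable def rk (a : AddMonoid.End V) : ℕ := Nat.card (Set.range a)

/-- The square of `x - 1` is zero. -/
def Quad (ρ : G →* AddMonoid.End V) (x : G) : Prop := (ρ x - 1) * (ρ x - 1) = 0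

/-- The identity and the quadratic elements of least rank. -/
def MinQ (ρ : G →* AddMonoid.End V) : Set G :=
  {x | Quad ρ x ∧ ∀ y, y ≠ 1 → Quad ρ y → rk (ρ x - 1) ≤ rk (ρ y - 1)}

variable {ρ : G →* AddMonoid.End V}

theorem Quad.inv_eq {x : G} (h : Quad ρ x) : ρ x⁻¹ = 1 - (ρ x - 1) := by
  rw [← sub_add_cancel (ρ x⁻¹) 1, inv_of_quad h]; abel

theorem conj_sub (g x : G) : ρ (g * x * g⁻¹) - 1 = ρ g * (ρ x - 1) * ρ g⁻¹ := by
  rw [mul_sub, sub_mul, mul_one, ← map_mul, ← map_mul, ← map_mul, mul_inv_cancel, map_one]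

theorem Quad.conj {x : G} (h : Quad ρ x) (g : G) : Quad ρ (g * x * g⁻¹) := by
  have : ρ g⁻¹ * ρ g = 1 := by rw [← map_mul, inv_mul_cancel, map_one]
  unfold Quad at *
  rw [conj_sub]
  generalize ρ x - 1 = a at *
  linear_combination (norm := noncomm_ring) ρ g * a * this * a * ρ g⁻¹ + ρ g * h * ρ g⁻¹

theorem Quad.inv {x : G} (h : Quad ρ x) : Quad ρ x⁻¹ := by
  unfold Quad
  rw [inv_of_quad h, neg_mul_neg, h]

theorem Quad.conj_eq {y : G} (hy : Quad ρ y) (x : G) :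
    ρ (y * x * y⁻¹) - 1 = (1 + (ρ y - 1)) * (ρ x - 1) * (1 - (ρ y - 1)) := by
  rw [conj_sub, hy.inv_eq, add_sub_cancel]

theorem Quad.conj_eq' {y : G} (hy : Quad ρ y) (x : G) :
    ρ (y⁻¹ * x * y) - 1 = (1 - (ρ y - 1)) * (ρ x - 1) * (1 + (ρ y - 1)) := by
  have := conj_sub (ρ := ρ) y⁻¹ x
  rw [inv_inv, hy.inv_eq] at this
  rw [this, add_sub_cancel]

theorem Quad.cube (hρ : Function.Injective ρ) (h3 : ∀ v : V, v + v + v = 0) {x : G}
    (h : Quad ρ x) : x * x * x = 1 := hρ (by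
  have := three_eq h3
  unfold Quad at h
  rw [map_mul, map_mul, map_one]
  linear_combination (norm := noncomm_ring) h * (ρ x + 2) + this * (ρ x - 1))

theorem Quad.comm {x y : G} (hx : Quad ρ x) (hy : Quad ρ y)
    (h1 : (ρ x - 1) * (ρ y - 1) * (ρ x - 1) = 0) (h2 : (ρ y - 1) * (ρ x - 1) * (ρ y - 1) = 0) :
    ρ (x * y * x⁻¹ * y⁻¹) - 1 = (ρ x - 1) * (ρ y - 1) - (ρ y - 1) * (ρ x - 1) := by
  rw [map_mul, map_mul, map_mul, hx.inv_eq, hy.inv_eq, ← add_sub_cancel 1 (ρ x),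
    ← add_sub_cancel 1 (ρ y)]
  unfold Quad at *
  simp only [add_sub_assoc]
  generalize ρ x - 1 = a at *
  generalize ρ y - 1 = b at *
  linear_combination (norm := noncomm_ring) hx * (b - 1) - (1 + a) * hy - h1 * (1 - b) + h2

theorem MinQ.of_le {u x : G} (hu : u ∈ MinQ ρ) (hx : Quad ρ x)
    (h : rk (ρ x - 1) ≤ rk (ρ u - 1)) : x ∈ MinQ ρ :=
  ⟨hx, fun y a b => h.trans (hu.2 y a b)⟩

theorem exists_minQ {y : G} (y1 : y ≠ 1) (hy : Quad ρ y) : ∃ u ∈ MinQ ρ, u ≠ 1 := by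
  obtain ⟨u, hu, h⟩ := (measure fun x => rk (ρ x - 1)).wf.has_min {x | x ≠ 1 ∧ Quad ρ x}
    ⟨y, y1, hy⟩
  exact ⟨u, ⟨hu.2, fun y a b => not_lt.1 (h y ⟨a, b⟩)⟩, hu.1⟩

variable [Finite V]

theorem rk_mul (x a y : AddMonoid.End V) : rk (x * a * y) ≤ rk a :=
  (Nat.card_mono (Set.toFinite (x '' Set.range a)) (by
    rintro _ ⟨v, rfl⟩
    exact ⟨_, ⟨y v, rfl⟩, rfl⟩)).trans (Nat.card_image_le (Set.toFinite _))

theorem rk_comm {a b : AddMonoid.End V} (h : b * a * b = 0) : rk (b * a - a * b) ≤ rk a := by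
  let A : AddSubgroup V := AddMonoidHom.range a
  let f : A →+ V := AddMonoidHom.comp b A.subtype
  have e : Nat.card A = Nat.card (f.range × f.ker) := by
    rw [AddSubgroup.card_eq_card_quotient_mul_card_addSubgroup f.ker, Nat.card_prod,
      Nat.card_congr (QuotientAddGroup.quotientKerEquivRange f).toEquiv]
  refine le_trans ?_ e.ge
  refine (Nat.card_mono (Set.toFinite _) ?_).trans
    (Finite.card_range_le fun p : f.range × f.ker => p.1.1 - p.2.1.1)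
  rintro _ ⟨v, rfl⟩
  exact ⟨(⟨_, ⟨_, v, rfl⟩, rfl⟩, ⟨⟨_, b v, rfl⟩, DFunLike.congr_fun h v⟩), rfl⟩

theorem MinQ.conj {u : G} (hu : u ∈ MinQ ρ) (g : G) : g * u * g⁻¹ ∈ MinQ ρ :=
  MinQ.of_le hu (hu.1.conj g) (by rw [conj_sub]; exact rk_mul _ _ _)

theorem MinQ.step (h3 : ∀ v : V, v + v + v = 0) {u y : G} (hu : u ∈ MinQ ρ) (hy : Quad ρ y)
    (h : (ρ u - 1) * (ρ (y * u * y⁻¹) - 1) * (ρ u - 1) = 0) :
    (ρ u - 1) * (ρ y - 1) * (ρ u - 1) = 0 := by
  have t := three_eq h3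
  have q1 := hu.1.conj y
  have q2 : Quad ρ (y⁻¹ * u * y) := by simpa using hu.1.conj y⁻¹
  have c1 := hu.1.comm q1
  have c2 := q2.comm hu.1
  have m := hu.2 (u * (y * u * y⁻¹) * u⁻¹ * (y * u * y⁻¹)⁻¹ *
    (y⁻¹ * u * y * u * (y⁻¹ * u * y)⁻¹ * u⁻¹))
  have aa := hu.1
  unfold Quad at m aa
  rw [map_mul] at m
  rw [hy.conj_eq] at h c1
  rw [hy.conj_eq'] at c2
  unfold Quad at hy
  have g1 : u * (y * u * y⁻¹) * u⁻¹ * (y * u * y⁻¹)⁻¹ *
    (y⁻¹ * u * y * u * (y⁻¹ * u * y)⁻¹ * u⁻¹) = 1 → ρ (u * (y * u * y⁻¹) * u⁻¹ * (y * u * y⁻¹)⁻¹) *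
    ρ (y⁻¹ * u * y * u * (y⁻¹ * u * y)⁻¹ * u⁻¹) - 1 = 0 := fun e => by
      rw [← map_mul, e, map_one, sub_self]
  generalize ρ u - 1 = a at *
  generalize ρ y - 1 = b at *
  have w : a * (b * (a * (b * a))) = 0 := by
    linear_combination (norm := noncomm_ring) -h + aa * (1 - b) * a + a * b * aa
  have r1 := zr aa
  have r2 := zr hy
  have r3 := zr w
  simp only [mul_assoc] at r1 r2 r3
  replace c1 := c1 h (by simp [mul_add, add_mul, mul_sub, sub_mul, mul_assoc, aa, w, r1, r3])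
  replace c2 := c2 (by simp [mul_add, add_mul, mul_sub, sub_mul, mul_assoc, aa, w, r1, r3])
    (by simp [mul_add, add_mul, mul_sub, sub_mul, mul_assoc, aa, w, r1])
  rw [sub_eq_iff_eq_add'.1 c1, sub_eq_iff_eq_add'.1 c2] at m g1
  have e : (1 + (a * ((1 + b) * a * (1 - b)) - (1 + b) * a * (1 - b) * a)) *
      (1 + ((1 - b) * a * (1 + b) * a - a * ((1 - b) * a * (1 + b)))) - 1 = a * b * a := by
    simp only [mul_add, add_mul, mul_sub, sub_mul, mul_assoc, aa, w, r1, r2, r3, mul_one,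
      one_mul, mul_zero, zero_mul]
    linear_combination (norm := noncomm_ring) t * (a * b * a)
  rw [e] at m g1
  by_contra b0
  have le := m (fun e => b0 (g1 e)) (by simp [mul_assoc, r1])
  have sub : Set.range (a * b * a) ⊆ Set.range a := by
    rintro _ ⟨v, rfl⟩
    exact ⟨_, rfl⟩
  have eq := (Set.toFinite _).eq_of_subset_of_card_le sub le
  refine b0 (AddMonoidHom.ext fun v => ?_)
  obtain ⟨v', hv⟩ : a v ∈ Set.range (a * b * a) := eq ▸ ⟨v, rfl⟩
  exact (congrArg (a * b) hv).symm.trans (DFunLike.congr_fun w v')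

/-- Lemma R'. -/
theorem MinQ.sandwich (h3 : ∀ v : V, v + v + v = 0) {P : Subgroup G} (hP : IsPGroup 3 P) {u y : G}
    (hu : u ∈ MinQ ρ) (uP : u ∈ P) (hy : Quad ρ y) (yP : y ∈ P) :
    (ρ u - 1) * (ρ y - 1) * (ρ u - 1) = 0 := by
  obtain ⟨n, hn⟩ := up_aug (ρ := ρ) h3 hP
  have key : ∀ k i, up (aug ρ P) (i + k) = ⊤ → ∀ y ∈ P, Quad ρ y →
      (∀ v ∈ up (aug ρ P) i, ((ρ u - 1) * (ρ y - 1) * (ρ u - 1)) v = 0) →
      (ρ u - 1) * (ρ y - 1) * (ρ u - 1) = 0 := fun k => by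
    induction k with
    | zero => exact fun i hi y _ _ h => AddMonoidHom.ext fun v => h v (hi.ge trivial)
    | succ k ih =>
      refine fun i hi y yP hy h => MinQ.step h3 hu hy (ih (i + 1) (by rw [← hi]; congr 1; ring) _
        (P.mul_mem (P.mul_mem yP uP) (P.inv_mem yP)) (hu.1.conj y) fun v hv => ?_)
      have := h _ ((low _).mul_mem (aug_low yP) (aug_low uP) i v hv)
      have aa := hu.1
      unfold Quad at aa
      rw [hy.conj_eq]
      generalize ρ u - 1 = a at *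
      generalize ρ y - 1 = b at *
      rw [show a * ((1 + b) * a * (1 - b)) * a = -(a * b * a * (b * a)) by
        linear_combination (norm := noncomm_ring) aa * (1 - b) * a + a * b * aa]
      exact neg_eq_zero.2 this
  exact key n 0 (by rwa [zero_add]) y yP hy fun v hv => by rw [show v = 0 from hv, map_zero]

end Pool.Agent.MP_a5588a_al.Full
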