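import Pool.Agent.MP_a5588a_al.Solv.LG
import Pool.Agent.MP_a5588a_al.Solv.R012

/-! Reduction of the control of the focal subgroup to the groups with a unique maximal overgroup
of the Sylow subgroup. -/

namespace Pool.Agent.MP_a5588a_al.Full

open scoped commutatorElement
open Pool.Agent.MP_a5588a_al.Solv

universe u

/-- `W` is normal in every finite group over `T₀` in which the stabiliser of `θ` on the largest
normal 3-subgroup is proper and contains every proper overgroup of the Sylow subgroup. -/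
def NodeOK {T₀ : Type*} [Group T₀] (W : Subgroup T₀) : Prop :=
  ∀ (G : Type u) [Group G] [Finite G] (T : Sylow 3 G) (f : T₀ →* G), Function.Injective f →
    f.range = T → ∀ (A : Type u) [CommGroup A] (θ : G → A), MulOn (T : Subgroup G) θ →
    Stab (T : Subgroup G).normalCore θ ≠ ⊤ →
    (∀ L : Subgroup G, (T : Subgroup G) ≤ L → L ≠ ⊤ → L ≤ Stab (T : Subgroup G).normalCore θ) →
    (W.map f).Normal

/-- The normaliser of `W` controls the invariance of homomorphisms in `G`. -/
def Ctl {T₀ : Type*} [Group T₀] (W : Subgroup T₀) (G : Type u) [Group G] : Prop :=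
  ∀ (T : Sylow 3 G) (f : T₀ →* G), Function.Injective f → f.range = T →
    ∀ (A : Type u) [CommGroup A] (θ : G → A), MulOn (T : Subgroup G) θ →
    FI (T : Subgroup G) θ (Subgroup.normalizer ((W.map f : Subgroup G) : Set G)) →
    FI (T : Subgroup G) θ ⊤

/-- Every nontrivial finite 3-group has a nontrivial characteristic subgroup with `NodeOK`. -/
def AllW : Prop :=
  ∀ (R : Type u) [Group R] [Finite R] [Nontrivial R], IsPGroup 3 R →
    ∃ W : Subgroup R, W ≠ ⊥ ∧ W.Characteristic ∧ NodeOK.{u} W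

theorem loc_Top {T₀ : Type*} {A : Type u} [Group T₀] [CommGroup A] {W : Subgroup T₀}
    {G : Type u} [Group G] [Finite G] {N R : Subgroup G} (hN : Ctl W N)
    (hR : Mx_LG N R) (f : T₀ →* G) (hf : Function.Injective f) (hT : f.range = R) {θ : G → A}
    (hθ : MulOn R θ) (h : FI R θ (Subgroup.normalizer ((W.map f : Subgroup G) : Set G))) :
    FI R θ N := by
  let R0 : Sylow 3 N := ⟨R.subgroupOf N, hR.p3.comap_subtype, fun {Q'} hQ' hle => by
    have := hR.max (Q'.map N.subtype) (Subgroup.map_subtype_le _) (hQ'.map _)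
      (fun x hx => ⟨⟨x, hR.le hx⟩, hle hx, rfl⟩)
    rw [← this, Subgroup.subgroupOf,
      Subgroup.comap_map_eq_self_of_injective N.subtype_injective]⟩
  have hm : ∀ x, f x ∈ R := fun x => hT ▸ ⟨x, rfl⟩
  let f' : T₀ →* N := f.codRestrict N fun x => hR.le (hm x)
  have key := hN R0 f' (fun x y e => hf (congrArg Subtype.val e))
    (by
      ext x
      constructor
      · rintro ⟨y, rfl⟩
        exact hm y
      · intro hx
        obtain ⟨y, hy⟩ : (x : G) ∈ f.range := hT ▸ hx
        exact ⟨y, Subtype.ext hy⟩) A (fun x => θ x)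
    (fun x hx y hy => hθ x hx y hy) (fun g hg s hs hs' => by
      refine h g ?_ s hs hs'
      have := Subgroup.le_normalizer_map N.subtype ⟨g, hg, rfl⟩
      rwa [Subgroup.map_map] at this)
  exact fun g hg s hs hs' => key ⟨g, hg⟩ trivial ⟨s, hR.le hs⟩ hs hs'

theorem char_Top {G : Type*} [Group G] [Finite G] {R : Subgroup G} {W : Subgroup R}
    (hW : W.Characteristic) : Subgroup.normalizer (R : Set G) ≤
      Subgroup.normalizer ((W.map R.subtype : Subgroup G) : Set G) := by
  intro r hr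
  refine Subgroup.mem_normalizer_fintype ?_
  rintro _ ⟨x, hx, rfl⟩
  exact ⟨_, Subgroup.characteristic_iff_le_comap.1 hW (R.normalizerMonoidHom ⟨r, hr⟩) hx, rfl⟩

theorem lg_Top (hall : AllW.{u}) {T₀ : Type*} {A : Type u} [Group T₀] [CommGroup A]
    {W : Subgroup T₀} (G : Type u) [Group G] [Finite G]
    (h₀ : ∀ D : Subgroup G, D ≠ ⊥ → IsPGroup 3 D → Ctl W (Subgroup.normalizer (D : Set G)))
    (hU : ∀ (R : Subgroup G) (W₁ : Subgroup R), NodeOK.{u} W₁ →
      ∀ D : Subgroup G, D ≠ ⊥ → IsPGroup 3 D → Ctl W₁ (Subgroup.normalizer (D : Set G)))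
    (T : Sylow 3 G) (f : T₀ →* G)
    (hf : Function.Injective f) (hT : f.range = T) {θ : G → A} (hθ : MulOn (T : Subgroup G) θ)
    (h : FI (T : Subgroup G) θ (Subgroup.normalizer ((W.map f : Subgroup G) : Set G))) :
    FI (T : Subgroup G) θ ⊤ := by
  have hp : ∀ g : G, IsPGroup 3 (cj (T : Subgroup G) g) := fun g => T.isPGroup'.map _
  have hmul : ∀ g : G, MulOn (cj (T : Subgroup G) g) fun x => θ (g⁻¹ * x * g) := by
    intro g x hx y hy
    simp only
    rw [← hθ _ (mem_cj.mp hx) _ (mem_cj.mp hy)]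
    congr 1; group
  have hcard : ∀ {P : Subgroup G} {g : G}, P ≤ cj T g → ¬ Nat.card T < Nat.card P + 0 :=
    fun {P g} hP => not_lt.2 ((Subgroup.card_le_of_le hP).trans_eq (card_cj _ g))
  have main : ∀ k : ℕ, (∀ (D R : Subgroup G) (g : G), D ≠ ⊥ → IsPGroup 3 D →
      Mx_LG (Subgroup.normalizer (D : Set G)) R → R ≤ cj T g → Nat.card T < Nat.card R + k →
      FI R (fun x => θ (g⁻¹ * x * g)) (Subgroup.normalizer (D : Set G))) ∧
      ∀ (P : Subgroup G) (g₁ g₂ : G), P ≤ cj T g₁ → P ≤ cj T g₂ → Nat.card T < Nat.card P + k →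
        ∀ x ∈ P, θ (g₁⁻¹ * x * g₁) = θ (g₂⁻¹ * x * g₂) := by
    intro k
    induction k with
    | zero =>
      exact ⟨fun D R g _ _ _ a b => (hcard a b).elim, fun P g₁ g₂ a _ b => (hcard a b).elim⟩
    | succ k ih =>
    obtain ⟨ihL, ihF⟩ := ih
    have hL : ∀ (D R : Subgroup G) (g : G), D ≠ ⊥ → IsPGroup 3 D →
        Mx_LG (Subgroup.normalizer (D : Set G)) R → R ≤ cj T g →
        Nat.card T < Nat.card R + (k + 1) →
        FI R (fun x => θ (g⁻¹ * x * g)) (Subgroup.normalizer (D : Set G)) := by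
      intro D R g hD0 hD hR hRg hk
      have hm : MulOn R fun x => θ (g⁻¹ * x * g) := fun x hx y hy => hmul g x (hRg hx) y (hRg hy)
      by_cases e : R = cj T g
      · refine loc_Top (h₀ D hD0 hD) hR ((MulAut.conj g).toMonoidHom.comp f)
          ((cj_inj g).comp hf) (by rw [MonoidHom.range_comp, hT, e]; rfl) hm
          fun n hn s hs hs' => ?_
        have h1 : g⁻¹ * n * g ∈ Subgroup.normalizer ((W.map f : Subgroup G) : Set G) := by
          refine Subgroup.mem_normalizer_fintype fun y hy => ?_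
          rw [← Subgroup.map_map] at hn
          have h2 : g * y * g⁻¹ ∈ cj (W.map f) g := mem_cj.mpr (by simpa [mul_assoc] using hy)
          have h3 := mem_cj.mp ((Subgroup.mem_normalizer_iff.mp hn _).mp h2)
          rw [SetLike.mem_coe]
          convert h3 using 1
          group
        have e2 : g⁻¹ * (n * s * n⁻¹) * g = g⁻¹ * n * g * (g⁻¹ * s * g) * (g⁻¹ * n * g)⁻¹ := by
          group
        rw [e2]
        exact h _ h1 _ (mem_cj.mp (hRg hs)) (e2 ▸ mem_cj.mp (hRg hs'))
      · have hDR : D ≤ R := by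
          have h1 : D ⊔ R = R := by
            refine hR.max _ (sup_le Subgroup.le_normalizer hR.le) ?_ le_sup_right
            exact IsPGroup.to_sup_of_normal_left' hD hR.p3 hR.le
          exact h1 ▸ le_sup_left
        have : Nontrivial R := (Subgroup.nontrivial_iff_ne_bot R).2 fun h0 =>
          hD0 (le_bot_iff.1 (h0 ▸ hDR))
        obtain ⟨W₁, hW₁0, hW₁, hW₂⟩ := hall R hR.p3
        obtain ⟨R', g', a1, a2, a3⟩ := exists_mx_LG T
          (P := cj T g ⊓ Subgroup.normalizer (R : Set G))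
          (inf_le_right.trans (char_Top hW₁)) (hp g).to_inf_left
        have hlt := grow_LG (hp g) hRg e
        have hle := Subgroup.card_le_of_le a1
        have hRR : R ≤ cj T g ⊓ Subgroup.normalizer (R : Set G) :=
          le_inf hRg Subgroup.le_normalizer
        have b1 := ihL (W₁.map R.subtype) R' g'
          (fun h0 => hW₁0 ((Subgroup.map_eq_bot_iff_of_injective _ R.subtype_injective).1 h0))
          (hR.p3.to_le (Subgroup.map_subtype_le _)) a2 a3 (by omega)
        have b2 := ihF _ g g' inf_le_left (a1.trans a3) (by omega)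
        refine loc_Top (hU R W₁ hW₂ D hD0 hD) hR R.subtype R.subtype_injective R.range_subtype hm
          fun n hn s hs hs' => ?_
        rw [b2 _ (hRR hs), b2 _ (hRR hs')]
        exact b1 n hn s (a1 (hRR hs)) (a1 (hRR hs'))
    refine ⟨hL, fun P g₁ g₂ h₁ h₂ hk => ?_⟩
    by_cases hP0 : P = ⊥
    · intro x hx
      rw [hP0, Subgroup.mem_bot] at hx
      simp [hx]
    have hP := (hp g₁).to_le h₁
    obtain ⟨R, g₀, a1, a2, a3⟩ := exists_mx_LG T Subgroup.le_normalizer hP
    have hle := Subgroup.card_le_of_le a1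
    have b1 := hL P R g₀ hP0 hP a2 a3 (by omega)
    suffices H : ∀ g, P ≤ cj T g → ∀ x ∈ P, θ (g⁻¹ * x * g) = θ (g₀⁻¹ * x * g₀) by
      intro x hx; rw [H g₁ h₁ x hx, H g₂ h₂ x hx]
    intro g hg x hx
    suffices H : ∃ y ∈ Subgroup.normalizer (P : Set G),
        θ (g⁻¹ * x * g) = θ ((y * g₀)⁻¹ * x * (y * g₀)) by
      obtain ⟨y, hy, e⟩ := H
      have hy' := Subgroup.inv_mem _ hy
      refine e.trans (Eq.trans ?_
        (b1 _ hy' x (a1 hx) (a1 ((Subgroup.mem_normalizer_iff.mp hy' x).mp hx))))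
      congr 1; group
    by_cases e : P = cj T g
    · have e0 : P = cj T g₀ :=
        Subgroup.eq_of_le_of_card_ge (a1.trans a3) (by rw [e, card_cj, card_cj])
      refine ⟨g * g₀⁻¹, Subgroup.mem_normalizer_fintype fun z hz => ?_, by simp⟩
      have h3 : g₀⁻¹ * z * g₀ ∈ (T : Subgroup G) := mem_cj.mp (e0 ▸ hz)
      rw [e, SetLike.mem_coe, mem_cj]
      convert h3 using 1
      group
    · have hlt := grow_LG (hp g) hg e
      obtain ⟨y, hyN, hy⟩ := sylow_conj a2.le a2.p3 a2.max
        (Q := cj T g ⊓ Subgroup.normalizer (P : Set G)) inf_le_right (hp g).to_inf_left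
      refine ⟨y, hyN, ihF _ g (y * g₀) inf_le_left (fun z hz => ?_) (by omega) x
        ⟨hg hx, Subgroup.le_normalizer hx⟩⟩
      have := mem_cj.mp (a3 (hy z hz))
      rw [mem_cj]; convert this using 1; group
  intro g _ s hs hs'
  have := (main (Nat.card T + 1)).2 (Subgroup.zpowers s) g⁻¹ 1
    (Subgroup.zpowers_le.mpr (mem_cj.mpr (by simpa using hs')))
    (Subgroup.zpowers_le.mpr (mem_cj.mpr (by simpa using hs))) (by omega) s
    (Subgroup.mem_zpowers _)
  simpa using this

/-- The case in which `θ` is invariant on a nontrivial normal 3-subgroup. -/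
theorem quot_Top {G A : Type*} [Group G] [Finite G] [CommGroup A] (T : Sylow 3 G) {θ : G → A}
    (hθ : MulOn (T : Subgroup G) θ) {Q H : Subgroup G} [Q.Normal] (hQ : Q ≤ T)
    (hY : Stab Q θ = ⊤) (hTH : (T : Subgroup G) ≤ H) (hH : FI (T : Subgroup G) θ H)
    (hc : ∀ t ∈ (T : Subgroup G), t ∈ commutator G → ∃ c ∈ ⁅H, H⁆, c⁻¹ * t ∈ Q) :
    FI (T : Subgroup G) θ ⊤ := by
  classical
  have : Fact (Nat.Prime 3) := ⟨Nat.prime_three⟩
  obtain ⟨φ, a1, a2, -⟩ := ext_of_FI T hθ hTH hH
  let η : (T : Subgroup G) →* A := MonoidHom.mk' (fun x => θ x) fun x y => hθ _ x.2 _ y.2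
  have inv : ∀ g, ∀ x ∈ Q, θ (g * x * g⁻¹) = θ x := fun g => (hY.ge (Subgroup.mem_top g) :)
  have hV : ∀ (x : G) (hx : x ∈ Q), η.transfer x = η ⟨x, hQ hx⟩ ^ (T : Subgroup G).index := by
    intro x hx
    have : Fintype (Quotient (MulAction.orbitRel (Subgroup.zpowers x) (G ⧸ (T : Subgroup G)))) :=
      Fintype.ofFinite _
    rw [Subgroup.index_eq_sum_minimalPeriod (T : Subgroup G) x, ← Finset.prod_pow_eq_pow_sum,
      MonoidHom.transfer_eq_prod_quotient_orbitRel_zpowers_quot]
    refine Finset.prod_congr rfl fun q _ => ?_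
    rw [← map_pow]
    have := inv q.out.out⁻¹ _ (Q.pow_mem hx (Function.minimalPeriod (x • ·) q.out))
    rw [inv_inv] at this
    exact this
  have one : ∀ x ∈ Q, x ∈ commutator G → θ x = 1 := by
    intro x hx hx'
    have e1 : η.transfer x = 1 := Abelianization.commutator_subset_ker η.transfer hx'
    rw [hV x hx] at e1
    obtain ⟨n, hn⟩ := T.isPGroup' ⟨x, hQ hx⟩
    have e2 : η ⟨x, hQ hx⟩ ^ 3 ^ n = 1 := by rw [← map_pow, hn, map_one]
    have hc : Nat.Coprime (T : Subgroup G).index (3 ^ n) :=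
      Nat.Coprime.pow_right n ((Nat.prime_three.coprime_iff_not_dvd.2 T.not_dvd_index).symm)
    have := pow_gcd_eq_one.2 ⟨e1, e2⟩
    rwa [hc, pow_one] at this
  let ψ : H →* A := MonoidHom.mk' (fun x => φ x) fun x y => a1 _ x.2 _ y.2
  have key : ∀ t ∈ (T : Subgroup G), t ∈ commutator G → θ t = 1 := by
    intro t ht ht'
    obtain ⟨c, c1, c2⟩ := hc t ht ht'
    have c3 : c ∈ (T : Subgroup G) := by
      have := mul_mem ht (inv_mem (hQ c2))
      simpa using this
    have c4 : φ c = 1 := by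
      rw [← Subgroup.map_subtype_commutator] at c1
      obtain ⟨d, hd, rfl⟩ := c1
      exact Abelianization.commutator_subset_ker ψ hd
    have c5 := one _ c2 (mul_mem (inv_mem (Subgroup.commutator_mono le_top le_top c1)) ht')
    have := hθ c c3 _ (hQ c2)
    rwa [mul_inv_cancel_left, c5, ← a2 c c3, c4, one_mul] at this
  intro g _ s hs hs'
  have := hθ _ (mul_mem hs' (inv_mem hs)) s hs
  rw [inv_mul_cancel_right, key _ (mul_mem hs' (inv_mem hs))
    (Subgroup.commutator_mem_commutator (Subgroup.mem_top g) (Subgroup.mem_top s)), one_mul] at this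
  exact this

theorem step_Top (hall : AllW.{u}) {T₀ : Type*} [Group T₀] {W : Subgroup T₀}
    (hW : NodeOK.{u} W) (G : Type u) [Group G] [Finite G]
    (ih₀ : ∀ (G' : Type u) [Group G'] [Finite G'], Nat.card G' < Nat.card G → Ctl W G')
    (ihU : ∀ (R : Type u) [Group R] (W₁ : Subgroup R), NodeOK.{u} W₁ →
      ∀ (G' : Type u) [Group G'] [Finite G'], Nat.card G' < Nat.card G → Ctl W₁ G') :
    Ctl W G := by
  intro T f hf hT A _ θ hθ h
  have : Fact (Nat.Prime 3) := ⟨Nat.prime_three⟩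
  have lt : ∀ L : Subgroup G, L ≠ ⊤ → Nat.card L < Nat.card G := fun L hL =>
    not_le.1 fun c => hL (L.eq_top_of_le_card c)
  have hprop : ∀ L : Subgroup G, (T : Subgroup G) ≤ L → L ≠ ⊤ → FI (T : Subgroup G) θ L :=
    fun L hL hL' => loc_Top (ih₀ L (lt L hL'))
      ⟨hL, T.isPGroup', fun R' _ b c => T.is_maximal' b c⟩ f hf hT hθ h
  set Q := (T : Subgroup G).normalCore with hQ
  have hQT : Q ≤ T := (T : Subgroup G).normalCore_le
  by_cases hY : Stab Q θ = ⊤
  swap
  · have := hW G T f hf hT A θ hθ hY fun L h1 h2 g hg x hx =>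
      hprop L h1 h2 g hg x (hQT hx) (hQT ((inferInstance : Q.Normal).conj_mem x hx g))
    rwa [Subgroup.normalizer_eq_top] at h
  have core : ∀ D : Subgroup G, D.Normal → IsPGroup 3 D → D ≤ Q := fun D h1 h2 =>
    Subgroup.normal_le_normalCore.2 (h2.le_sylow_of_normal T)
  by_cases h1 : Q = ⊥
  · have pr : ∀ D : Subgroup G, D ≠ ⊥ → IsPGroup 3 D →
        Nat.card (Subgroup.normalizer (D : Set G)) < Nat.card G := fun D d1 d2 => lt _ fun e =>
      d1 (le_bot_iff.1 (h1 ▸ core D (Subgroup.normalizer_eq_top_iff.1 e) d2))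
    exact lg_Top hall G (fun D d1 d2 => ih₀ _ (pr D d1 d2))
      (fun R W₁ w D d1 d2 => ihU R W₁ w _ (pr D d1 d2)) T f hf hT hθ h
  by_cases h2 : Q = T
  · exact fun g _ s hs _ => (hY.ge (Subgroup.mem_top g) :) s (h2 ▸ hs)
  let π := QuotientGroup.mk' Q
  have hπ : Function.Surjective π := QuotientGroup.mk'_surjective Q
  have hk : ∀ x, π x = 1 ↔ x ∈ Q := fun x => QuotientGroup.eq_one_iff x
  let S := T.mapSurjective hπ
  have hS : (S : Subgroup (G ⧸ Q)) = (T : Subgroup G).map π := rfl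
  have cm : (S : Subgroup (G ⧸ Q)).comap π = T := by
    rw [hS, Subgroup.comap_map_eq, QuotientGroup.ker_mk', sup_eq_left.2 hQT]
  have : Nontrivial (S : Subgroup (G ⧸ Q)) := (Subgroup.nontrivial_iff_ne_bot _).2 fun e =>
    h2 (le_antisymm hQT fun x hx => (hk x).1 (e.le ⟨x, hx, rfl⟩))
  obtain ⟨W₁, w1, w2, w3⟩ := hall (S : Subgroup (G ⧸ Q)) S.isPGroup'
  set N := Subgroup.normalizer
    ((W₁.map (S : Subgroup (G ⧸ Q)).subtype : Subgroup (G ⧸ Q)) : Set (G ⧸ Q)) with hN
  have hSN : (S : Subgroup (G ⧸ Q)) ≤ N := Subgroup.le_normalizer.trans (char_Top w2)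
  have hlt : Nat.card (G ⧸ Q) < Nat.card G := by
    rw [Subgroup.card_eq_card_quotient_mul_card_subgroup Q]
    exact lt_mul_of_one_lt_right Nat.card_pos (Q.one_lt_card_iff_ne_bot.2 h1)
  have foc := focal_of_FI S hSN fun θ' a b =>
    ihU _ W₁ w3 _ hlt S _ (Subgroup.subtype_injective _) (Subgroup.range_subtype _) _ θ' a b
  have hTH : (T : Subgroup G) ≤ N.comap π := cm.ge.trans (Subgroup.comap_mono hSN)
  have hne : N.comap π ≠ ⊤ := by
    intro e
    have e1 : N = ⊤ := by
      rw [← Subgroup.map_comap_eq_self_of_surjective hπ N, e,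
        Subgroup.map_top_of_surjective _ hπ]
    have n1 := Subgroup.normalizer_eq_top_iff.1 e1
    have n2 : (W₁.map (S : Subgroup (G ⧸ Q)).subtype).comap π ≤ Q :=
      Subgroup.normal_le_normalCore.2
        ((Subgroup.comap_mono (Subgroup.map_subtype_le _)).trans cm.le)
    refine w1 ((Subgroup.eq_bot_iff_forall _).2 fun x hx => Subtype.ext ?_)
    obtain ⟨y, hy⟩ := hπ x
    exact hy ▸ (hk y).2 (n2 ⟨x, hx, hy.symm⟩)
  refine quot_Top T hθ hQT hY hTH (hprop _ hTH hne) fun t ht ht' => ?_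
  have m1 : π t ∈ (S : Subgroup (G ⧸ Q)) ⊓ commutator (G ⧸ Q) := ⟨⟨t, ht, rfl⟩, by
    have := Subgroup.mem_map_of_mem π ht'
    rw [commutator_def, Subgroup.map_commutator] at this
    exact Subgroup.commutator_mono le_top le_top this⟩
  have m2 := (foc.le m1).2
  rw [← Subgroup.map_comap_eq_self_of_surjective hπ N, ← Subgroup.map_commutator] at m2
  obtain ⟨c, c1, c2⟩ := m2
  exact ⟨c, c1, (hk _).1 (by rw [map_mul, map_inv, c2, inv_mul_cancel])⟩

theorem ctlU_Top (hall : AllW.{u}) (n : ℕ) : ∀ (R : Type u) [Group R] (W : Subgroup R),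
    NodeOK.{u} W → ∀ (G : Type u) [Group G] [Finite G], Nat.card G < n → Ctl W G := by
  induction n with
  | zero => exact fun _ _ _ _ _ _ _ h => absurd h (Nat.not_lt_zero _)
  | succ n ih =>
    exact fun R _ W hW G _ _ h => step_Top hall hW G
      (fun G' _ _ h' => ih R W hW G' (by omega)) fun R' _ W' hW' G' _ _ h' =>
        ih R' W' hW' G' (by omega)

theorem ctl_Top (hall : AllW.{u}) {T₀ : Type*} [Group T₀] {W : Subgroup T₀} (hW : NodeOK.{u} W)
    (G : Type u) [Group G] [Finite G] : Ctl W G := by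
  induction hn : Nat.card G using Nat.strong_induction_on generalizing G with
  | _ n ih =>
  exact step_Top hall hW G (fun G' _ _ h => ih _ (hn ▸ h) G' rfl)
    fun R _ W₁ w G' _ _ h => ctlU_Top hall _ R W₁ w G' h

/-- The control of the focal subgroup. -/
theorem top (hall : AllW.{u}) {T₀ : Type*} [Group T₀] {W : Subgroup T₀} [W.Normal]
    (hW : NodeOK.{u} W) (G : Type u) [Group G] [Finite G] (S : Sylow 3 G) (f : T₀ →* G)
    (hf : Function.Injective f) (hS : f.range = (S : Subgroup G)) :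
    (S : Subgroup G) ⊓ commutator G = (S : Subgroup G) ⊓
      ⁅Subgroup.normalizer (W.map f : Set G), Subgroup.normalizer (W.map f : Set G)⁆ := by
  refine focal_of_FI S ?_ fun θ hθ h => ctl_Top hall hW G S f hf hS _ θ hθ h
  rw [← hS]
  rintro _ ⟨t, rfl⟩
  refine Subgroup.mem_normalizer_fintype ?_
  rintro _ ⟨w, hw, rfl⟩
  exact ⟨t * w * t⁻¹, (inferInstance : W.Normal).conj_mem w hw t, by simp⟩

end Pool.Agent.MP_a5588a_al.Full
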